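import Mathlib

set_option autoImplicit false

namespace Pool.Agent.H.MP_a22eb7_al

/-- Sofic groups: finite subsets of `G` have approximate free actions on finite sets. -/
def IsSofic (G : Type*) [Group G] : Prop :=
  ∀ (F : Finset G) (ε : ℝ), 0 < ε → ∃ (N : ℕ) (σ : G → Equiv.Perm (Fin N)), 0 < N ∧
    (∀ g ∈ F, ∀ h ∈ F,
      ((Finset.univ.filter fun x => σ (g * h) x ≠ σ g (σ h x)).card : ℝ) ≤ ε * N) ∧
    (∀ g ∈ F, g ≠ 1 → ((Finset.univ.filter fun x => σ g x = x).card : ℝ) ≤ ε * N)

/-
PROOF (Elek-Szabo). Suppose AB = 1 and C := BA - 1 ≠ 0: some coefficient c := (C i0 j0).coeff g0 ≠ 0.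
Let S ∋ g0 be a finset containing the support of C i0 j0, F a finset containing 1, the supports of all
entries of A and B, S and all g⁻¹ g0 (g ∈ S). Take N, σ for (F, ε).
rep X ((i,x),(j,y)) := ∑ g in supp (X i j), (X i j).coeff g * [σ g y = x]   (additive in X; size Fin n × Fin N).
bad y :<-> some g,h ∈ F: σ(gh)y ≠ σ g (σ h y), or some g ∈ F, g ≠ 1, σ g y = y.  #bad <= (|F|^2+|F|) ε N.
(1) y good: σ 1 y = y (from g=h=1), and column (j,y) of rep A * rep B = column (j,y) of rep (A*B) = rep 1 = column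
    of the identity. So rep A * rep B - 1 has non-zero columns only at bad y: rank <= n #bad.
(2) rank (1 - X Y) = rank (1 - Y X) for square matrices over a field (Y : ker(1 - X Y) ≃ ker(1 - Y X)).
(3) column (j0,y), y good, of rep B * rep A - 1 is the column of rep (B*A) - rep 1 = rep C.
(4) Choose Y ⊆ good maximal with: for y ≠ y' in Y and g ∈ S, σ g y' ≠ σ g0 y. Every y excludes at most 2|S| others,
    so |Y| (2|S|+1) >= N - #bad. The submatrix of rep B * rep A - 1 with rows (i0, σ g0 y), columns (j0, y') (y, y' ∈ Y) is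
    c * identity (for y = y': σ g y = σ g0 y with g ≠ g0 gives σ(g⁻¹ g0) y = y: bad). So rank >= |Y|.
(5) N - #bad <= (2|S|+1) n #bad: contradiction for ε small.
-/
/-- The additive functional of `MonoidAlgebra K G` with value `c` at `single g c` when `σ g y = x`, and `0` otherwise. -/
private noncomputable def sof_phi {G K : Type*} [Semiring K] {N : ℕ} (σ : G → Equiv.Perm (Fin N))
    (x y : Fin N) : MonoidAlgebra K G →+ K where
  toFun a := ∑ g ∈ a.coeff.support, if σ g y = x then a.coeff g else 0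
  map_zero' := by simp
  map_add' a b := by
    have h : ∀ c : MonoidAlgebra K G, (∑ g ∈ c.coeff.support, if σ g y = x then c.coeff g else 0)
        = c.coeff.sum fun g r => if σ g y = x then r else 0 := fun c => rfl
    rw [h, h, h, MonoidAlgebra.coeff_add]
    classical
    apply Finsupp.sum_add_index
    · intro g _; simp
    · intro g _ r s; split_ifs <;> simp

private lemma sof_phi_single {G K : Type*} [Semiring K] {N : ℕ} (σ : G → Equiv.Perm (Fin N))
    (x y : Fin N) (g : G) (c : K) :
    sof_phi σ x y (MonoidAlgebra.single g c) = if σ g y = x then c else 0 := by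
  have h : sof_phi σ x y (MonoidAlgebra.single g c)
      = (MonoidAlgebra.single g c).coeff.sum fun g r => if σ g y = x then r else 0 := rfl
  rw [h, MonoidAlgebra.coeff_single, Finsupp.sum_single_index]
  simp

private lemma sof_phi_apply {G K : Type*} [Semiring K] {N : ℕ} (σ : G → Equiv.Perm (Fin N))
    (x y : Fin N) (a : MonoidAlgebra K G) :
    sof_phi σ x y a = ∑ g ∈ a.coeff.support, if σ g y = x then a.coeff g else 0 := rfl

private lemma sof_phi_mul {G K : Type*} [Group G] [Semiring K] {N : ℕ} (σ : G → Equiv.Perm (Fin N))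
    (x y : Fin N) (a b : MonoidAlgebra K G)
    (h : ∀ g ∈ a.coeff.support, ∀ k ∈ b.coeff.support, σ (g * k) y = σ g (σ k y)) :
    sof_phi σ x y (a * b) = ∑ z, sof_phi σ x z a * sof_phi σ z y b := by
  rw [MonoidAlgebra.mul_def]
  simp only [Finsupp.sum, map_sum, sof_phi_single]
  simp only [sof_phi_apply, Finset.sum_mul_sum]
  symm
  rw [Finset.sum_comm]
  apply Finset.sum_congr rfl
  intro g hg
  rw [Finset.sum_comm]
  apply Finset.sum_congr rfl
  intro k hk
  rw [h g hg k hk, Finset.sum_eq_single (σ k y)]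
  · simp
  · intro z _ hz
    rw [if_neg (Ne.symm hz), mul_zero]
  · simp

private lemma sof_rank_swap {K ι : Type*} [Field K] [Fintype ι] [DecidableEq ι] (X Y : Matrix ι ι K) :
    (1 - X * Y).rank ≤ (1 - Y * X).rank := by
  have e1 := LinearMap.finrank_range_add_finrank_ker (1 - X * Y).mulVecLin
  have e2 := LinearMap.finrank_range_add_finrank_ker (1 - Y * X).mulVecLin
  have h : ∀ v ∈ LinearMap.ker (1 - Y * X).mulVecLin,
      X.mulVecLin v ∈ LinearMap.ker (1 - X * Y).mulVecLin := by
    intro v hv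
    rw [LinearMap.mem_ker, Matrix.mulVecLin_apply, Matrix.sub_mulVec, Matrix.one_mulVec, sub_eq_zero,
      ← Matrix.mulVec_mulVec] at hv ⊢
    rw [Matrix.mulVecLin_apply, ← hv]
  have h2 : Function.Injective (X.mulVecLin.restrict h) := by
    rw [← LinearMap.ker_eq_bot, LinearMap.ker_eq_bot']
    intro v hv
    have hv1 := v.2
    rw [LinearMap.mem_ker, Matrix.mulVecLin_apply, Matrix.sub_mulVec, Matrix.one_mulVec, sub_eq_zero,
      ← Matrix.mulVec_mulVec] at hv1
    have hv2 : X.mulVec v.1 = 0 := by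
      have := congrArg Subtype.val hv
      simpa using this
    apply Subtype.ext
    rw [hv1, hv2]
    simp
  have h3 := LinearMap.finrank_le_finrank_of_injective h2
  unfold Matrix.rank
  omega

private lemma sof_rank_le {K ι κ : Type*} [Field K] [Fintype ι] [Fintype κ] (M : Matrix ι κ K)
    (T : Finset κ) (h : ∀ j, j ∉ T → ∀ i, M i j = 0) : M.rank ≤ T.card := by
  classical
  rw [Matrix.rank_eq_finrank_span_cols]
  have h1 : Submodule.span K (Set.range M.col) ≤ Submodule.span K ((T.image M.col : Finset (ι → K)) : Set (ι → K)) := by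
    rw [Submodule.span_le]
    rintro _ ⟨j, rfl⟩
    by_cases hj : j ∈ T
    · exact Submodule.subset_span (by simpa using ⟨j, hj, rfl⟩)
    · have : M.col j = 0 := by
        funext i
        exact h j hj i
      rw [this]
      exact Submodule.zero_mem _
  calc _ ≤ _ := Submodule.finrank_mono h1
    _ ≤ (T.image M.col).card := finrank_span_finset_le_card _
    _ ≤ T.card := Finset.card_image_le

private lemma sof_le_rank {K ι κ γ : Type*} [Field K] [Fintype ι] [Fintype κ] [Fintype γ] [DecidableEq γ]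
    (M : Matrix ι κ K) (r : γ → ι) (e : γ → κ) (c : K) (hc : c ≠ 0)
    (h : ∀ y z, M (r y) (e z) = if y = z then c else 0) : Fintype.card γ ≤ M.rank := by
  rw [Matrix.rank_eq_finrank_span_cols]
  have h1 : LinearIndependent K (fun z => M.col (e z)) := by
    rw [Fintype.linearIndependent_iff]
    intro a ha y
    have := congrFun ha (r y)
    simp only [Finset.sum_apply, Pi.smul_apply, Matrix.col_apply, h, smul_eq_mul, mul_ite, mul_zero,
      Finset.sum_ite_eq, Finset.mem_univ, if_true, Pi.zero_apply] at this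
    exact (mul_eq_zero.mp this).resolve_right hc
  rw [← finrank_span_eq_card h1]
  apply Submodule.finrank_mono
  apply Submodule.span_mono
  rintro _ ⟨z, rfl⟩
  exact ⟨e z, rfl⟩

/-- A large subset of `D` without relations, where each element is related to at most `m` others. -/
private lemma sof_indep {V : Type*} [DecidableEq V] (D : Finset V) (ex : V → Finset V) (m : ℕ)
    (hm : ∀ y, (ex y).card ≤ m) (hs : ∀ y z, z ∈ ex y → y ∈ ex z) :
    ∃ Y ⊆ D, (∀ y ∈ Y, ∀ z ∈ Y, y ≠ z → z ∉ ex y) ∧ D.card ≤ (m + 1) * Y.card := by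
  induction' hn : D.card using Nat.strong_induction_on with n ih generalizing D
  rcases D.eq_empty_or_nonempty with rfl | ⟨y, hy⟩
  · exact ⟨∅, by simp, by simp, by simp at hn; omega⟩
  have h1 : ((D.erase y) \ ex y).card < n := by
    rw [← hn]
    calc _ ≤ (D.erase y).card := Finset.card_le_card Finset.sdiff_subset
      _ < D.card := Finset.card_erase_lt_of_mem hy
  obtain ⟨Y, hY1, hY2, hY3⟩ := ih _ h1 _ rfl
  have hyY : y ∉ Y := fun h => by
    have := hY1 h
    simp at this
  refine ⟨insert y Y, ?_, ?_, ?_⟩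
  · intro z hz
    rcases Finset.mem_insert.mp hz with rfl | hz
    · exact hy
    · exact Finset.mem_of_mem_erase (Finset.mem_sdiff.mp (hY1 hz)).1
  · intro a ha b hb hab
    rcases Finset.mem_insert.mp ha with ha' | ha'
    · rcases Finset.mem_insert.mp hb with hb' | hb'
      · exact absurd (ha'.trans hb'.symm) hab
      · rw [ha']
        exact (Finset.mem_sdiff.mp (hY1 hb')).2
    · rcases Finset.mem_insert.mp hb with hb' | hb'
      · intro h
        rw [hb'] at h
        exact (Finset.mem_sdiff.mp (hY1 ha')).2 (hs _ _ h)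
      · exact hY2 a ha' b hb' hab
  · rw [Finset.card_insert_of_notMem hyY]
    have h4 : D.card ≤ ((D.erase y) \ ex y).card + (ex y).card + 1 := by
      have : D ⊆ insert y (((D.erase y) \ ex y) ∪ ex y) := by
        intro z hz
        by_cases hzy : z = y
        · simp [hzy]
        · by_cases hz2 : z ∈ ex y
          · simp [hz2]
          · simp [hz, hzy, hz2]
      calc D.card ≤ _ := Finset.card_le_card this
        _ ≤ (((D.erase y) \ ex y) ∪ ex y).card + 1 := Finset.card_insert_le _ _
        _ ≤ _ := by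
          have := Finset.card_union_le ((D.erase y) \ ex y) (ex y)
          omega
    have h5 := hm y
    have h6 : (m + 1) * (Y.card + 1) = (m + 1) * Y.card + m + 1 := by ring
    omega

theorem IsSofic.stablyFinite {G : Type*} [Group G] (hG : IsSofic G) (K : Type*) [Field K] (n : ℕ)
    (A B : Matrix (Fin n) (Fin n) (MonoidAlgebra K G)) (hAB : A * B = 1) : B * A = 1 := by
  classical
  by_contra hBA
  obtain ⟨C, hC⟩ : ∃ C, C = B * A - 1 := ⟨_, rfl⟩
  have hC0 : C ≠ 0 := by rw [hC]; exact sub_ne_zero.mpr hBA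
  obtain ⟨i0, j0, hij⟩ : ∃ i j, C i j ≠ 0 := by
    by_contra h
    push Not at h
    exact hC0 (Matrix.ext h)
  obtain ⟨g0, hg0⟩ : ∃ g0, (C i0 j0).coeff g0 ≠ 0 := by
    by_contra h
    push Not at h
    exact hij (MonoidAlgebra.coeff_injective (Finsupp.ext h))
  obtain ⟨S, hS⟩ : ∃ S, S = (C i0 j0).coeff.support := ⟨_, rfl⟩
  have hg0S : g0 ∈ S := by rw [hS]; exact Finsupp.mem_support_iff.mpr hg0
  obtain ⟨F, hF1, hFA, hFB, hFS, hFi⟩ : ∃ F : Finset G, 1 ∈ F ∧
      (∀ i j, ∀ g ∈ (A i j).coeff.support, g ∈ F) ∧ (∀ i j, ∀ g ∈ (B i j).coeff.support, g ∈ F) ∧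
      (∀ g ∈ S, g ∈ F) ∧ (∀ g ∈ S, g⁻¹ * g0 ∈ F) := by
    refine ⟨{1} ∪ (Finset.univ.biUnion fun i => Finset.univ.biUnion fun j =>
      (A i j).coeff.support ∪ (B i j).coeff.support) ∪ S ∪ S.image (fun g => g⁻¹ * g0),
      ?_, ?_, ?_, ?_, ?_⟩
    · simp
    · intro i j g hg
      simp only [Finset.mem_union, Finset.mem_biUnion, Finset.mem_univ, true_and]
      exact Or.inl (Or.inl (Or.inr ⟨i, j, Or.inl hg⟩))
    · intro i j g hg
      simp only [Finset.mem_union, Finset.mem_biUnion, Finset.mem_univ, true_and]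
      exact Or.inl (Or.inl (Or.inr ⟨i, j, Or.inr hg⟩))
    · intro g hg
      simp only [Finset.mem_union]
      exact Or.inl (Or.inr hg)
    · intro g hg
      simp only [Finset.mem_union, Finset.mem_image]
      exact Or.inr ⟨g, hg, rfl⟩
  have hFc : 0 < F.card := Finset.card_pos.mpr ⟨1, hF1⟩
  obtain ⟨M, hM⟩ : ∃ M : ℝ, M = ((2 * S.card + 1) * n + 1) * (F.card ^ 2 + F.card) := ⟨_, rfl⟩
  have hMpos : 0 < M := by rw [hM]; positivity
  obtain ⟨N, σ, hN, hmul, hfree⟩ := hG F (1 / (2 * M)) (by positivity)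
  have hNr : (0 : ℝ) < N := by exact_mod_cast hN
  -- the bad points
  obtain ⟨T, hT⟩ : ∃ T : Finset (Fin N), T = Finset.univ.filter fun y =>
      (∃ g ∈ F, ∃ h ∈ F, σ (g * h) y ≠ σ g (σ h y)) ∨ ∃ g ∈ F, g ≠ 1 ∧ σ g y = y := ⟨_, rfl⟩
  have hTc : (T.card : ℝ) ≤ (F.card ^ 2 + F.card) * (1 / (2 * M) * N) := by
    have h1 : T ⊆ ((F ×ˢ F).biUnion fun p => Finset.univ.filter fun x => σ (p.1 * p.2) x ≠ σ p.1 (σ p.2 x)) ∪
        ((F.filter fun g => g ≠ 1).biUnion fun g => Finset.univ.filter fun x => σ g x = x) := by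
      intro y hy
      rw [hT, Finset.mem_filter] at hy
      rw [Finset.mem_union]
      rcases hy.2 with ⟨g, hg, h, hh, hne⟩ | ⟨g, hg, hg1, hgy⟩
      · left
        rw [Finset.mem_biUnion]
        exact ⟨(g, h), Finset.mem_product.mpr ⟨hg, hh⟩, by simpa using hne⟩
      · right
        rw [Finset.mem_biUnion]
        exact ⟨g, Finset.mem_filter.mpr ⟨hg, hg1⟩, by simpa using hgy⟩
    have h2 : (((F ×ˢ F).biUnion fun p => Finset.univ.filter fun x => σ (p.1 * p.2) x ≠ σ p.1 (σ p.2 x)).card : ℝ)
        ≤ F.card ^ 2 * (1 / (2 * M) * N) := by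
      calc _ ≤ ((∑ p ∈ F ×ˢ F, (Finset.univ.filter fun x => σ (p.1 * p.2) x ≠ σ p.1 (σ p.2 x)).card : ℕ) : ℝ) := by
            exact_mod_cast Finset.card_biUnion_le
        _ = ∑ p ∈ F ×ˢ F, ((Finset.univ.filter fun x => σ (p.1 * p.2) x ≠ σ p.1 (σ p.2 x)).card : ℝ) := by
            push_cast; rfl
        _ ≤ ∑ _p ∈ F ×ˢ F, (1 / (2 * M) * N) := by
            apply Finset.sum_le_sum
            intro p hp
            exact hmul p.1 (Finset.mem_product.mp hp).1 p.2 (Finset.mem_product.mp hp).2
        _ = F.card ^ 2 * (1 / (2 * M) * N) := by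
            rw [Finset.sum_const, Finset.card_product, nsmul_eq_mul]
            push_cast; ring
    have h3 : (((F.filter fun g => g ≠ 1).biUnion fun g => Finset.univ.filter fun x => σ g x = x).card : ℝ)
        ≤ F.card * (1 / (2 * M) * N) := by
      calc _ ≤ ((∑ g ∈ F.filter fun g => g ≠ 1, (Finset.univ.filter fun x => σ g x = x).card : ℕ) : ℝ) := by
            exact_mod_cast Finset.card_biUnion_le
        _ = ∑ g ∈ F.filter fun g => g ≠ 1, ((Finset.univ.filter fun x => σ g x = x).card : ℝ) := by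
            push_cast; rfl
        _ ≤ ∑ _g ∈ F.filter fun g => g ≠ 1, (1 / (2 * M) * N) := by
            apply Finset.sum_le_sum
            intro g hg
            exact hfree g (Finset.mem_filter.mp hg).1 (Finset.mem_filter.mp hg).2
        _ = (F.filter fun g => g ≠ 1).card * (1 / (2 * M) * N) := by
            rw [Finset.sum_const, nsmul_eq_mul]
        _ ≤ F.card * (1 / (2 * M) * N) := by
            apply mul_le_mul_of_nonneg_right _ (by positivity)
            exact_mod_cast Finset.card_filter_le _ _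
    have h4 := (Finset.card_le_card h1).trans (Finset.card_union_le _ _)
    have h5 : (T.card : ℝ) ≤ F.card ^ 2 * (1 / (2 * M) * N) + F.card * (1 / (2 * M) * N) := by
      refine le_trans ?_ (add_le_add h2 h3)
      exact_mod_cast h4
    linarith
  have hgm : ∀ y, y ∉ T → ∀ g ∈ F, ∀ h ∈ F, σ (g * h) y = σ g (σ h y) := by
    intro y hy g hg h hh
    by_contra hne
    exact hy (by rw [hT, Finset.mem_filter]; exact ⟨Finset.mem_univ _, Or.inl ⟨g, hg, h, hh, hne⟩⟩)
  have hgf : ∀ y, y ∉ T → ∀ g ∈ F, g ≠ 1 → σ g y ≠ y := by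
    intro y hy g hg hg1 hne
    exact hy (by rw [hT, Finset.mem_filter]; exact ⟨Finset.mem_univ _, Or.inr ⟨g, hg, hg1, hne⟩⟩)
  have hg1 : ∀ y, y ∉ T → σ 1 y = y := by
    intro y hy
    have := hgm y hy 1 hF1 1 hF1
    rw [mul_one] at this
    exact ((σ 1).injective this).symm
  -- the representation
  obtain ⟨rep, hrep⟩ : ∃ rep : Matrix (Fin n) (Fin n) (MonoidAlgebra K G) →
      Matrix (Fin n × Fin N) (Fin n × Fin N) K,
      ∀ X p q, rep X p q = sof_phi σ p.2 q.2 (X p.1 q.1) :=
    ⟨fun X => Matrix.of fun p q => sof_phi σ p.2 q.2 (X p.1 q.1), fun _ _ _ => rfl⟩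
  have hrmul : ∀ X Y : Matrix (Fin n) (Fin n) (MonoidAlgebra K G),
      (∀ i j, ∀ g ∈ (X i j).coeff.support, g ∈ F) → (∀ i j, ∀ g ∈ (Y i j).coeff.support, g ∈ F) →
      ∀ p q, q.2 ∉ T → (rep X * rep Y) p q = rep (X * Y) p q := by
    intro X Y hX hY p q hq
    rw [Matrix.mul_apply, Fintype.sum_prod_type, hrep, Matrix.mul_apply, map_sum]
    apply Finset.sum_congr rfl
    intro k _
    rw [sof_phi_mul σ p.2 q.2 (X p.1 k) (Y k q.1)
      (fun g hg h hh => hgm q.2 hq g (hX _ _ g hg) h (hY _ _ h hh))]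
    apply Finset.sum_congr rfl
    intro z _
    rw [hrep, hrep]
  have hrone : ∀ p q, q.2 ∉ T → rep 1 p q = (1 : Matrix (Fin n × Fin N) (Fin n × Fin N) K) p q := by
    intro p q hq
    rw [hrep, Matrix.one_apply, Matrix.one_apply]
    by_cases h1 : p.1 = q.1
    · rw [if_pos h1, MonoidAlgebra.one_def, sof_phi_single, hg1 q.2 hq]
      by_cases h2 : q.2 = p.2
      · rw [if_pos h2, if_pos (Prod.ext h1 h2.symm)]
      · rw [if_neg h2, if_neg (fun h => h2 (by rw [h]))]
    · rw [if_neg h1, map_zero, if_neg (fun h => h1 (by rw [h]))]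
  have hrsub : ∀ X Y p q, rep (X - Y) p q = rep X p q - rep Y p q := by
    intro X Y p q
    rw [hrep, hrep, hrep, Matrix.sub_apply, map_sub]
  -- upper bound
  have hup : (1 - rep A * rep B).rank ≤ n * T.card := by
    have := sof_rank_le (1 - rep A * rep B) (Finset.univ ×ˢ T) (by
      intro q hq p
      have hq2 : q.2 ∉ T := fun h => hq (Finset.mem_product.mpr ⟨Finset.mem_univ _, h⟩)
      rw [Matrix.sub_apply, hrmul A B hFA hFB p q hq2, hAB, hrone p q hq2, sub_self])
    rwa [Finset.card_product, Finset.card_univ, Fintype.card_fin] at this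
  -- lower bound
  obtain ⟨Y, hY1, hY2, hY3⟩ := sof_indep (Finset.univ \ T)
    (fun y => S.image (fun g => (σ g).symm (σ g0 y)) ∪ S.image (fun g => (σ g0).symm (σ g y)))
    (2 * S.card)
    (by
      intro y
      have h1 := Finset.card_union_le (S.image (fun g => (σ g).symm (σ g0 y)))
        (S.image (fun g => (σ g0).symm (σ g y)))
      have h2 : (S.image (fun g => (σ g).symm (σ g0 y))).card ≤ S.card := Finset.card_image_le
      have h3 : (S.image (fun g => (σ g0).symm (σ g y))).card ≤ S.card := Finset.card_image_le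
      omega)
    (by
      intro y z hz
      simp only [Finset.mem_union, Finset.mem_image] at hz ⊢
      rcases hz with ⟨g, hg, h⟩ | ⟨g, hg, h⟩
      · right
        refine ⟨g, hg, ?_⟩
        rw [Equiv.symm_apply_eq] at h ⊢
        exact h.symm
      · left
        refine ⟨g, hg, ?_⟩
        rw [Equiv.symm_apply_eq] at h ⊢
        exact h.symm)
  have hlow : Y.card ≤ (1 - rep B * rep A).rank := by
    have := sof_le_rank (1 - rep B * rep A) (fun y : Y => (i0, σ g0 y.1)) (fun z : Y => (j0, z.1))
      (-(C i0 j0).coeff g0) (neg_ne_zero.mpr hg0) (by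
      intro y z
      have hz : z.1 ∉ T := (Finset.mem_sdiff.mp (hY1 z.2)).2
      have h1 : (1 - rep B * rep A) (i0, σ g0 y.1) (j0, z.1) = - rep C (i0, σ g0 y.1) (j0, z.1) := by
        rw [hC, hrsub, Matrix.sub_apply, hrmul B A hFB hFA _ _ hz, hrone _ _ hz]
        ring
      rw [h1, hrep, sof_phi_apply, ← hS]
      by_cases hyz : y = z
      · subst hyz
        rw [if_pos rfl]
        congr 1
        rw [Finset.sum_eq_single g0]
        · simp
        · intro g hg hgg
          apply if_neg
          intro h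
          have h2 : g * (g⁻¹ * g0) = g0 := by group
          have h3 := hgm y.1 hz g (hFS g hg) (g⁻¹ * g0) (hFi g hg)
          rw [h2] at h3
          have h4 : σ g y.1 = σ g0 y.1 := h
          rw [h3] at h4
          have h5 := (σ g).injective h4
          refine hgf y.1 hz (g⁻¹ * g0) (hFi g hg) ?_ h5.symm
          intro h6
          exact hgg (by rw [inv_mul_eq_one] at h6; exact h6)
        · intro h
          exact absurd hg0S h
      · rw [if_neg hyz, neg_eq_zero]
        apply Finset.sum_eq_zero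
        intro g hg
        apply if_neg
        intro h
        apply hY2 y.1 y.2 z.1 z.2 (fun h => hyz (Subtype.ext h))
        rw [Finset.mem_union, Finset.mem_image]
        left
        refine ⟨g, hg, ?_⟩
        rw [Equiv.symm_apply_eq]
        exact h.symm)
    simpa using this
  have hsw := sof_rank_swap (rep B) (rep A)
  have hD : (Finset.univ \ T).card + T.card = N := by
    have := Finset.card_sdiff_add_card_eq_card (Finset.subset_univ T)
    simpa using this
  have hfin : N ≤ ((2 * S.card + 1) * n + 1) * T.card := by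
    have h1 : Y.card ≤ n * T.card := hlow.trans (hsw.trans hup)
    have h2 : (2 * S.card + 1) * Y.card ≤ (2 * S.card + 1) * (n * T.card) := Nat.mul_le_mul_left _ h1
    have h3 : ((2 * S.card + 1) * n + 1) * T.card = (2 * S.card + 1) * (n * T.card) + T.card := by ring
    omega
  have hfin2 : (N : ℝ) ≤ ((2 * S.card + 1) * n + 1) * T.card := by exact_mod_cast hfin
  have h7 : (N : ℝ) ≤ M * (1 / (2 * M) * N) := by
    calc (N : ℝ) ≤ ((2 * S.card + 1) * n + 1) * T.card := hfin2
      _ ≤ ((2 * S.card + 1) * n + 1) * ((F.card ^ 2 + F.card) * (1 / (2 * M) * N)) :=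
          mul_le_mul_of_nonneg_left hTc (by positivity)
      _ = (((2 * S.card + 1) * n + 1) * (F.card ^ 2 + F.card)) * (1 / (2 * M) * N) := by ring
      _ = M * (1 / (2 * M) * N) := by rw [← hM]
  have h8 : M * (1 / (2 * M) * N) = N / 2 := by
    field_simp
  rw [h8] at h7
  linarith

end Pool.Agent.H.MP_a22eb7_al
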