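import Pool.Agent.H.MP_a22eb7_al.helper44.Base

set_option autoImplicit false
set_option linter.unusedSectionVars false

namespace Pool.Agent.H.MP_a22eb7_al.Lay

open MonoidAlgebra

universe u w v

variable {M : Type u} [Monoid M] {K : Type w} [Ring K]

theorem InGrp.fitJ {a : M} (h : InGrp a) : JLE a (a * a) := by
  obtain ⟨g, b, hg, hga, hag, hab, hba⟩ := h
  refine ⟨1, b, ?_⟩
  rw [one_mul, mul_assoc, hab, hag]

theorem inGrp_of_fit (hM : Tame M) {a g : M} (hg : g * g = g) (hga : JLE g a) (hag : JLE a g)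
    (haa : JLE a (a * a)) : InGrp a := by
  obtain ⟨u, v, huv⟩ := hag
  obtain ⟨p, hp⟩ : ∃ p, p = u * g := ⟨_, rfl⟩
  obtain ⟨q, hq⟩ : ∃ q, q = g * v := ⟨_, rfl⟩
  have hpg : p * g = p := by rw [hp, mul_assoc, hg]
  have hgq : g * q = q := by rw [hq, ← mul_assoc, hg]
  have hpq : p * q = a := by
    calc p * q = u * (g * g) * v := by rw [hp, hq]; simp only [mul_assoc]
      _ = a := by rw [hg, ← huv]
  have hw : JLE g (q * p) := by
    refine (hga.trans haa).trans ⟨p, q, ?_⟩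
    rw [← hpq]; simp only [mul_assoc]
  obtain ⟨r, hgr, hrg, hwr, hrw⟩ := hM.exists_inv hg (w := q * p)
    (by rw [← mul_assoc, hgq]) (by rw [mul_assoc, hpg]) hw
  refine ⟨p * r * q, p * r * r * q, ?_, ?_, ?_, ?_, ?_⟩
  · calc (p * r * q) * (p * r * q) = p * r * (q * p * r) * q := by simp only [mul_assoc]
      _ = p * r * q := by rw [hwr, mul_assoc p r g, hrg]
  · calc (p * r * q) * a = p * (r * (q * p)) * q := by rw [← hpq]; simp only [mul_assoc]
      _ = a := by rw [hrw, hpg, hpq]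
  · calc a * (p * r * q) = p * (q * p * r) * q := by rw [← hpq]; simp only [mul_assoc]
      _ = a := by rw [hwr, hpg, hpq]
  · calc a * (p * r * r * q) = p * (q * p * r) * r * q := by rw [← hpq]; simp only [mul_assoc]
      _ = p * r * q := by rw [hwr, hpg]
  · calc (p * r * r * q) * a = p * r * (r * (q * p)) * q := by rw [← hpq]; simp only [mul_assoc]
      _ = p * r * q := by rw [hrw, mul_assoc p r g, hrg]

/-- An admissible extension `D ⊆ D'` of ideals, relative to `e`: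
1. a product of two elements of `D' \ D` which lies in `D` is not above `e`; or
2. `D' = D ∪ M h M` for an idempotent `h ∉ D`, and a product of two elements of `h M h \ D` which
  lies in `D` is not above `e`; or
3. products of elements of `D' \ D` lie in `D`, and each element of `D' \ D` has a power which is
  not above `e` or lies in a subgroup of `M`. -/
def Step (e : M) (D D' : Set M) : Prop :=
  (∀ a ∈ D', a ∉ D → ∀ b ∈ D', b ∉ D → a * b ∈ D → ¬ JLE e (a * b)) ∨
  (∃ h : M, h * h = h ∧ h ∉ D ∧ D' = D ∪ {m | JLE m h} ∧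
    ∀ a b, h * a = a → a * h = a → a ∉ D → h * b = b → b * h = b → b ∉ D →
      a * b ∈ D → ¬ JLE e (a * b)) ∨
  ((∀ a ∈ D', a ∉ D → ∀ b ∈ D', b ∉ D → a * b ∈ D) ∧
    ∀ t ∈ D', t ∉ D → ∃ k : ℕ, ¬ JLE e (t ^ k) ∨ InGrp (t ^ (k + 1)))

/-- There is a family of ideals of `M`, closed under unions of chains, in which every member
`D ≠ M` has a strictly larger admissible extension, and which contains an ideal `D₀` containing all
elements not strictly above `e`, such that `D₀` contains nothing else, or consists of elements of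
finite left rank at `e`, or of elements of finite right rank at `e`, or satisfies `R D₀`. -/
def Chain (e : M) (R : Set M → Prop) : Prop :=
  ∃ 𝒟 : Set (Set M), (∀ D ∈ 𝒟, IsLow D) ∧
    (∃ D₀ ∈ 𝒟, {m : M | JLE e m → JLE m e} ⊆ D₀ ∧
      (D₀ = {m : M | JLE e m → JLE m e} ∨ (∀ m ∈ D₀, RFin e m) ∨ (∀ m ∈ D₀, LFin e m) ∨ R D₀)) ∧
    (∀ c ⊆ 𝒟, IsChain (fun x1 x2 => x1 ⊆ x2) c → c.Nonempty → ⋃₀ c ∈ 𝒟) ∧
    (∀ D ∈ 𝒟, D ≠ Set.univ → ∃ D' ∈ 𝒟, D ⊂ D' ∧ Step e D D')

theorem claim_of_chain (hM : Tame M) {e : M} (he : e * e = e) {R : Set M → Prop}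
    (hacc : Chain e R)
    (hK : ∀ (G : Type u) [Group G] (f : G →ₙ* M), Function.Injective f →
      SF (MonoidAlgebra K G))
    {Q : Type v} [Ring Q] (π : MonoidAlgebra K M →+* Q) (hπ : Function.Surjective π)
    (hker : ∀ x, π x = 0 ↔ ∀ m, JLE e m → x.coeff m = 0)
    (hR : ∀ (D : Set M) (hD : IsLow D), R D → {m : M | JLE e m → JLE m e} ⊆ D →
      Claim (idl π hπ {m : M | JLE e m → JLE m e} (isLow_layer e)) (idl π hπ D hD)) :
    Claim (idl π hπ {m : M | JLE e m → JLE m e} (isLow_layer e))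
      (idl π hπ Set.univ isLow_univ) := by
  obtain ⟨b, hb⟩ : ∃ b, b = idl π hπ {m : M | JLE e m → JLE m e} (isLow_layer e) := ⟨_, rfl⟩
  rw [← hb]
  obtain ⟨𝒟, hlow, ⟨D₀, hD₀, hID₀, hstart⟩, hunion, hext⟩ := hacc
  let S : Set (Set M) := {D | D ∈ 𝒟 ∧ ∀ hD : IsLow D, Claim b (idl π hπ D hD)}
  have h0 : D₀ ∈ S := by
    refine ⟨hD₀, fun hD => ?_⟩
    obtain ⟨G, _, ⟨L⟩⟩ := exists_localGroup hM he
    rw [hb]
    rcases hstart with h | h | h | h
    · subst h
      exact claim_bottom hM he hK π hπ hker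
    · exact claim_RFin hM L (hK G (lhom L) L.emb_inj) π hπ hker hD h
    · exact claim_LFin hM L (hK G (lhom L) L.emb_inj) π hπ hker hD h
    · exact hR D₀ hD h hID₀
  have hchain : ∀ c ⊆ S, IsChain (fun x1 x2 => x1 ⊆ x2) c → c.Nonempty →
      ∃ ub ∈ S, ∀ s ∈ c, s ⊆ ub := by
    intro c hcS hc hne
    refine ⟨⋃₀ c, ⟨hunion c (fun D hD => (hcS hD).1) hc hne, fun hU => ?_⟩,
      fun s hs => Set.subset_sUnion_of_mem hs⟩
    exact claim_union π hπ b c (fun D hD => hlow D (hcS hD).1) hc hne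
      (fun D hD => (hcS hD).2 _) hU
  obtain ⟨D, hID, hDmax⟩ := zorn_subset_nonempty S hchain D₀ h0
  obtain ⟨hD𝒟, hDcl⟩ := hDmax.prop
  have hDlow := hlow D hD𝒟
  have hbD : ∀ q ∈ b, q ∈ idl π hπ D hDlow := by
    intro q hq
    rw [hb] at hq
    exact idl_mono π hπ (hID₀.trans hID) hq
  by_cases hDu : D = Set.univ
  · subst hDu
    exact hDcl _
  · exfalso
    obtain ⟨D', hD', hDD', hstep⟩ := hext D hD𝒟 hDu
    have hD'S : D' ∈ S := by
      refine ⟨hD', fun hlow' => ?_⟩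
      rcases hstep with h | ⟨h, hh, hhD, rfl, hmul⟩ | ⟨h1, h2⟩
      · exact claim_step1 π hπ hker hDlow hlow' h b hbD (hDcl _)
      · exact claim_step2 π hπ hker hDlow hh hhD hmul hlow' b hbD (hDcl _)
      · exact claim_step3 π hπ hker hDlow hlow' h1 h2 b (hDcl _)
    exact hDD'.2 (hDmax.le_of_ge hD'S hDD'.1)

/-! ### Sufficient conditions -/

theorem rFin_of_layer (hM : Tame M) {e : M} (he : e * e = e) {m : M} (hm : JLE e m → JLE m e) :
    RFin e m := by
  classical
  refine ⟨{m}, fun u _ hmu => ⟨m, Finset.mem_singleton_self m, ⟨u, rfl⟩, ?_⟩⟩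
  obtain ⟨a, b, hab⟩ := hm (hmu.trans (JLE.mul_left_self _ _))
  have h1 : m * u = a * (e * b * u) := by rw [hab]; simp only [mul_assoc]
  obtain ⟨p, hp⟩ := exists_right_inv hM he (u := e * b * u)
    (by rw [← mul_assoc, ← mul_assoc, he]) (hmu.trans (h1 ▸ JLE.mul_right_self _ _))
  refine ⟨p * b, ?_⟩
  calc m = a * e * b := hab
    _ = a * (e * b * u * p) * b := by rw [hp]
    _ = a * e * b * u * (p * b) := by simp only [mul_assoc]
    _ = m * u * (p * b) := by rw [← hab]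

theorem chain_of_layered (hM : Tame M) {e : M} (h2 : Desc M e)
    (h3 : RegNull M e) (R : Set M → Prop) : Chain e R := by
  refine ⟨{D | IsLow D ∧ {m : M | JLE e m → JLE m e} ⊆ D}, fun D hD => hD.1,
    ⟨_, ⟨isLow_layer e, subset_rfl⟩, subset_rfl, Or.inl rfl⟩,
    ?_, ?_⟩
  · intro c hc _ hne
    refine ⟨?_, ?_⟩
    · rintro x y hxy ⟨D, hD, hy⟩
      exact ⟨D, hD, (hc hD).1 x y hxy hy⟩
    · obtain ⟨D, hD⟩ := hne
      exact (hc hD).2.trans (Set.subset_sUnion_of_mem hD)
  · rintro D ⟨hDlow, hID⟩ hDu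
    have hout : ∀ s, s ∉ D → JLE e s := by
      intro s hs
      by_contra hes
      apply hs
      apply hID
      exact fun h => absurd h hes
    obtain ⟨s₀, hs₀⟩ : ∃ s, s ∉ D := by
      by_contra hcon
      push Not at hcon
      exact hDu (Set.eq_univ_of_forall hcon)
    have hlow' : ∀ s, IsLow (D ∪ {m | JLE m s}) := fun s => hDlow.union (isLow_le s)
    have hss : ∀ s, s ∉ D → D ⊂ D ∪ {m | JLE m s} := fun s hs =>
      ⟨Set.subset_union_left, fun h => hs (h (Or.inr (JLE.refl s)))⟩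
    by_cases hreg : ∃ h : M, h * h = h ∧ h ∉ D ∧ ∀ t, t ∉ D → JLE t h → JLE h t
    · obtain ⟨h, hh, hhD, hmin⟩ := hreg
      refine ⟨D ∪ {m | JLE m h}, ⟨hlow' h, hID.trans Set.subset_union_left⟩, hss h hhD,
        Or.inr (Or.inl ⟨h, hh, hhD, rfl, ?_⟩)⟩
      intro a b hha hah haD hhb hbh hbD habD _
      obtain ⟨w, -, -, hw, -⟩ := hM.exists_inv hh hha hah (hmin a haD ⟨a, 1, by
        rw [mul_one, hah]⟩)
      obtain ⟨z, hz, -, hz2, -⟩ := hM.exists_inv hh hhb hbh (hmin b hbD ⟨b, 1, by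
        rw [mul_one, hbh]⟩)
      exfalso
      refine hhD (hDlow h (a * b) ⟨1, z * w, ?_⟩ habD)
      calc h = a * h * w := by rw [hah, hw]
        _ = 1 * (a * b) * (z * w) := by rw [← hz2, one_mul]; simp only [mul_assoc]
    · obtain ⟨s, hs, hmin⟩ : ∃ s, s ∉ D ∧ ∀ t, t ∉ D → JLE t s → JLE s t := by
        by_contra hcon
        push Not at hcon
        choose f hf1 hf2 hf3 using fun (s : {s : M // s ∉ D}) => hcon s.1 s.2
        let g : {s : M // s ∉ D} → {s : M // s ∉ D} := fun s => ⟨f s, hf1 s⟩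
        obtain ⟨n, hn⟩ := h2 (fun n => (g^[n] ⟨s₀, hs₀⟩).1) (fun n => hout _ (g^[n] ⟨s₀, hs₀⟩).2)
          (fun n => by
            show JLE (g^[n + 1] ⟨s₀, hs₀⟩).1 (g^[n] ⟨s₀, hs₀⟩).1
            rw [Function.iterate_succ_apply']
            exact hf2 _)
        change JLE (g^[n] ⟨s₀, hs₀⟩).1 (g^[n + 1] ⟨s₀, hs₀⟩).1 at hn
        rw [Function.iterate_succ_apply'] at hn
        exact hf3 _ hn
      refine ⟨D ∪ {m | JLE m s}, ⟨hlow' s, hID.trans Set.subset_union_left⟩, hss s hs,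
        Or.inr (Or.inr ⟨?_, ?_⟩)⟩
      · intro m hm hmD m' hm' hmD'
        have hm2 : JLE m s := hm.resolve_left hmD
        have hm2' : JLE m' s := hm'.resolve_left hmD'
        by_contra hmm
        have hsm : JLE s (m * m') := hmin _ hmm ((JLE.mul_left_self _ _).trans hm2)
        obtain ⟨g, hg, hgm, hmg⟩ := h3 m m' (hout m hmD) (hout m' hmD') (hm2.trans hsm)
          (hm2'.trans hsm)
        refine hreg ⟨g, hg, fun hgD => hmD (hDlow _ _ hmg hgD), fun t ht htg => ?_⟩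
        exact hgm.trans (hm2.trans (hmin t ht (htg.trans (hgm.trans hm2))))
      · intro t ht htD
        by_cases hk : ∃ k, ¬ JLE e (t ^ k)
        · obtain ⟨k, hk⟩ := hk
          exact ⟨k, Or.inl hk⟩
        · push Not at hk
          obtain ⟨n, hn⟩ := h2 (fun n => t ^ (2 ^ n)) (fun n => hk _) (fun n => by
            show JLE (t ^ (2 ^ (n + 1))) (t ^ (2 ^ n))
            rw [pow_succ 2 n, mul_two, pow_add]
            exact JLE.mul_left_self _ _)
          change JLE (t ^ (2 ^ n)) (t ^ (2 ^ (n + 1))) at hn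
          rw [pow_succ 2 n, mul_two, pow_add] at hn
          obtain ⟨k, hk1⟩ : ∃ k, 2 ^ n = k + 1 := ⟨2 ^ n - 1, by
            have : 0 < 2 ^ n := by positivity
            omega⟩
          rw [hk1] at hn
          obtain ⟨g, hg, hga, hag⟩ := h3 _ _ (hk (k + 1)) (hk (k + 1)) hn hn
          exact ⟨k, Or.inr (inGrp_of_fit hM hg hga hag hn)⟩

/-- A chain consisting of `M` alone. -/
theorem chain_top {e : M} {R : Set M → Prop}
    (h : (∀ m : M, RFin e m) ∨ (∀ m : M, LFin e m) ∨ R Set.univ) : Chain e R := by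
  refine ⟨{Set.univ}, ?_, ⟨Set.univ, rfl, Set.subset_univ _, Or.inr ?_⟩, ?_, ?_⟩
  · rintro D rfl; exact isLow_univ
  · rcases h with h | h | h
    · exact Or.inl fun m _ => h m
    · exact Or.inr (Or.inl fun m _ => h m)
    · exact Or.inr (Or.inr h)
  · rintro c hc - ⟨D, hD⟩
    have : D = Set.univ := hc hD
    rw [Set.mem_singleton_iff, Set.eq_univ_iff_forall]
    exact fun x => ⟨D, hD, by rw [this]; trivial⟩
  · rintro D rfl h; exact absurd rfl h

theorem chain_of_finR {e : M} (h : FinR e) (R : Set M → Prop) : Chain e R := by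
  refine chain_top (Or.inl fun m => ?_)
  obtain ⟨X, hX⟩ := h
  exact ⟨X, fun u hu hmu => hX (m * u) ((JLE.mul_right_self _ _).trans hu) hmu⟩

theorem chain_of_finL {e : M} (h : FinL e) (R : Set M → Prop) : Chain e R := by
  refine chain_top (Or.inr (Or.inl fun m => ?_))
  obtain ⟨X, hX⟩ := h
  exact ⟨X, fun u hu hmu => hX (u * m) ((JLE.mul_left_self _ _).trans hu) hmu⟩

/-- No element of the `J`-class of `e` is a product of two elements strictly above `e`. -/
def Irred (e : M) : Prop := ∀ a b : M, JLE e a → ¬ JLE a e → JLE e b → ¬ JLE b e →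
  JLE e (a * b) → ¬ JLE (a * b) e

theorem chain_of_irred {e : M} (h : Irred e) (R : Set M → Prop) : Chain e R := by
  classical
  obtain ⟨I', hI'⟩ : ∃ I' : Set M, I' = {m : M | JLE e m → JLE m e} := ⟨_, rfl⟩
  refine ⟨{I', Set.univ}, ?_, ⟨I', Or.inl rfl, by rw [hI'], Or.inl hI'⟩, ?_, ?_⟩
  · rintro D (rfl | rfl)
    · rw [hI']; exact isLow_layer e
    · exact isLow_univ
  · intro c hc _ hne
    by_cases hu : Set.univ ∈ c
    · right
      rw [Set.mem_singleton_iff, Set.eq_univ_iff_forall]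
      exact fun x => ⟨_, hu, trivial⟩
    · left
      have h1 : ∀ D ∈ c, D = I' := fun D hD => (hc hD).resolve_right
        (fun h' => hu ((Set.mem_singleton_iff.1 h') ▸ hD))
      obtain ⟨D, hD⟩ := hne
      ext x
      constructor
      · rintro ⟨D', hD', hx⟩; rw [h1 D' hD'] at hx; exact hx
      · intro hx; exact ⟨D, hD, by rw [h1 D hD]; exact hx⟩
  · rintro D (hD | hD) hDu
    · refine ⟨Set.univ, Or.inr rfl, ⟨Set.subset_univ _, fun h' =>
        hDu (Set.eq_univ_of_univ_subset h')⟩, Or.inl ?_⟩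
      intro a _ ha b _ hb hab hem
      rw [hD, hI', Set.mem_ofPred_eq, Classical.not_imp] at ha hb
      rw [hD, hI', Set.mem_ofPred_eq] at hab
      exact h a b ha.1 ha.2 hb.1 hb.2 hem (hab hem)
    · exact absurd hD hDu

end Pool.Agent.H.MP_a22eb7_al.Lay
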