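import Pool.Agent.H.MP_a22eb7_al.helper44.FinBase

set_option autoImplicit false
set_option linter.unusedSectionVars false

namespace Pool.Agent.H.MP_a22eb7_al.Lay

open MonoidAlgebra

universe u w v

variable {M : Type u} [Monoid M] {K : Type w} [Ring K]

/-- `m` is of finite rank at `e` on the left: the elements `m u` with `u` in the `J`-class of `e`
which are again above `e` lie in finitely many `R`-classes. -/
def RFin (e m : M) : Prop := ∃ X : Finset M, ∀ u, JLE u e → JLE e (m * u) →
  ∃ x ∈ X, (∃ p, m * u = x * p) ∧ ∃ q, x = m * u * q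

/-- `m` is of finite rank at `e` on the right. -/
def LFin (e m : M) : Prop := ∃ X : Finset M, ∀ u, JLE u e → JLE e (u * m) →
  ∃ x ∈ X, (∃ p, u * m = p * x) ∧ ∃ q, x = q * (u * m)

theorem claim_RFin (hM : Tame M) {e : M} {G : Type u} [Group G] (L : LocalGroup M e G)
    (hK : SF (MonoidAlgebra K G))
    {Q : Type v} [Ring Q] (π : MonoidAlgebra K M →+* Q) (hπ : Function.Surjective π)
    (hker : ∀ x, π x = 0 ↔ ∀ m, JLE e m → x.coeff m = 0) {D : Set M} (hD : IsLow D)
    (hDfin : ∀ m ∈ D, RFin e m) :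
    Claim (idl π hπ {m : M | JLE e m → JLE m e} (isLow_layer e)) (idl π hπ D hD) := by
  classical
  have he := L.idem
  intro ι _ _ x Y hx hxY hYx
  obtain ⟨z, hz⟩ : ∃ z, z = Y - 1 := ⟨_, rfl⟩
  have hYz : Y = 1 + z := by rw [hz]; abel
  have hzD : z ∈ (idl π hπ D hD).matrix ι := by
    rw [hYz] at hxY
    have : z = - (x * (1 + z)) := by
      have h1 : (1 + x) * (1 + z) = 1 + z + x * (1 + z) := by noncomm_ring
      rw [h1] at hxY
      calc z = (1 + z + x * (1 + z)) - 1 - x * (1 + z) := by abel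
        _ = - (x * (1 + z)) := by rw [hxY]; abel
    rw [this]
    exact TwoSidedIdeal.neg_mem _ (TwoSidedIdeal.mul_mem_right _ _ _ hx)
  rw [TwoSidedIdeal.mem_matrix] at hx hzD hYx
  choose xt hxt1 hxt2 using fun i j => (mem_idl π hπ).1 (hx i j)
  choose zt hzt1 hzt2 using fun i j => (mem_idl π hπ).1 (hzD i j)
  obtain ⟨F, hF⟩ : ∃ F : Finset M, ∀ m, m ∈ F ↔ ∃ i j, (xt i j).coeff m ≠ 0 ∨
      (zt i j).coeff m ≠ 0 := by
    refine ⟨Finset.univ.biUnion fun i => Finset.univ.biUnion fun j =>
      (xt i j).coeff.support ∪ (zt i j).coeff.support, ?_⟩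
    intro m
    simp only [Finset.mem_biUnion, Finset.mem_univ, true_and, Finset.mem_union,
      Finsupp.mem_support_iff]
  have hFD : ∀ m ∈ F, m ∈ D := by
    intro m hm
    obtain ⟨i, j, h | h⟩ := (hF m).1 hm
    · by_contra hmD; exact h (hxt1 i j m hmD)
    · by_contra hmD; exact h (hzt1 i j m hmD)
  have hxF : ∀ i j, SupIn (F : Set M) (xt i j) := fun i j m hm => by
    by_contra h
    exact hm ((hF m).2 ⟨i, j, Or.inl h⟩)
  have hzF : ∀ i j, SupIn (F : Set M) (zt i j) := fun i j m hm => by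
    by_contra h
    exact hm ((hF m).2 ⟨i, j, Or.inr h⟩)
  choose X hX using fun (m : F) => hDfin m.1 (hFD m.1 m.2)
  obtain ⟨n, u, hu1, hu2, hu3, huniq⟩ := transR hM L
    (fun a => ∃ m ∈ F, ∃ u', u' * e = u' ∧ a = m * u') ⟨Finset.univ.biUnion X, by
      rintro a ha hea ⟨m, hm, u', hu', rfl⟩
      obtain ⟨y, hy, h1, h2⟩ := hX ⟨m, hm⟩ u' ⟨u', 1, by rw [mul_one, hu']⟩ hea
      exact ⟨y, Finset.mem_biUnion.2 ⟨⟨m, hm⟩, Finset.mem_univ _, hy⟩, h1, h2⟩⟩
  -- the action
  let P : Fin n → Q := fun k => π (MonoidAlgebra.single (u k) 1)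
  let Act : Q → Prop := fun q => ∀ k, ∃ s : Fin n → MonoidAlgebra K G,
    q * P k = ∑ l, P l * grp π L (s l)
  have hP1 : ∀ k, P k * grp π L 1 = P k := by
    intro k
    show π _ * _ = π _
    rw [grp_one, ← map_mul, single_mul_single, hu1, one_mul]
  have act_zero : Act 0 := fun k => ⟨0, by simp⟩
  have act_add : ∀ q q', Act q → Act q' → Act (q + q') := by
    intro q q' h h' k
    obtain ⟨s, hs⟩ := h k
    obtain ⟨s', hs'⟩ := h' k
    refine ⟨s + s', ?_⟩
    rw [add_mul, hs, hs', ← Finset.sum_add_distrib]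
    refine Finset.sum_congr rfl fun l _ => ?_
    rw [Pi.add_apply, map_add, mul_add]
  have act_one : Act 1 := by
    intro k
    refine ⟨Pi.single k 1, ?_⟩
    rw [one_mul, Finset.sum_eq_single k]
    · rw [Pi.single_eq_same, hP1]
    · intro l' _ hl'
      rw [Pi.single_eq_of_ne hl', map_zero, mul_zero]
    · intro h; exact absurd (Finset.mem_univ k) h
  have hzeroπ : ∀ (m : M) (c : K), ¬ JLE e m → π (MonoidAlgebra.single m c) = 0 := by
    intro m c hm
    rw [hker]
    intro m' hm'
    rw [coeff_single, Finsupp.single_apply, if_neg]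
    rintro rfl
    exact hm hm'
  have act_F : ∀ y : MonoidAlgebra K M, SupIn (F : Set M) y → Act (π y) := by
    intro y hy
    refine hy.induction (P := fun y => Act (π y)) (by rw [map_zero]; exact act_zero)
      (fun y y' h h' => by rw [map_add]; exact act_add _ _ h h') ?_
    intro m hm c k
    show ∃ s : Fin n → MonoidAlgebra K G, π _ * π _ = _
    rw [← map_mul, single_mul_single, mul_one]
    by_cases hmu : JLE e (m * u k)
    · obtain ⟨l, g, hlg⟩ := hu3 (m * u k) (by rw [mul_assoc, hu1]) hmu ⟨m, hm, u k, hu1 k, rfl⟩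
      refine ⟨Pi.single l (MonoidAlgebra.single g c), ?_⟩
      rw [Finset.sum_eq_single l]
      · rw [Pi.single_eq_same, grp_single]
        show _ = π _ * π _
        rw [← map_mul, single_mul_single, one_mul, hlg]
      · intro l' _ hl'
        rw [Pi.single_eq_of_ne hl', map_zero, mul_zero]
      · intro h; exact absurd (Finset.mem_univ l) h
    · exact ⟨0, by rw [hzeroπ _ _ hmu]; simp⟩
  have act_delta : ∀ (i j : ι), Act ((1 : Matrix ι ι Q) i j) := by
    intro i j
    rw [Matrix.one_apply]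
    split_ifs
    · exact act_one
    · exact act_zero
  refine finR_core hK P hP1 ?_ hxY ?_ ?_ ?_
  · intro s hs l
    ext g
    have h1 : π (∑ l, MonoidAlgebra.single (u l) 1 * mapDomain L.emb (s l)) = 0 := by
      rw [map_sum, ← hs]
      refine Finset.sum_congr rfl fun l _ => ?_
      rw [map_mul, grp_apply]
    have h2 : JLE e (u l * L.emb g) := by
      obtain ⟨p, hp⟩ := exists_left_inv hM he (hu1 l) (hu2 l)
      refine ⟨p, L.emb g⁻¹, ?_⟩
      rw [← mul_assoc, hp, L.e_mul_emb, ← L.emb_mul, mul_inv_cancel, L.emb_one]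
    have h3 := (hker _).1 h1 _ h2
    rw [coeff_sum, Finsupp.finsetSum_apply] at h3
    simp only [coeff_left L huniq] at h3
    rw [Finset.sum_ite_eq' Finset.univ l, if_pos (Finset.mem_univ l)] at h3
    rw [h3]; rfl
  · intro i j
    rw [Matrix.add_apply, ← hxt2 i j]
    exact act_add _ _ (act_delta i j) (act_F _ (hxF i j))
  · intro i j
    rw [hYz, Matrix.add_apply, ← hzt2 i j]
    exact act_add _ _ (act_delta i j) (act_F _ (hzF i j))
  · intro i j
    obtain ⟨g, hg⟩ : ∃ g : MonoidAlgebra K M, g = (Matrix.of zt + Matrix.of xt +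
      Matrix.of zt * Matrix.of xt) i j := ⟨_, rfl⟩
    have hπg : (Y * (1 + x) - 1) i j = π g := by
      have e1 : π.mapMatrix (Matrix.of xt) = x := by ext i j; exact hxt2 i j
      have e2 : π.mapMatrix (Matrix.of zt) = z := by ext i j; exact hzt2 i j
      have e3 : Y * (1 + x) - 1 = z + x + z * x := by rw [hYz]; noncomm_ring
      rw [e3, hg, ← e1, ← e2, ← map_mul, ← map_add, ← map_add]
      rfl
    have hgF : SupIn {m | ∃ m₁ ∈ F, ∃ r, m = m₁ * r} g := by
      have hin : ∀ y : MonoidAlgebra K M, SupIn (F : Set M) y →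
          SupIn {m | ∃ m₁ ∈ F, ∃ r, m = m₁ * r} y := fun y hy =>
        hy.mono fun m hm => (⟨m, hm, 1, (mul_one m).symm⟩ : ∃ m₁ ∈ F, ∃ r, m = m₁ * r)
      have hin2 : ∀ y y' : MonoidAlgebra K M, SupIn (F : Set M) y →
          SupIn {m | ∃ m₁ ∈ F, ∃ r, m = m₁ * r} (y * y') := by
        intro y y' hy
        refine hy.induction (P := fun y => SupIn {m | ∃ m₁ ∈ F, ∃ r, m = m₁ * r} (y * y'))
          ?_ ?_ ?_
        · rw [zero_mul]; exact SupIn.zero _
        · intro a b h h'; rw [add_mul]; exact h.add h'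
        · intro m hm c
          refine MonoidAlgebra.induction_linear y' ?_ ?_ ?_
          · rw [mul_zero]; exact SupIn.zero _
          · intro a b h h'; rw [mul_add]; exact h.add h'
          · intro m' c'
            rw [single_mul_single]
            exact SupIn.single (show m * m' ∈ {m | ∃ m₁ ∈ F, ∃ r, m = m₁ * r} from
              ⟨m, hm, m', rfl⟩) _
      rw [hg, Matrix.add_apply, Matrix.add_apply, Matrix.mul_apply]
      refine ((hin _ (hzF i j)).add (hin _ (hxF i j))).add (SupIn.sum _ _ fun k _ => ?_)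
      exact hin2 _ _ (hzF i k)
    have hgI : SupIn ({m | JLE e m → JLE m e} ∩ {m | ∃ m₁ ∈ F, ∃ r, m = m₁ * r}) g := by
      intro m hm
      by_cases h1 : m ∈ {m | ∃ m₁ ∈ F, ∃ r, m = m₁ * r}
      · have h2 : m ∉ {m | JLE e m → JLE m e} := fun h => hm ⟨h, h1⟩
        obtain ⟨y, hy, hyq⟩ := (mem_idl π hπ).1 (hYx i j)
        have h4 : π (g - y) = 0 := by rw [map_sub, hyq, hπg, sub_self]
        have hem : JLE e m := by
          by_contra h
          exact h2 fun h' => absurd h' h
        have h5 := (hker _).1 h4 m hem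
        rw [coeff_sub, Finsupp.sub_apply, hy m h2, sub_zero] at h5
        exact h5
      · exact hgF m h1
    rw [hπg]
    refine hgI.induction (P := fun g => ∃ D : Fin n → Q, π g = ∑ l, P l * D l) ?_ ?_ ?_
    · exact ⟨0, by simp⟩
    · rintro a b ⟨D₁, hD₁⟩ ⟨D₂, hD₂⟩
      refine ⟨D₁ + D₂, ?_⟩
      rw [map_add, hD₁, hD₂, ← Finset.sum_add_distrib]
      refine Finset.sum_congr rfl fun l _ => ?_
      rw [Pi.add_apply, mul_add]
    · rintro m ⟨hm, m₁, hm₁, r, hmr⟩ c
      by_cases hem : JLE e m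
      · obtain ⟨a', b', hab⟩ := hm hem
        have h1 : JLE e (a' * e) := hem.trans ⟨1, b', by rw [hab, one_mul]⟩
        have h2 : JLE e (e * b') := hem.trans ⟨a', 1, by rw [hab, mul_one, mul_assoc]⟩
        obtain ⟨p, hp⟩ := exists_right_inv hM he (u := e * b') (by rw [← mul_assoc, he]) h2
        have h3 : a' * e = m₁ * (r * p * e) := by
          calc a' * e = a' * (e * b' * p) * e := by rw [hp, mul_assoc, he]
            _ = (a' * e * b') * p * e := by simp only [mul_assoc]
            _ = m₁ * (r * p * e) := by rw [← hab, hmr]; simp only [mul_assoc]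
        obtain ⟨k, g', hkg⟩ := hu3 (a' * e) (by rw [mul_assoc, he]) h1
          ⟨m₁, hm₁, r * p * e, by rw [mul_assoc, he], h3⟩
        refine ⟨Pi.single k (π (MonoidAlgebra.single (L.emb g' * b') c)), ?_⟩
        rw [Finset.sum_eq_single k]
        · rw [Pi.single_eq_same]
          show _ = π _ * π _
          rw [← map_mul, single_mul_single, one_mul, ← mul_assoc, ← hkg, ← hab]
        · intro l' _ hl'
          rw [Pi.single_eq_of_ne hl', mul_zero]
        · intro h; exact absurd (Finset.mem_univ k) h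
      · exact ⟨0, by rw [hzeroπ _ _ hem]; simp⟩

theorem claim_LFin (hM : Tame M) {e : M} {G : Type u} [Group G] (L : LocalGroup M e G)
    (hK : SF (MonoidAlgebra K G))
    {Q : Type v} [Ring Q] (π : MonoidAlgebra K M →+* Q) (hπ : Function.Surjective π)
    (hker : ∀ x, π x = 0 ↔ ∀ m, JLE e m → x.coeff m = 0) {D : Set M} (hD : IsLow D)
    (hDfin : ∀ m ∈ D, LFin e m) :
    Claim (idl π hπ {m : M | JLE e m → JLE m e} (isLow_layer e)) (idl π hπ D hD) := by
  classical
  have he := L.idem
  intro ι _ _ x Y hx hxY hYx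
  obtain ⟨z, hz⟩ : ∃ z, z = Y - 1 := ⟨_, rfl⟩
  have hYz : Y = 1 + z := by rw [hz]; abel
  have hzD : z ∈ (idl π hπ D hD).matrix ι := by
    rw [hYz] at hxY
    have : z = - (x * (1 + z)) := by
      have h1 : (1 + x) * (1 + z) = 1 + z + x * (1 + z) := by noncomm_ring
      rw [h1] at hxY
      calc z = (1 + z + x * (1 + z)) - 1 - x * (1 + z) := by abel
        _ = - (x * (1 + z)) := by rw [hxY]; abel
    rw [this]
    exact TwoSidedIdeal.neg_mem _ (TwoSidedIdeal.mul_mem_right _ _ _ hx)
  rw [TwoSidedIdeal.mem_matrix] at hx hzD hYx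
  choose xt hxt1 hxt2 using fun i j => (mem_idl π hπ).1 (hx i j)
  choose zt hzt1 hzt2 using fun i j => (mem_idl π hπ).1 (hzD i j)
  obtain ⟨F, hF⟩ : ∃ F : Finset M, ∀ m, m ∈ F ↔ ∃ i j, (xt i j).coeff m ≠ 0 ∨
      (zt i j).coeff m ≠ 0 := by
    refine ⟨Finset.univ.biUnion fun i => Finset.univ.biUnion fun j =>
      (xt i j).coeff.support ∪ (zt i j).coeff.support, ?_⟩
    intro m
    simp only [Finset.mem_biUnion, Finset.mem_univ, true_and, Finset.mem_union,
      Finsupp.mem_support_iff]
  have hFD : ∀ m ∈ F, m ∈ D := by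
    intro m hm
    obtain ⟨i, j, h | h⟩ := (hF m).1 hm
    · by_contra hmD; exact h (hxt1 i j m hmD)
    · by_contra hmD; exact h (hzt1 i j m hmD)
  have hxF : ∀ i j, SupIn (F : Set M) (xt i j) := fun i j m hm => by
    by_contra h
    exact hm ((hF m).2 ⟨i, j, Or.inl h⟩)
  have hzF : ∀ i j, SupIn (F : Set M) (zt i j) := fun i j m hm => by
    by_contra h
    exact hm ((hF m).2 ⟨i, j, Or.inr h⟩)
  choose X hX using fun (m : F) => hDfin m.1 (hFD m.1 m.2)
  obtain ⟨n, u, hu1, hu2, hu3, huniq⟩ := transL hM L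
    (fun a => ∃ m ∈ F, ∃ u', e * u' = u' ∧ a = u' * m) ⟨Finset.univ.biUnion X, by
      rintro a ha hea ⟨m, hm, u', hu', rfl⟩
      obtain ⟨y, hy, h1, h2⟩ := hX ⟨m, hm⟩ u' ⟨1, u', by rw [one_mul, hu']⟩ hea
      exact ⟨y, Finset.mem_biUnion.2 ⟨⟨m, hm⟩, Finset.mem_univ _, hy⟩, h1, h2⟩⟩
  -- the action
  let P : Fin n → Q := fun k => π (MonoidAlgebra.single (u k) 1)
  let Act : Q → Prop := fun q => ∀ k, ∃ s : Fin n → MonoidAlgebra K G,
    P k * q = ∑ l, grp π L (s l) * P l
  have hP1 : ∀ k, grp π L 1 * P k = P k := by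
    intro k
    show _ * π _ = π _
    rw [grp_one, ← map_mul, single_mul_single, hu1, one_mul]
  have act_zero : Act 0 := fun k => ⟨0, by simp⟩
  have act_add : ∀ q q', Act q → Act q' → Act (q + q') := by
    intro q q' h h' k
    obtain ⟨s, hs⟩ := h k
    obtain ⟨s', hs'⟩ := h' k
    refine ⟨s + s', ?_⟩
    rw [mul_add, hs, hs', ← Finset.sum_add_distrib]
    refine Finset.sum_congr rfl fun l _ => ?_
    rw [Pi.add_apply, map_add, add_mul]
  have act_one : Act 1 := by
    intro k
    refine ⟨Pi.single k 1, ?_⟩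
    rw [mul_one, Finset.sum_eq_single k]
    · rw [Pi.single_eq_same, hP1]
    · intro l' _ hl'
      rw [Pi.single_eq_of_ne hl', map_zero, zero_mul]
    · intro h; exact absurd (Finset.mem_univ k) h
  have hzeroπ : ∀ (m : M) (c : K), ¬ JLE e m → π (MonoidAlgebra.single m c) = 0 := by
    intro m c hm
    rw [hker]
    intro m' hm'
    rw [coeff_single, Finsupp.single_apply, if_neg]
    rintro rfl
    exact hm hm'
  have act_F : ∀ y : MonoidAlgebra K M, SupIn (F : Set M) y → Act (π y) := by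
    intro y hy
    refine hy.induction (P := fun y => Act (π y)) (by rw [map_zero]; exact act_zero)
      (fun y y' h h' => by rw [map_add]; exact act_add _ _ h h') ?_
    intro m hm c k
    show ∃ s : Fin n → MonoidAlgebra K G, π _ * π _ = _
    rw [← map_mul, single_mul_single, one_mul]
    by_cases hmu : JLE e (u k * m)
    · obtain ⟨l, g, hlg⟩ := hu3 (u k * m) (by rw [← mul_assoc, hu1]) hmu ⟨m, hm, u k, hu1 k, rfl⟩
      refine ⟨Pi.single l (MonoidAlgebra.single g c), ?_⟩
      rw [Finset.sum_eq_single l]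
      · rw [Pi.single_eq_same, grp_single]
        show _ = π _ * π _
        rw [← map_mul, single_mul_single, mul_one, hlg]
      · intro l' _ hl'
        rw [Pi.single_eq_of_ne hl', map_zero, zero_mul]
      · intro h; exact absurd (Finset.mem_univ l) h
    · exact ⟨0, by rw [hzeroπ _ _ hmu]; simp⟩
  have act_delta : ∀ (i j : ι), Act ((1 : Matrix ι ι Q) i j) := by
    intro i j
    rw [Matrix.one_apply]
    split_ifs
    · exact act_one
    · exact act_zero
  refine finL_core hK P hP1 ?_ hxY ?_ ?_ ?_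
  · intro s hs l
    ext g
    have h1 : π (∑ l, mapDomain L.emb (s l) * MonoidAlgebra.single (u l) 1) = 0 := by
      rw [map_sum, ← hs]
      refine Finset.sum_congr rfl fun l _ => ?_
      rw [map_mul, grp_apply]
    have h2 : JLE e (L.emb g * u l) := by
      obtain ⟨p, hp⟩ := exists_right_inv hM he (hu1 l) (hu2 l)
      refine ⟨L.emb g⁻¹, p, ?_⟩
      have h5 : L.emb g⁻¹ * (L.emb g * u l) * p = L.emb g⁻¹ * L.emb g * (u l * p) := by
        simp only [mul_assoc]
      rw [h5, hp, ← L.emb_mul, inv_mul_cancel, L.emb_one, he]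
    have h3 := (hker _).1 h1 _ h2
    rw [coeff_sum, Finsupp.finsetSum_apply] at h3
    simp only [coeff_right L huniq] at h3
    rw [Finset.sum_ite_eq' Finset.univ l, if_pos (Finset.mem_univ l)] at h3
    rw [h3]; rfl
  · intro i j
    rw [Matrix.add_apply, ← hxt2 i j]
    exact act_add _ _ (act_delta i j) (act_F _ (hxF i j))
  · intro i j
    rw [hYz, Matrix.add_apply, ← hzt2 i j]
    exact act_add _ _ (act_delta i j) (act_F _ (hzF i j))
  · intro i j
    obtain ⟨g, hg⟩ : ∃ g : MonoidAlgebra K M, g = (Matrix.of zt + Matrix.of xt +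
      Matrix.of zt * Matrix.of xt) i j := ⟨_, rfl⟩
    have hπg : (Y * (1 + x) - 1) i j = π g := by
      have e1 : π.mapMatrix (Matrix.of xt) = x := by ext i j; exact hxt2 i j
      have e2 : π.mapMatrix (Matrix.of zt) = z := by ext i j; exact hzt2 i j
      have e3 : Y * (1 + x) - 1 = z + x + z * x := by rw [hYz]; noncomm_ring
      rw [e3, hg, ← e1, ← e2, ← map_mul, ← map_add, ← map_add]
      rfl
    have hgF : SupIn {m | ∃ m₁ ∈ F, ∃ r, m = r * m₁} g := by
      have hin : ∀ y : MonoidAlgebra K M, SupIn (F : Set M) y →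
          SupIn {m | ∃ m₁ ∈ F, ∃ r, m = r * m₁} y := fun y hy =>
        hy.mono fun m hm => (⟨m, hm, 1, (one_mul m).symm⟩ : ∃ m₁ ∈ F, ∃ r, m = r * m₁)
      have hin2 : ∀ y y' : MonoidAlgebra K M, SupIn (F : Set M) y →
          SupIn {m | ∃ m₁ ∈ F, ∃ r, m = r * m₁} (y' * y) := by
        intro y y' hy
        refine hy.induction (P := fun y => SupIn {m | ∃ m₁ ∈ F, ∃ r, m = r * m₁} (y' * y))
          ?_ ?_ ?_
        · rw [mul_zero]; exact SupIn.zero _
        · intro a b h h'; rw [mul_add]; exact h.add h'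
        · intro m hm c
          refine MonoidAlgebra.induction_linear y' ?_ ?_ ?_
          · rw [zero_mul]; exact SupIn.zero _
          · intro a b h h'; rw [add_mul]; exact h.add h'
          · intro m' c'
            rw [single_mul_single]
            exact SupIn.single (show m' * m ∈ {m | ∃ m₁ ∈ F, ∃ r, m = r * m₁} from
              ⟨m, hm, m', rfl⟩) _
      rw [hg, Matrix.add_apply, Matrix.add_apply, Matrix.mul_apply]
      refine ((hin _ (hzF i j)).add (hin _ (hxF i j))).add (SupIn.sum _ _ fun k _ => ?_)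
      exact hin2 _ _ (hxF k j)
    have hgI : SupIn ({m | JLE e m → JLE m e} ∩ {m | ∃ m₁ ∈ F, ∃ r, m = r * m₁}) g := by
      intro m hm
      by_cases h1 : m ∈ {m | ∃ m₁ ∈ F, ∃ r, m = r * m₁}
      · have h2 : m ∉ {m | JLE e m → JLE m e} := fun h => hm ⟨h, h1⟩
        obtain ⟨y, hy, hyq⟩ := (mem_idl π hπ).1 (hYx i j)
        have h4 : π (g - y) = 0 := by rw [map_sub, hyq, hπg, sub_self]
        have hem : JLE e m := by
          by_contra h
          exact h2 fun h' => absurd h' h
        have h5 := (hker _).1 h4 m hem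
        rw [coeff_sub, Finsupp.sub_apply, hy m h2, sub_zero] at h5
        exact h5
      · exact hgF m h1
    rw [hπg]
    refine hgI.induction (P := fun g => ∃ D : Fin n → Q, π g = ∑ l, D l * P l) ?_ ?_ ?_
    · exact ⟨0, by simp⟩
    · rintro a b ⟨D₁, hD₁⟩ ⟨D₂, hD₂⟩
      refine ⟨D₁ + D₂, ?_⟩
      rw [map_add, hD₁, hD₂, ← Finset.sum_add_distrib]
      refine Finset.sum_congr rfl fun l _ => ?_
      rw [Pi.add_apply, add_mul]
    · rintro m ⟨hm, m₁, hm₁, r, hmr⟩ c
      by_cases hem : JLE e m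
      · obtain ⟨a', b', hab⟩ := hm hem
        have h1 : JLE e (e * b') := hem.trans ⟨a', 1, by rw [hab, mul_one, mul_assoc]⟩
        have h2 : JLE e (a' * e) := hem.trans ⟨1, b', by rw [hab, one_mul]⟩
        obtain ⟨p, hp⟩ := exists_left_inv hM he (u := a' * e) (by rw [mul_assoc, he]) h2
        have h3 : e * b' = (e * p * r) * m₁ := by
          calc e * b' = e * (p * (a' * e)) * b' := by rw [hp, he]
            _ = e * p * (a' * e * b') := by simp only [mul_assoc]
            _ = (e * p * r) * m₁ := by rw [← hab, hmr]; simp only [mul_assoc]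
        obtain ⟨k, g', hkg⟩ := hu3 (e * b') (by rw [← mul_assoc, he]) h1
          ⟨m₁, hm₁, e * p * r, by rw [← mul_assoc, ← mul_assoc, he], h3⟩
        refine ⟨Pi.single k (π (MonoidAlgebra.single (a' * L.emb g') c)), ?_⟩
        rw [Finset.sum_eq_single k]
        · rw [Pi.single_eq_same]
          show _ = π _ * π _
          rw [← map_mul, single_mul_single, mul_one, mul_assoc, ← hkg, hab, mul_assoc]
        · intro l' _ hl'
          rw [Pi.single_eq_of_ne hl', zero_mul]
        · intro h; exact absurd (Finset.mem_univ k) h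
      · exact ⟨0, by rw [hzeroπ _ _ hem]; simp⟩

end Pool.Agent.H.MP_a22eb7_al.Lay
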