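import Pool.Agent.H.MP_a22eb7_al.helper44.Access

set_option autoImplicit false
set_option linter.unusedSectionVars false

namespace Pool.Agent.H.MP_a22eb7_al.Lay

open MonoidAlgebra

universe u w v

section Semilattice

variable {M : Type u} [Monoid M] {K : Type w} [Ring K]
variable {Y : Type v} [SemilatticeInf Y] (c : M → Y) (hc : ∀ a b, c (a * b) = c a ⊓ c b)

/-- A layer of a semilattice decomposition, together with the identity. -/
def layer (y : Y) : Submonoid M where
  carrier := {m | m = 1 ∨ c m = y}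
  one_mem' := Or.inl rfl
  mul_mem' := by
    rintro a b (rfl | ha) (rfl | hb)
    · left; rw [one_mul]
    · right; rw [one_mul]; exact hb
    · right; rw [mul_one]; exact ha
    · right; rw [hc, ha, hb, inf_idem]

include hc in
theorem c_mono {a b : M} (h : JLE a b) : c a ≤ c b := by
  obtain ⟨p, q, rfl⟩ := h
  rw [hc, hc]
  exact inf_le_left.trans inf_le_right

include hc in
theorem goodAt_of_finite_semilattice (hfin : (Set.range c).Finite) {e : M}
    (hg : GoodOn K e {m | c m = c e}) : GoodAt K e := by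
  classical
  obtain ⟨Q, _, π, hπ, hker⟩ := exists_quot_above (K := K) e
  obtain ⟨Y₀, hY₀⟩ : ∃ Y₀ : Finset Y, ∀ y, y ∈ Y₀ ↔ y ∈ Set.range c :=
    ⟨hfin.toFinset, fun y => hfin.mem_toFinset⟩
  have hcY : ∀ m, c m ∈ Y₀ := fun m => (hY₀ _).2 ⟨m, rfl⟩
  obtain ⟨b, hb⟩ : ∃ b, b = idl π hπ {m : M | JLE e m → JLE m e} (isLow_layer e) := ⟨_, rfl⟩
  let P : Finset Y → Prop := fun Z =>
    (∀ y ∈ Y₀, ¬ c e ≤ y ∨ y = c e → y ∈ Z) ∧ ∃ hD : IsLow {m | c m ∈ Z},
      Claim b (idl π hπ {m | c m ∈ Z} hD)
  let Z₁ : Finset Y := Y₀.filter (fun y => ¬ c e ≤ y ∨ y = c e)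
  have hZ₁ : ∀ y, y ∈ Z₁ ↔ y ∈ Y₀ ∧ (¬ c e ≤ y ∨ y = c e) := fun y => Finset.mem_filter
  have hlow₁ : IsLow {m | c m ∈ Z₁} := by
    intro x y hxy hy
    rw [Set.mem_ofPred_eq, hZ₁] at hy ⊢
    refine ⟨hcY x, ?_⟩
    have h1 := c_mono c hc hxy
    by_cases h2 : c e ≤ c x
    · right
      rcases hy.2 with h3 | h3
      · exact absurd (h2.trans h1) h3
      · exact le_antisymm (h1.trans h3.le) h2
    · exact Or.inl h2
  have hP₁ : P Z₁ := by
    refine ⟨fun y hy h => (hZ₁ y).2 ⟨hy, h⟩, hlow₁, ?_⟩
    rw [hb]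
    refine claim_of_goodOn hπ hker ?_ hg
    intro m hm hem
    rw [Set.mem_ofPred_eq, hZ₁] at hm
    exact hm.2.resolve_left (fun h => h (c_mono c hc hem))
  obtain ⟨Z, hZ, hmax⟩ := Finset.exists_max_image (Y₀.powerset.filter P) Finset.card
    ⟨Z₁, Finset.mem_filter.2 ⟨Finset.mem_powerset.2 (Finset.filter_subset _ _), hP₁⟩⟩
  rw [Finset.mem_filter, Finset.mem_powerset] at hZ
  obtain ⟨hZY, hZ1, hlow, hcl⟩ := hZ
  have hZeq : ∀ y ∈ Y₀, y ∈ Z := by
    by_contra hcon
    push Not at hcon
    obtain ⟨y', hy', hy'Z⟩ := hcon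
    obtain ⟨y, hy, hymin⟩ := exists_maximal_of_preorder (Y₀ \ Z)
      ⟨y', Finset.mem_sdiff.2 ⟨hy', hy'Z⟩⟩ (fun x y => y ≤ x) (fun _ _ _ h h' => h'.trans h)
    rw [Finset.mem_sdiff] at hy
    have hlow' : IsLow {m | c m ∈ insert y Z} := by
      intro x x' hxx hx'
      rw [Set.mem_ofPred_eq, Finset.mem_insert] at hx' ⊢
      by_cases hxZ : c x ∈ Z
      · exact Or.inr hxZ
      · left
        have h1 := c_mono c hc hxx
        rcases hx' with h2 | h2
        · exact le_antisymm (h1.trans h2.le)
            (hymin _ (Finset.mem_sdiff.2 ⟨hcY x, hxZ⟩) (h1.trans h2.le))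
        · exact absurd (hlow x x' hxx h2) hxZ
    have hcl' : Claim b (idl π hπ {m | c m ∈ insert y Z} hlow') := by
      refine claim_semi π hπ hker hlow hlow' ?_ b ?_ hcl
      · intro x hx hxZ x' hx' hxZ' hxx
        rw [Set.mem_ofPred_eq] at hx hxZ hx' hxZ' hxx
        rw [Finset.mem_insert] at hx hx'
        rw [hc, hx.resolve_right hxZ, hx'.resolve_right hxZ', inf_idem] at hxx
        exact hy.2 hxx
      · intro q hq
        rw [hb] at hq
        refine idl_induction π hπ hq (TwoSidedIdeal.zero_mem _)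
          (fun x y h h' => TwoSidedIdeal.add_mem _ h h') ?_
        intro m hm k
        by_cases hem : JLE e m
        · rw [mem_idl]
          refine ⟨_, SupIn.single ?_ k, rfl⟩
          rw [Set.mem_ofPred_eq]
          exact hZ1 _ (hcY m) (Or.inr (le_antisymm (c_mono c hc (hm hem)) (c_mono c hc hem)))
        · have : π (MonoidAlgebra.single m k) = 0 := by
            rw [hker]
            intro m' hm'
            rw [coeff_single, Finsupp.single_apply, if_neg]
            rintro rfl
            exact hem hm'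
          rw [this]; exact TwoSidedIdeal.zero_mem _
    have h1 := hmax (insert y Z) (Finset.mem_filter.2 ⟨Finset.mem_powerset.2
      (Finset.insert_subset hy.1 hZY), fun z hz h => Finset.mem_insert_of_mem (hZ1 z hz h),
      hlow', hcl'⟩)
    rw [Finset.card_insert_of_notMem hy.2] at h1
    omega
  rw [hb] at hcl
  have hres := goodOn_of_claim hπ hker hcl
  exact hres.mono (fun m _ => hZeq _ (hcY m))

include hc in
theorem jle_down1 {T : Submonoid M} (e : T) (hT : ∀ m, c m = c (e : M) → m ∈ T) (he : e * e = e)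
    (m : T) (h : JLE (e : M) (m : M)) : JLE e m := by
  obtain ⟨p, q, hpq⟩ := h
  have he' : (e : M) * e = e := congrArg Subtype.val he
  have h1 : c (e : M) ≤ c p := by
    have := congrArg c hpq
    rw [hc, hc] at this
    rw [this]; exact inf_le_left.trans inf_le_left
  have h2 : c (e : M) ≤ c q := by
    have := congrArg c hpq
    rw [hc, hc] at this
    rw [this]; exact inf_le_right
  refine ⟨⟨(e : M) * p, hT _ (by rw [hc, inf_eq_left]; exact h1)⟩,
    ⟨q * (e : M), hT _ (by rw [hc, inf_eq_right]; exact h2)⟩, ?_⟩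
  apply Subtype.ext
  show (e : M) = (e : M) * p * m * (q * e)
  calc (e : M) = e * (p * m * q) * e := by rw [← hpq, he', he']
    _ = (e : M) * p * m * (q * e) := by simp only [mul_assoc]

include hc in
theorem jle_down2 {T : Submonoid M} (e : T) (hT : ∀ m, c m = c (e : M) → m ∈ T) (he : e * e = e)
    (m : T) (hm : c (m : M) = c (e : M)) (h : JLE (m : M) (e : M)) : JLE m e := by
  obtain ⟨p, q, hpq⟩ := h
  have he' : (e : M) * e = e := congrArg Subtype.val he
  have h1 : c (e : M) ≤ c p := by
    have := congrArg c hpq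
    rw [hc, hc, hm] at this
    rw [this]; exact inf_le_left.trans inf_le_left
  have h2 : c (e : M) ≤ c q := by
    have := congrArg c hpq
    rw [hc, hc, hm] at this
    rw [this]; exact inf_le_right
  refine ⟨⟨p * (e : M), hT _ (by rw [hc, inf_eq_right]; exact h1)⟩,
    ⟨(e : M) * q, hT _ (by rw [hc, inf_eq_left]; exact h2)⟩, ?_⟩
  apply Subtype.ext
  show (m : M) = p * e * e * (e * q)
  calc (m : M) = p * (e * e * e) * q := by rw [he', he']; exact hpq
    _ = p * e * e * (e * q) := by simp only [mul_assoc]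

theorem good_of_semilattice (hM : Tame M) (h : ∀ y, Good K (layer c hc y)) : Good K M := by
  classical
  intro e he
  let Z : Finset M → Set Y := fun F => infClosure (insert (c 1) (c '' F))
  have hZfin : ∀ F, (Z F).Finite := fun F =>
    ((F.finite_toSet.image c).insert (c 1)).infClosure
  let N : Finset M → Submonoid M := fun F => {
    carrier := {m | c m ∈ Z F}
    one_mem' := subset_infClosure (Set.mem_insert _ _)
    mul_mem' := by
      intro a b ha hb
      show c (a * b) ∈ Z F
      rw [hc]
      exact infClosed_infClosure ha hb }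
  refine goodAt_of_local hM N ?_ ?_
  · intro F m hm
    exact subset_infClosure (Set.mem_insert_of_mem _ ⟨m, hm, rfl⟩)
  · intro F e' he'
    have hcN : ∀ a b : N F, c ((a * b : N F) : M) = c (a : M) ⊓ c (b : M) := fun a b => hc _ _
    refine goodAt_of_finite_semilattice (fun n : N F => c (n : M)) hcN ?_ ?_
    · refine (hZfin F).subset ?_
      rintro _ ⟨n, rfl⟩
      exact n.2
    · have hTN : ∀ m, c m = c (e' : M) → m ∈ N F := by
        intro m hm
        show c m ∈ Z F
        rw [hm]; exact e'.2
      refine goodOn_down (S := {n : N F | c (n : M) = c (e' : M)}) ?_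
        (fun m _ hem => jle_down1 c hc e' hTN he' m hem)
        (fun m hm _ hme => jle_down2 c hc e' hTN he' m hm hme) ?_
      · intro a ha b hb
        rw [Set.mem_ofPred_eq] at ha hb ⊢
        rw [hcN, ha, hb, inf_idem]
      · have himg : (fun t : N F => (t : M)) '' {n : N F | c (n : M) = c (e' : M)} =
            {m | c m = c (e' : M)} := by
          ext m
          constructor
          · rintro ⟨n, hn, rfl⟩; exact hn
          · intro hm; exact ⟨⟨m, hTN m hm⟩, hm, rfl⟩
        rw [himg]
        let T := layer c hc (c (e' : M))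
        let e'' : T := ⟨(e' : M), Or.inr rfl⟩
        have heM : (e' : M) * (e' : M) = (e' : M) := congrArg Subtype.val he'
        have he'' : e'' * e'' = e'' := Subtype.ext heM
        have hTT : ∀ m, c m = c (e'' : M) → m ∈ T := fun m hm => Or.inr hm
        have h1 : GoodOn K e'' {t : T | c (t : M) = c (e' : M)} :=
          (h (c (e' : M)) e'' he'').mono (Set.subset_univ _)
        have h2 := goodOn_up (e := e'') (S := {t : T | c (t : M) = c (e' : M)}) ?_
          (fun m _ hem => jle_down1 c hc e'' hTT he'' m hem)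
          (fun m hm _ hme => jle_down2 c hc e'' hTT he'' m hm hme) h1
        · have himg' : (fun t : T => (t : M)) '' {t : T | c (t : M) = c (e' : M)} =
              {m | c m = c (e' : M)} := by
            ext m
            constructor
            · rintro ⟨n, hn, rfl⟩; exact hn
            · intro hm; exact ⟨⟨m, hTT m hm⟩, hm, rfl⟩
          rw [himg'] at h2
          exact h2
        · intro a ha b hb
          rw [Set.mem_ofPred_eq] at ha hb ⊢
          show c ((a : M) * (b : M)) = _
          rw [hc, ha, hb, inf_idem]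

end Semilattice

/-- The class of elementary monoids: the smallest class of monoids which
* contains `M` if (in case `M` is tame) every idempotent `e` of `M` satisfies the chain condition,
  where the chain may start from an ideal whose elements above `e` lie in an elementary
  submonoid `T e`;
* is closed under directed unions (in the local form); and
* contains `M` if `M` has a semilattice decomposition with elementary layers. -/
inductive Elem : ∀ (M : Type u) [Monoid M], Prop
  | chain (M : Type u) [Monoid M] (P : Set M) (T : M → Submonoid M)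
      (hT : ∀ e : M, e ∈ P → Elem (T e))
      (h : Tame M → ∀ e : M, e * e = e →
        Chain e (fun D => e ∈ P ∧ ∀ m ∈ D, JLE e m → m ∈ T e)) : Elem M
  | union (M : Type u) [Monoid M] (N : Finset M → Submonoid M)
      (hN : ∀ F : Finset M, (F : Set M) ⊆ N F) (h : ∀ F, Elem (N F)) : Elem M
  | semilattice (M : Type u) [Monoid M] (Y : Type u) [SemilatticeInf Y] (c : M → Y)
      (hc : ∀ a b, c (a * b) = c a ⊓ c b) (h : ∀ y, Elem (layer c hc y)) : Elem M

/-- Goodness of an ideal whose part above `e` lies in a good submonoid. -/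
theorem claim_of_submonoid {M : Type u} [Monoid M] {K : Type w} [Ring K] {e : M}
    (he : e * e = e) {Q : Type v} [Ring Q] (π : MonoidAlgebra K M →+* Q)
    (hπ : Function.Surjective π)
    (hker : ∀ x, π x = 0 ↔ ∀ m, JLE e m → x.coeff m = 0) (T : Submonoid M) (hT : Good K T)
    (D : Set M) (hD : IsLow D) (hDT : ∀ m ∈ D, JLE e m → m ∈ T)
    (hID : {m : M | JLE e m → JLE m e} ⊆ D) :
    Claim (idl π hπ {m : M | JLE e m → JLE m e} (isLow_layer e)) (idl π hπ D hD) := by
  have heD : e ∈ D := hID fun h => h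
  have heT : e ∈ T := hDT e heD (JLE.refl e)
  obtain ⟨e', he'⟩ : ∃ e' : T, (e' : M) = e := ⟨⟨e, heT⟩, rfl⟩
  have hee : e' * e' = e' := Subtype.ext (by
    show (e' : M) * (e' : M) = (e' : M)
    rw [he', he])
  have hmem : ∀ x, JLE e x → JLE x e → x ∈ T := fun x h h' => hDT x (hD x e h' heD) h
  have key := goodOn_up (K := K) (T := T) (e := e') (S := {t : T | (t : M) ∈ D}) ?_ ?_ ?_
    ((hT e' hee).mono (Set.subset_univ _))
  · rw [he'] at key
    refine claim_of_goodOn hπ hker ?_ key
    intro m hm hem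
    exact ⟨⟨m, hDT m hm hem⟩, hm, rfl⟩
  · intro a ha b _
    exact hD _ _ (JLE.mul_left_self _ _) ha
  · rintro m - hem
    rw [he'] at hem
    obtain ⟨p, q, hpq⟩ := hem
    have h1 : e = (e * p) * m * (q * e) := by
      calc e = e * e * e := by rw [he, he]
        _ = e * (p * m * q) * e := by rw [← hpq]
        _ = (e * p) * m * (q * e) := by simp only [mul_assoc]
    have hp : e * p ∈ T := hmem _ (by
      conv_lhs => rw [h1]
      rw [mul_assoc]
      exact JLE.mul_left_self _ _) (JLE.mul_left_self _ _)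
    have hq : q * e ∈ T := hmem _ (by
      conv_lhs => rw [h1]
      exact JLE.mul_right_self _ _) (JLE.mul_right_self _ _)
    exact ⟨⟨e * p, hp⟩, ⟨q * e, hq⟩, Subtype.ext (he'.trans h1)⟩
  · rintro m - hem hme
    rw [he'] at hem hme
    obtain ⟨p, q, hpq⟩ := hme
    have h1 : m = (p * e) * e * (e * q) := by
      calc m = p * e * q := hpq
        _ = p * (e * e * e) * q := by rw [he, he]
        _ = (p * e) * e * (e * q) := by simp only [mul_assoc]
    have hp : p * e ∈ T := hmem _ (hem.trans (by
      conv_lhs => rw [h1]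
      rw [mul_assoc]
      exact JLE.mul_left_self _ _)) (JLE.mul_right_self _ _)
    have hq : e * q ∈ T := hmem _ (hem.trans (by
      conv_lhs => rw [h1]
      exact JLE.mul_right_self _ _)) (JLE.mul_left_self _ _)
    refine ⟨⟨p * e, hp⟩, ⟨e * q, hq⟩, Subtype.ext ?_⟩
    show (m : M) = (p * e) * (e' : M) * (e * q)
    rw [he']; exact h1

theorem Elem.good {M : Type u} [Monoid M] (h : Elem M) (K : Type w) [Ring K] (hM : Tame M)
    (hK : ∀ (G : Type u) [Group G] (f : G →ₙ* M), Function.Injective f →
      SF (MonoidAlgebra K G)) : Good K M := by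
  induction h with
  | chain M P T hT h ih =>
    intro e he
    obtain ⟨Q, _, π, hπ, hker⟩ := exists_quot_above (K := K) e
    refine goodOn_of_claim hπ hker (hD := isLow_univ) ?_
    refine claim_of_chain hM he (h hM e he) hK π hπ hker ?_
    rintro D hD ⟨heP, hDT⟩ hID
    exact claim_of_submonoid he π hπ hker (T e)
      (ih e heP (tame_sub hM _) (groups_submonoid hK _)) D hD hDT hID
  | union M N hN h ih =>
    exact fun e he => goodAt_of_local hM N hN fun F =>
      ih F (tame_sub hM _) (groups_submonoid hK _)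
  | semilattice M Y c hc h ih =>
    exact good_of_semilattice c hc hM fun y => ih y (tame_sub hM _) (groups_submonoid hK _)

/-- Good monoids have stably finite monoid rings. -/
theorem sf_of_good {M : Type u} [Monoid M] {K : Type w} [Ring K] (hM : Tame M) (hg : Good K M) :
    SF (MonoidAlgebra K M) := by
  classical
  intro n A B hAB
  by_contra hne
  obtain ⟨F, hFdef⟩ : ∃ F, F = 1 - B * A := ⟨_, rfl⟩
  have hF : F * F = F := by
    have h1 : B * A * (B * A) = B * A := by
      rw [mul_assoc, ← mul_assoc A B A, hAB, one_mul]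
    rw [hFdef, sub_mul, mul_sub (B * A), one_mul, mul_one, h1, sub_self, sub_zero]
  obtain ⟨T, hT⟩ : ∃ T : Finset M, ∀ m, m ∈ T ↔ ∃ i j, (F i j).coeff m ≠ 0 := by
    refine ⟨Finset.univ.biUnion fun i => Finset.univ.biUnion fun j => (F i j).coeff.support, ?_⟩
    intro m
    simp only [Finset.mem_biUnion, Finset.mem_univ, true_and, Finsupp.mem_support_iff]
  obtain ⟨x₀, hx₀⟩ : ∃ x, x ∈ T := by
    by_contra hcon
    push Not at hcon
    apply hne
    have hF0 : F = 0 := by
      ext i j m
      by_contra hm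
      exact hcon m ((hT m).2 ⟨i, j, hm⟩)
    rw [hFdef] at hF0
    exact (sub_eq_zero.1 hF0).symm
  have hTT : ∀ s ∈ T, ∃ x ∈ T, ∃ y ∈ T, x * y = s := by
    intro s hs
    obtain ⟨i, j, hij⟩ := (hT s).1 hs
    rw [← hF, Matrix.mul_apply, coeff_sum, Finsupp.finsetSum_apply] at hij
    obtain ⟨k, -, hk⟩ := Finset.exists_ne_zero_of_sum_ne_zero hij
    rw [coeff_mul, Finsupp.sum] at hk
    obtain ⟨x, hx, hk⟩ := Finset.exists_ne_zero_of_sum_ne_zero hk
    rw [Finsupp.sum] at hk
    obtain ⟨y, hy, hk⟩ := Finset.exists_ne_zero_of_sum_ne_zero hk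
    refine ⟨x, (hT x).2 ⟨i, k, Finsupp.mem_support_iff.1 hx⟩, y,
      (hT y).2 ⟨k, j, Finsupp.mem_support_iff.1 hy⟩, ?_⟩
    by_contra hne
    exact hk (if_neg hne)
  obtain ⟨e, s₀, he, hs₀, -, hes₀, -, hmax⟩ := exists_class hM T hTT hx₀
  obtain ⟨i, j, hij⟩ := (hT s₀).1 hs₀
  have hneg : B * A - 1 = - F := by rw [hFdef]; abel
  have key := hg e he (Fin n) A B (fun i j m hm => absurd (Set.mem_univ m) hm)
    (fun i j m hm => absurd (Set.mem_univ m) hm) (fun i j m _ => by
      rw [hAB, sub_self]; rfl) (fun i j m hm => by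
      rw [Set.mem_ofPred_eq, Classical.not_imp] at hm
      by_contra hne'
      refine hm.2 (hmax m ((hT m).2 ⟨i, j, ?_⟩) hm.1)
      intro h0
      apply hne'
      rw [hneg, Matrix.neg_apply, coeff_neg, Finsupp.neg_apply, h0, neg_zero]) i j s₀ (fun h => h hes₀)
  rw [hneg, Matrix.neg_apply, coeff_neg, Finsupp.neg_apply, neg_eq_zero] at key
  exact hij key

end Pool.Agent.H.MP_a22eb7_al.Lay
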