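import Pool.Agent.H.MP_a22eb7_al.helper44.FinR

set_option autoImplicit false
set_option linter.unusedSectionVars false

namespace Pool.Agent.H.MP_a22eb7_al.Lay

open MonoidAlgebra

universe u w v

variable {M : Type u} [Monoid M] {K : Type w} [Ring K]

theorem coeff_left {e : M} {G : Type u} [Group G] (L : LocalGroup M e G) {n : ℕ} {u : Fin n → M}
    (huniq : ∀ k l g g', u k * L.emb g = u l * L.emb g' → k = l ∧ g = g')
    (k l : Fin n) (g : G) (y : MonoidAlgebra K G) :
    (MonoidAlgebra.single (u l) 1 * mapDomain L.emb y).coeff (u k * L.emb g) =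
      if l = k then y.coeff g else 0 := by
  classical
  refine MonoidAlgebra.induction_linear y ?_ ?_ ?_
  · simp
  · intro y y' h h'
    rw [mapDomain_add, mul_add, coeff_add, Finsupp.add_apply, h, h', coeff_add,
      Finsupp.add_apply]
    split_ifs <;> simp
  · intro g' c
    rw [mapDomain_single, single_mul_single, one_mul, coeff_single, coeff_single,
      Finsupp.single_apply, Finsupp.single_apply]
    by_cases h : u l * L.emb g' = u k * L.emb g
    · obtain ⟨h1, h2⟩ := huniq _ _ _ _ h
      rw [if_pos h, if_pos h1, if_pos h2]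
    · rw [if_neg h]
      split_ifs with h1 h2
      · exact absurd (by rw [h1, h2]) h
      · rfl
      · rfl

theorem coeff_right {e : M} {G : Type u} [Group G] (L : LocalGroup M e G) {n : ℕ} {u : Fin n → M}
    (huniq : ∀ k l g g', L.emb g * u k = L.emb g' * u l → k = l ∧ g = g')
    (k l : Fin n) (g : G) (y : MonoidAlgebra K G) :
    (mapDomain L.emb y * MonoidAlgebra.single (u l) 1).coeff (L.emb g * u k) =
      if l = k then y.coeff g else 0 := by
  classical
  refine MonoidAlgebra.induction_linear y ?_ ?_ ?_
  · simp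
  · intro y y' h h'
    rw [mapDomain_add, add_mul, coeff_add, Finsupp.add_apply, h, h', coeff_add,
      Finsupp.add_apply]
    split_ifs <;> simp
  · intro g' c
    rw [mapDomain_single, single_mul_single, mul_one, coeff_single, coeff_single,
      Finsupp.single_apply, Finsupp.single_apply]
    by_cases h : L.emb g' * u l = L.emb g * u k
    · obtain ⟨h1, h2⟩ := huniq _ _ _ _ h
      rw [if_pos h, if_pos h1, if_pos h2]
    · rw [if_neg h]
      split_ifs with h1 h2
      · exact absurd (by rw [h1, h2]) h
      · rfl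
      · rfl

theorem claim_of_finR (hM : Tame M) {e : M} {G : Type u} [Group G] (L : LocalGroup M e G)
    (hfin : FinR e) (hK : SF (MonoidAlgebra K G))
    {Q : Type v} [Ring Q] (π : MonoidAlgebra K M →+* Q) (hπ : Function.Surjective π)
    (hker : ∀ x, π x = 0 ↔ ∀ m, JLE e m → x.coeff m = 0) (a : TwoSidedIdeal Q) :
    Claim (idl π hπ {m : M | JLE e m → JLE m e} (isLow_layer e)) a := by
  classical
  have he := L.idem
  obtain ⟨n, u, hu1, hu2, hu3, huniq⟩ := exists_transversalR hM L hfin
  refine claim_finR (φ := grp π L) hK (fun k => π (MonoidAlgebra.single (u k) 1)) ?_ ?_ ?_ _ ?_ a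
  · intro k
    rw [grp_one, ← map_mul, single_mul_single, hu1, one_mul]
  · intro q k
    obtain ⟨y, rfl⟩ := hπ q
    refine MonoidAlgebra.induction_linear y ?_ ?_ ?_
    · exact ⟨0, by simp⟩
    · rintro y y' ⟨s, hs⟩ ⟨s', hs'⟩
      refine ⟨s + s', ?_⟩
      rw [map_add, add_mul, hs, hs', ← Finset.sum_add_distrib]
      refine Finset.sum_congr rfl fun l _ => ?_
      rw [Pi.add_apply, map_add, mul_add]
    · intro m c
      rw [← map_mul, single_mul_single, mul_one]
      by_cases hm : JLE e (m * u k)
      · obtain ⟨l, g, hlg⟩ := hu3 (m * u k) (by rw [mul_assoc, hu1]) hm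
        refine ⟨Pi.single l (MonoidAlgebra.single g c), ?_⟩
        rw [Finset.sum_eq_single l]
        · rw [Pi.single_eq_same, grp_single, ← map_mul, single_mul_single, one_mul, hlg]
        · intro l' _ hl'
          rw [Pi.single_eq_of_ne hl', map_zero, mul_zero]
        · intro h; exact absurd (Finset.mem_univ l) h
      · refine ⟨0, ?_⟩
        have h1 : π (MonoidAlgebra.single (m * u k) c) = 0 := by
          rw [hker]
          intro m' hm'
          rw [coeff_single, Finsupp.single_apply, if_neg]
          rintro rfl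
          exact hm hm'
        rw [h1]
        simp
  · intro s hs l
    ext g
    have h1 : π (∑ l, MonoidAlgebra.single (u l) 1 * mapDomain L.emb (s l)) = 0 := by
      rw [map_sum, ← hs]
      refine Finset.sum_congr rfl fun l _ => ?_
      rw [map_mul, grp_apply]
    have h2 : JLE e (u l * L.emb g) := by
      obtain ⟨p, hp⟩ := exists_left_inv hM he (hu1 l) (hu2 l)
      refine ⟨p, L.emb g⁻¹, ?_⟩
      rw [← mul_assoc, hp, L.e_mul_emb, ← L.emb_mul, mul_inv_cancel, L.emb_one]
    have h3 := (hker _).1 h1 _ h2
    rw [coeff_sum, Finsupp.finsetSum_apply] at h3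
    simp only [coeff_left L huniq] at h3
    rw [Finset.sum_ite_eq' Finset.univ l, if_pos (Finset.mem_univ l)] at h3
    rw [h3]; rfl
  · intro q hq
    refine idl_induction π hπ (P := fun q => ∃ D : Fin n → Q,
      q = ∑ l, π (MonoidAlgebra.single (u l) 1) * D l) hq ?_ ?_ ?_
    · exact ⟨0, by simp⟩
    · rintro x y ⟨D, hD⟩ ⟨D', hD'⟩
      refine ⟨D + D', ?_⟩
      rw [hD, hD', ← Finset.sum_add_distrib]
      refine Finset.sum_congr rfl fun l _ => ?_
      rw [Pi.add_apply, mul_add]
    · intro m hm c
      by_cases hem : JLE e m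
      · obtain ⟨a', b', hab⟩ := hm hem
        obtain ⟨k, g, hkg⟩ := hu3 (a' * e) (by rw [mul_assoc, he])
          (hem.trans ⟨1, b', by rw [hab, one_mul]⟩)
        refine ⟨Pi.single k (π (MonoidAlgebra.single (L.emb g * b') c)), ?_⟩
        rw [Finset.sum_eq_single k]
        · rw [Pi.single_eq_same, ← map_mul, single_mul_single, one_mul, ← mul_assoc, ← hkg, ← hab]
        · intro l' _ hl'
          rw [Pi.single_eq_of_ne hl', mul_zero]
        · intro h; exact absurd (Finset.mem_univ k) h
      · refine ⟨0, ?_⟩
        have h1 : π (MonoidAlgebra.single m c) = 0 := by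
          rw [hker]
          intro m' hm'
          rw [coeff_single, Finsupp.single_apply, if_neg]
          rintro rfl
          exact hem hm'
        rw [h1]
        simp

theorem claim_of_finL (hM : Tame M) {e : M} {G : Type u} [Group G] (L : LocalGroup M e G)
    (hfin : FinL e) (hK : SF (MonoidAlgebra K G))
    {Q : Type v} [Ring Q] (π : MonoidAlgebra K M →+* Q) (hπ : Function.Surjective π)
    (hker : ∀ x, π x = 0 ↔ ∀ m, JLE e m → x.coeff m = 0) (a : TwoSidedIdeal Q) :
    Claim (idl π hπ {m : M | JLE e m → JLE m e} (isLow_layer e)) a := by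
  classical
  have he := L.idem
  obtain ⟨n, u, hu1, hu2, hu3, huniq⟩ := exists_transversalL hM L hfin
  refine claim_finL (φ := grp π L) hK (fun k => π (MonoidAlgebra.single (u k) 1)) ?_ ?_ ?_ _ ?_ a
  · intro k
    rw [grp_one, ← map_mul, single_mul_single, hu1, one_mul]
  · intro q k
    obtain ⟨y, rfl⟩ := hπ q
    refine MonoidAlgebra.induction_linear y ?_ ?_ ?_
    · exact ⟨0, by simp⟩
    · rintro y y' ⟨s, hs⟩ ⟨s', hs'⟩
      refine ⟨s + s', ?_⟩
      rw [map_add, mul_add, hs, hs', ← Finset.sum_add_distrib]
      refine Finset.sum_congr rfl fun l _ => ?_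
      rw [Pi.add_apply, map_add, add_mul]
    · intro m c
      rw [← map_mul, single_mul_single, one_mul]
      by_cases hm : JLE e (u k * m)
      · obtain ⟨l, g, hlg⟩ := hu3 (u k * m) (by rw [← mul_assoc, hu1]) hm
        refine ⟨Pi.single l (MonoidAlgebra.single g c), ?_⟩
        rw [Finset.sum_eq_single l]
        · rw [Pi.single_eq_same, grp_single, ← map_mul, single_mul_single, mul_one, hlg]
        · intro l' _ hl'
          rw [Pi.single_eq_of_ne hl', map_zero, zero_mul]
        · intro h; exact absurd (Finset.mem_univ l) h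
      · refine ⟨0, ?_⟩
        have h1 : π (MonoidAlgebra.single (u k * m) c) = 0 := by
          rw [hker]
          intro m' hm'
          rw [coeff_single, Finsupp.single_apply, if_neg]
          rintro rfl
          exact hm hm'
        rw [h1]
        simp
  · intro s hs l
    ext g
    have h1 : π (∑ l, mapDomain L.emb (s l) * MonoidAlgebra.single (u l) 1) = 0 := by
      rw [map_sum, ← hs]
      refine Finset.sum_congr rfl fun l _ => ?_
      rw [map_mul, grp_apply]
    have h2 : JLE e (L.emb g * u l) := by
      obtain ⟨p, hp⟩ := exists_right_inv hM he (hu1 l) (hu2 l)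
      refine ⟨L.emb g⁻¹, p, ?_⟩
      have h5 : L.emb g⁻¹ * (L.emb g * u l) * p = L.emb g⁻¹ * L.emb g * (u l * p) := by
        simp only [mul_assoc]
      rw [h5, hp, ← L.emb_mul, inv_mul_cancel, L.emb_one, he]
    have h3 := (hker _).1 h1 _ h2
    rw [coeff_sum, Finsupp.finsetSum_apply] at h3
    simp only [coeff_right L huniq] at h3
    rw [Finset.sum_ite_eq' Finset.univ l, if_pos (Finset.mem_univ l)] at h3
    rw [h3]; rfl
  · intro q hq
    refine idl_induction π hπ (P := fun q => ∃ D : Fin n → Q,
      q = ∑ l, D l * π (MonoidAlgebra.single (u l) 1)) hq ?_ ?_ ?_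
    · exact ⟨0, by simp⟩
    · rintro x y ⟨D, hD⟩ ⟨D', hD'⟩
      refine ⟨D + D', ?_⟩
      rw [hD, hD', ← Finset.sum_add_distrib]
      refine Finset.sum_congr rfl fun l _ => ?_
      rw [Pi.add_apply, add_mul]
    · intro m hm c
      by_cases hem : JLE e m
      · obtain ⟨a', b', hab⟩ := hm hem
        obtain ⟨k, g, hkg⟩ := hu3 (e * b') (by rw [← mul_assoc, he])
          (hem.trans ⟨a', 1, by rw [hab, mul_one, mul_assoc]⟩)
        refine ⟨Pi.single k (π (MonoidAlgebra.single (a' * L.emb g) c)), ?_⟩
        rw [Finset.sum_eq_single k]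
        · rw [Pi.single_eq_same, ← map_mul, single_mul_single, mul_one, mul_assoc, ← hkg, hab,
            mul_assoc]
        · intro l' _ hl'
          rw [Pi.single_eq_of_ne hl', zero_mul]
        · intro h; exact absurd (Finset.mem_univ k) h
      · refine ⟨0, ?_⟩
        have h1 : π (MonoidAlgebra.single m c) = 0 := by
          rw [hker]
          intro m' hm'
          rw [coeff_single, Finsupp.single_apply, if_neg]
          rintro rfl
          exact hem hm'
        rw [h1]
        simp

end Pool.Agent.H.MP_a22eb7_al.Lay
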