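import Pool.Agent.H.MP_a22eb7_al.helper44.Semi

set_option autoImplicit false
set_option linter.unusedSectionVars false

namespace Pool.Agent.H.MP_a22eb7_al.Lay

open MonoidAlgebra

section RingPart

variable {Q H : Type*} [Ring Q] [Ring H]

theorem map_mul_nu (φ : H →ₙ+* Q) {κ τ σ : Type} [Fintype κ] [Fintype τ] [Fintype σ]
    (S : Matrix κ τ H) (T : Matrix τ σ H) : (S * T).map φ = S.map φ * T.map φ := by
  ext i j
  simp [Matrix.mul_apply, map_sum]

theorem claim_finR {φ : H →ₙ+* Q} (hH : SF H) {κ : Type} [Fintype κ] [DecidableEq κ] (P : κ → Q)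
    (hP1 : ∀ k, P k * φ 1 = P k)
    (hact : ∀ q k, ∃ s : κ → H, q * P k = ∑ l, P l * φ (s l))
    (hinj : ∀ s : κ → H, ∑ l, P l * φ (s l) = 0 → ∀ l, s l = 0) (b : TwoSidedIdeal Q)
    (hb : ∀ q ∈ b, ∃ D : κ → Q, q = ∑ l, P l * D l) (a : TwoSidedIdeal Q) : Claim b a := by
  intro ι _ _ x Y _ hxY hYx
  obtain ⟨A, hA⟩ : ∃ A, A = 1 + x := ⟨_, rfl⟩
  rw [← hA] at hxY hYx ⊢
  obtain ⟨PP, hPP⟩ : ∃ PP : Matrix ι (ι × κ) Q, PP = Matrix.of fun i jk =>
      if i = jk.1 then P jk.2 else 0 := ⟨_, rfl⟩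
  have hPPapp : ∀ i j k, PP i (j, k) = if i = j then P k else 0 := fun i j k => by rw [hPP]; rfl
  have e1 : ∀ X : Matrix ι ι Q, ∃ X' : Matrix (ι × κ) (ι × κ) H, X * PP = PP * X'.map φ := by
    intro X
    choose s hs using fun (i j : ι) (k : κ) => hact (X i j) k
    refine ⟨Matrix.of fun il jk => s il.1 jk.1 jk.2 il.2, ?_⟩
    ext i jk
    obtain ⟨j, k⟩ := jk
    rw [Matrix.mul_apply, Matrix.mul_apply, Fintype.sum_prod_type]
    simp only [hPPapp, Matrix.map_apply, Matrix.of_apply, mul_ite, mul_zero, ite_mul, zero_mul]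
    rw [Finset.sum_ite_eq' Finset.univ j, if_pos (Finset.mem_univ j), hs]
    rw [Finset.sum_eq_single i]
    · simp
    · intro m _ hm
      apply Finset.sum_eq_zero
      intro l _
      rw [if_neg (Ne.symm hm)]
    · intro h; exact absurd (Finset.mem_univ i) h
  have e2 : ∀ Z : Matrix (ι × κ) (ι × κ) H, PP * Z.map φ = 0 → Z = 0 := by
    intro Z hZ
    ext il t
    obtain ⟨i, l⟩ := il
    have h1 := congrFun (congrFun hZ i) t
    rw [Matrix.mul_apply, Fintype.sum_prod_type] at h1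
    simp only [hPPapp, Matrix.map_apply, ite_mul, zero_mul] at h1
    rw [Finset.sum_eq_single i] at h1
    · simp only [if_true] at h1
      exact hinj (fun l => Z (i, l) t) h1 l
    · intro m _ hm
      apply Finset.sum_eq_zero
      intro l _
      rw [if_neg (Ne.symm hm)]
    · intro h; exact absurd (Finset.mem_univ i) h
  have e3 : PP * (1 : Matrix (ι × κ) (ι × κ) H).map φ = PP := by
    have : (1 : Matrix (ι × κ) (ι × κ) H).map φ = Matrix.diagonal fun _ => φ 1 := by
      ext i j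
      by_cases h : i = j
      · subst h; simp
      · simp [h]
    rw [this]
    ext i jk
    obtain ⟨j, k⟩ := jk
    rw [Matrix.mul_diagonal, hPPapp]
    split_ifs
    · exact hP1 k
    · exact zero_mul _
  obtain ⟨A', hA'⟩ := e1 A
  obtain ⟨Y', hY'⟩ := e1 Y
  have h1 : A' * Y' = 1 := by
    rw [← sub_eq_zero]
    apply e2
    have hm : (A' * Y' - 1).map φ = (A' * Y').map φ - (1 : Matrix (ι × κ) (ι × κ) H).map φ := by
      ext i j
      rw [Matrix.map_apply, Matrix.sub_apply, Matrix.sub_apply, Matrix.map_apply,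
        Matrix.map_apply, map_sub]
    rw [hm, Matrix.mul_sub, e3, map_mul_nu, ← Matrix.mul_assoc, ← hA', Matrix.mul_assoc, ← hY',
      ← Matrix.mul_assoc, hxY, Matrix.one_mul, sub_self]
  have h2 : Y' * A' = 1 := hH.index _ A' Y' h1
  have h3 : Y * A * PP = PP := by
    rw [Matrix.mul_assoc, hA', ← Matrix.mul_assoc, hY', Matrix.mul_assoc, ← map_mul_nu, h2, e3]
  obtain ⟨f, hf⟩ : ∃ f, f = Y * A - 1 := ⟨_, rfl⟩
  have hfP : f * PP = 0 := by rw [hf, Matrix.sub_mul, h3, Matrix.one_mul, sub_self]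
  rw [← hf, TwoSidedIdeal.mem_matrix] at hYx
  choose D hD using fun i j => hb _ (hYx i j)
  have hfD : f = PP * Matrix.of fun (ml : ι × κ) j => D ml.1 j ml.2 := by
    ext i j
    rw [Matrix.mul_apply, Fintype.sum_prod_type, hD]
    simp only [hPPapp, Matrix.of_apply, ite_mul, zero_mul]
    rw [Finset.sum_eq_single i]
    · simp
    · intro m _ hm
      apply Finset.sum_eq_zero
      intro l _
      rw [if_neg (Ne.symm hm)]
    · intro h; exact absurd (Finset.mem_univ i) h
  have hff : f * f = 0 := by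
    calc f * f = f * (PP * Matrix.of fun (ml : ι × κ) j => D ml.1 j ml.2) := by rw [← hfD]
      _ = 0 := by rw [← Matrix.mul_assoc, hfP, Matrix.zero_mul]
  have hff' : f * f = - f := by
    have h5 : Y * A * (Y * A) = Y * A := by
      rw [mul_assoc, ← mul_assoc A Y A, hxY, one_mul]
    calc f * f = Y * A * (Y * A) - Y * A - Y * A + 1 := by rw [hf]; noncomm_ring
      _ = - f := by rw [h5, hf]; noncomm_ring
  rw [hff] at hff'
  have hf0 : f = 0 := by rw [← neg_eq_zero]; exact hff'.symm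
  rw [hf] at hf0
  exact sub_eq_zero.1 hf0

theorem claim_finL {φ : H →ₙ+* Q} (hH : SF H) {κ : Type} [Fintype κ] [DecidableEq κ] (P : κ → Q)
    (hP1 : ∀ k, φ 1 * P k = P k)
    (hact : ∀ q k, ∃ s : κ → H, P k * q = ∑ l, φ (s l) * P l)
    (hinj : ∀ s : κ → H, ∑ l, φ (s l) * P l = 0 → ∀ l, s l = 0) (b : TwoSidedIdeal Q)
    (hb : ∀ q ∈ b, ∃ D : κ → Q, q = ∑ l, D l * P l) (a : TwoSidedIdeal Q) : Claim b a := by
  intro ι _ _ x Y _ hxY hYx
  obtain ⟨A, hA⟩ : ∃ A, A = 1 + x := ⟨_, rfl⟩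
  rw [← hA] at hxY hYx ⊢
  obtain ⟨PP, hPP⟩ : ∃ PP : Matrix (ι × κ) ι Q, PP = Matrix.of fun jk i =>
      if i = jk.1 then P jk.2 else 0 := ⟨_, rfl⟩
  have hPPapp : ∀ i j k, PP (j, k) i = if i = j then P k else 0 := fun i j k => by rw [hPP]; rfl
  have e1 : ∀ X : Matrix ι ι Q, ∃ X' : Matrix (ι × κ) (ι × κ) H, PP * X = X'.map φ * PP := by
    intro X
    choose s hs using fun (i j : ι) (k : κ) => hact (X i j) k
    refine ⟨Matrix.of fun jk il => s jk.1 il.1 jk.2 il.2, ?_⟩
    ext jk i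
    obtain ⟨j, k⟩ := jk
    rw [Matrix.mul_apply, Matrix.mul_apply, Fintype.sum_prod_type]
    simp only [hPPapp, Matrix.map_apply, Matrix.of_apply, mul_ite, mul_zero, ite_mul, zero_mul]
    rw [Finset.sum_ite_eq' Finset.univ j, if_pos (Finset.mem_univ j), hs]
    rw [Finset.sum_eq_single i]
    · simp
    · intro m _ hm
      apply Finset.sum_eq_zero
      intro l _
      rw [if_neg (Ne.symm hm)]
    · intro h; exact absurd (Finset.mem_univ i) h
  have e2 : ∀ Z : Matrix (ι × κ) (ι × κ) H, Z.map φ * PP = 0 → Z = 0 := by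
    intro Z hZ
    ext t il
    obtain ⟨i, l⟩ := il
    have h1 := congrFun (congrFun hZ t) i
    rw [Matrix.mul_apply, Fintype.sum_prod_type] at h1
    simp only [hPPapp, Matrix.map_apply, mul_ite, mul_zero] at h1
    rw [Finset.sum_eq_single i] at h1
    · simp only [if_true] at h1
      exact hinj (fun l => Z t (i, l)) h1 l
    · intro m _ hm
      apply Finset.sum_eq_zero
      intro l _
      rw [if_neg (Ne.symm hm)]
    · intro h; exact absurd (Finset.mem_univ i) h
  have e3 : (1 : Matrix (ι × κ) (ι × κ) H).map φ * PP = PP := by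
    have : (1 : Matrix (ι × κ) (ι × κ) H).map φ = Matrix.diagonal fun _ => φ 1 := by
      ext i j
      by_cases h : i = j
      · subst h; simp
      · simp [h]
    rw [this]
    ext jk i
    obtain ⟨j, k⟩ := jk
    rw [Matrix.diagonal_mul, hPPapp]
    split_ifs
    · exact hP1 k
    · exact mul_zero _
  obtain ⟨A', hA'⟩ := e1 A
  obtain ⟨Y', hY'⟩ := e1 Y
  have h1 : A' * Y' = 1 := by
    rw [← sub_eq_zero]
    apply e2
    have hm : (A' * Y' - 1).map φ = (A' * Y').map φ - (1 : Matrix (ι × κ) (ι × κ) H).map φ := by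
      ext i j
      rw [Matrix.map_apply, Matrix.sub_apply, Matrix.sub_apply, Matrix.map_apply,
        Matrix.map_apply, map_sub]
    rw [hm, Matrix.sub_mul, e3, map_mul_nu, Matrix.mul_assoc, ← hY', ← Matrix.mul_assoc, ← hA',
      Matrix.mul_assoc, hxY, Matrix.mul_one, sub_self]
  have h2 : Y' * A' = 1 := hH.index _ A' Y' h1
  have h3 : PP * (Y * A) = PP := by
    rw [← Matrix.mul_assoc, hY', Matrix.mul_assoc, hA', ← Matrix.mul_assoc, ← map_mul_nu, h2, e3]
  obtain ⟨f, hf⟩ : ∃ f, f = Y * A - 1 := ⟨_, rfl⟩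
  have hfP : PP * f = 0 := by rw [hf, Matrix.mul_sub, h3, Matrix.mul_one, sub_self]
  rw [← hf, TwoSidedIdeal.mem_matrix] at hYx
  choose D hD using fun i j => hb _ (hYx i j)
  have hfD : f = (Matrix.of fun i (ml : ι × κ) => D i ml.1 ml.2) * PP := by
    ext j i
    rw [Matrix.mul_apply, Fintype.sum_prod_type, hD]
    simp only [hPPapp, Matrix.of_apply, mul_ite, mul_zero]
    rw [Finset.sum_eq_single i]
    · simp
    · intro m _ hm
      apply Finset.sum_eq_zero
      intro l _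
      rw [if_neg (Ne.symm hm)]
    · intro h; exact absurd (Finset.mem_univ i) h
  have hff : f * f = 0 := by
    calc f * f = ((Matrix.of fun i (ml : ι × κ) => D i ml.1 ml.2) * PP) * f := by rw [← hfD]
      _ = 0 := by rw [Matrix.mul_assoc, hfP, Matrix.mul_zero]
  have hff' : f * f = - f := by
    have h5 : Y * A * (Y * A) = Y * A := by
      rw [mul_assoc, ← mul_assoc A Y A, hxY, one_mul]
    calc f * f = Y * A * (Y * A) - Y * A - Y * A + 1 := by rw [hf]; noncomm_ring
      _ = - f := by rw [h5, hf]; noncomm_ring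
  rw [hff] at hff'
  have hf0 : f = 0 := by rw [← neg_eq_zero]; exact hff'.symm
  rw [hf] at hf0
  exact sub_eq_zero.1 hf0

end RingPart

section Transversal

universe u

variable {M : Type u} [Monoid M]

/-- The `J`-class of `e` meets finitely many `R`-classes. -/
def FinR (e : M) : Prop := ∃ X : Finset M, ∀ m, JLE m e → JLE e m →
  ∃ x ∈ X, (∃ p, m = x * p) ∧ ∃ q, x = m * q

/-- The `J`-class of `e` meets finitely many `L`-classes. -/
def FinL (e : M) : Prop := ∃ X : Finset M, ∀ m, JLE m e → JLE e m →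
  ∃ x ∈ X, (∃ p, m = p * x) ∧ ∃ q, x = q * m

theorem exists_left_inv (hM : Tame M) {e u : M} (he : e * e = e) (hu : u * e = u)
    (h : JLE e u) : ∃ p, p * u = e := by
  obtain ⟨a, b, hab⟩ := h
  obtain ⟨z, -, -, -, hz⟩ := hM.exists_inv he (w := e * a * u)
    (by rw [← mul_assoc, ← mul_assoc, he]) (by rw [mul_assoc, hu]) ⟨1, e * b * e, by
      calc e = e * (a * u * b) * e := by rw [← hab, he, he]
        _ = e * a * (u * e) * b * e := by rw [hu]; simp only [mul_assoc]
        _ = 1 * (e * a * u) * (e * b * e) := by simp only [mul_assoc, one_mul]⟩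
  exact ⟨z * (e * a), by rw [mul_assoc]; exact hz⟩

theorem exists_right_inv (hM : Tame M) {e u : M} (he : e * e = e) (hu : e * u = u)
    (h : JLE e u) : ∃ p, u * p = e := by
  obtain ⟨a, b, hab⟩ := h
  obtain ⟨z, -, -, hz, -⟩ := hM.exists_inv he (w := u * b * e)
    (by rw [← mul_assoc, ← mul_assoc, hu]) (by rw [mul_assoc, he]) ⟨e * a * e, 1, by
      calc e = e * (a * u * b) * e := by rw [← hab, he, he]
        _ = e * a * (e * u) * b * e := by rw [hu]; simp only [mul_assoc]
        _ = e * a * e * (u * b * e) * 1 := by simp only [mul_assoc, mul_one]⟩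
  exact ⟨b * e * z, by simpa only [mul_assoc] using hz⟩

theorem exists_transversalR (hM : Tame M) {e : M} {G : Type u} [Group G] (L : LocalGroup M e G)
    (hfin : FinR e) : ∃ (n : ℕ) (u : Fin n → M), (∀ k, u k * e = u k) ∧ (∀ k, JLE e (u k)) ∧
      (∀ m, m * e = m → JLE e m → ∃ k g, m = u k * L.emb g) ∧
      (∀ k l g g', u k * L.emb g = u l * L.emb g' → k = l ∧ g = g') := by
  have he := L.idem
  obtain ⟨X, hX⟩ := hfin
  let U := {m : M // m * e = m ∧ JLE e m}
  have hUJ : ∀ u : U, JLE u.1 e := fun u => ⟨u.1, 1, by rw [mul_one, u.2.1]⟩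
  let s : Setoid U := {
    r := fun m m' => ∃ g, m'.1 = m.1 * L.emb g
    iseqv := {
      refl := fun m => ⟨1, by rw [L.emb_one, m.2.1]⟩
      symm := by
        rintro m m' ⟨g, hg⟩
        refine ⟨g⁻¹, ?_⟩
        rw [hg, mul_assoc, ← L.emb_mul, mul_inv_cancel, L.emb_one, m.2.1]
      trans := by
        rintro m m' m'' ⟨g, hg⟩ ⟨g', hg'⟩
        refine ⟨g * g', ?_⟩
        rw [hg', hg, mul_assoc, ← L.emb_mul] } }
  have key : ∀ u u' : U, (∃ r, u.1 = u'.1 * r) → ∃ g, u.1 = u'.1 * L.emb g := by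
    rintro u u' ⟨r, hr⟩
    have h1 : u.1 = u'.1 * (e * r * e) := by
      calc u.1 = u'.1 * r * e := by rw [← hr, u.2.1]
        _ = u'.1 * e * r * e := by rw [u'.2.1]
        _ = u'.1 * (e * r * e) := by simp only [mul_assoc]
    obtain ⟨g, hg⟩ := L.exists_of_ge (e * r * e) (by rw [← mul_assoc, ← mul_assoc, he])
      (by rw [mul_assoc, he]) (u.2.2.trans (h1 ▸ JLE.mul_right_self _ _))
    exact ⟨g, by rw [hg]; exact h1⟩
  choose f hf1 hf2 using fun u : U => hX u.1 (hUJ u) u.2.2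
  have hfin : Finite (Quotient s) := by
    refine Finite.of_injective (β := {x // x ∈ X}) (fun c => ⟨f c.out, hf1 c.out⟩) ?_
    intro c c' hcc
    have h1 : f c.out = f c'.out := congrArg Subtype.val hcc
    obtain ⟨⟨p, hp⟩, -⟩ := hf2 c.out
    obtain ⟨-, ⟨q, hq⟩⟩ := hf2 c'.out
    have h2 : ∃ g, c.out.1 = c'.out.1 * L.emb g := by
      apply key
      refine ⟨q * p, ?_⟩
      rw [← mul_assoc, ← hq, ← h1]
      exact hp
    have h3 : s c'.out c.out := h2
    have h4 := Quotient.sound h3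
    rw [Quotient.out_eq, Quotient.out_eq] at h4
    exact h4.symm
  have := Fintype.ofFinite (Quotient s)
  let E : Quotient s ≃ Fin (Fintype.card (Quotient s)) := Fintype.equivFin _
  refine ⟨_, fun k => (E.symm k).out.1, fun k => (E.symm k).out.2.1,
    fun k => (E.symm k).out.2.2, ?_, ?_⟩
  · intro m hm hem
    let m' : U := ⟨m, hm, hem⟩
    have h1 : s (Quotient.out (⟦m'⟧ : Quotient s)) m' := Quotient.mk_out m'
    obtain ⟨g, hg⟩ := h1
    refine ⟨E ⟦m'⟧, g, ?_⟩
    simp only [Equiv.symm_apply_apply]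
    exact hg
  · intro k l g g' h
    have h1 : (E.symm k).out.1 = (E.symm l).out.1 * L.emb (g' * g⁻¹) := by
      rw [L.emb_mul, ← mul_assoc, ← h, mul_assoc, ← L.emb_mul, mul_inv_cancel, L.emb_one,
        (E.symm k).out.2.1]
    have h2 : s (E.symm l).out (E.symm k).out := ⟨_, h1⟩
    have h3 := Quotient.sound h2
    rw [Quotient.out_eq, Quotient.out_eq] at h3
    have hkl : k = l := (E.symm.injective h3).symm
    subst hkl
    refine ⟨rfl, ?_⟩
    obtain ⟨p, hp⟩ := exists_left_inv hM he (E.symm k).out.2.1 (E.symm k).out.2.2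
    apply L.emb_inj
    calc L.emb g = p * ((E.symm k).out.1 * L.emb g) := by rw [← mul_assoc, hp, L.e_mul_emb]
      _ = L.emb g' := by
        have h' : (E.symm k).out.1 * L.emb g = (E.symm k).out.1 * L.emb g' := h
        rw [h', ← mul_assoc, hp, L.e_mul_emb]

theorem exists_transversalL (hM : Tame M) {e : M} {G : Type u} [Group G] (L : LocalGroup M e G)
    (hfin : FinL e) : ∃ (n : ℕ) (u : Fin n → M), (∀ k, e * u k = u k) ∧ (∀ k, JLE e (u k)) ∧
      (∀ m, e * m = m → JLE e m → ∃ k g, m = L.emb g * u k) ∧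
      (∀ k l g g', L.emb g * u k = L.emb g' * u l → k = l ∧ g = g') := by
  have he := L.idem
  obtain ⟨X, hX⟩ := hfin
  let U := {m : M // e * m = m ∧ JLE e m}
  have hUJ : ∀ u : U, JLE u.1 e := fun u => ⟨1, u.1, by rw [one_mul, u.2.1]⟩
  let s : Setoid U := {
    r := fun m m' => ∃ g, m'.1 = L.emb g * m.1
    iseqv := {
      refl := fun m => ⟨1, by rw [L.emb_one, m.2.1]⟩
      symm := by
        rintro m m' ⟨g, hg⟩
        refine ⟨g⁻¹, ?_⟩
        rw [hg, ← mul_assoc, ← L.emb_mul, inv_mul_cancel, L.emb_one, m.2.1]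
      trans := by
        rintro m m' m'' ⟨g, hg⟩ ⟨g', hg'⟩
        refine ⟨g' * g, ?_⟩
        rw [hg', hg, ← mul_assoc, ← L.emb_mul] } }
  have key : ∀ u u' : U, (∃ r, u.1 = r * u'.1) → ∃ g, u.1 = L.emb g * u'.1 := by
    rintro u u' ⟨r, hr⟩
    have h1 : u.1 = (e * r * e) * u'.1 := by
      calc u.1 = e * (r * u'.1) := by rw [← hr, u.2.1]
        _ = e * r * (e * u'.1) := by rw [u'.2.1]; simp only [mul_assoc]
        _ = (e * r * e) * u'.1 := by simp only [mul_assoc]
    obtain ⟨g, hg⟩ := L.exists_of_ge (e * r * e) (by rw [← mul_assoc, ← mul_assoc, he])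
      (by rw [mul_assoc, he]) (u.2.2.trans (h1 ▸ JLE.mul_left_self _ _))
    exact ⟨g, by rw [hg]; exact h1⟩
  choose f hf1 hf2 using fun u : U => hX u.1 (hUJ u) u.2.2
  have hfin : Finite (Quotient s) := by
    refine Finite.of_injective (β := {x // x ∈ X}) (fun c => ⟨f c.out, hf1 c.out⟩) ?_
    intro c c' hcc
    have h1 : f c.out = f c'.out := congrArg Subtype.val hcc
    obtain ⟨⟨p, hp⟩, -⟩ := hf2 c.out
    obtain ⟨-, ⟨q, hq⟩⟩ := hf2 c'.out
    have h2 : ∃ g, c.out.1 = L.emb g * c'.out.1 := by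
      apply key
      refine ⟨p * q, ?_⟩
      rw [mul_assoc, ← hq, ← h1]
      exact hp
    have h3 : s c'.out c.out := h2
    have h4 := Quotient.sound h3
    rw [Quotient.out_eq, Quotient.out_eq] at h4
    exact h4.symm
  have := Fintype.ofFinite (Quotient s)
  let E : Quotient s ≃ Fin (Fintype.card (Quotient s)) := Fintype.equivFin _
  refine ⟨_, fun k => (E.symm k).out.1, fun k => (E.symm k).out.2.1,
    fun k => (E.symm k).out.2.2, ?_, ?_⟩
  · intro m hm hem
    let m' : U := ⟨m, hm, hem⟩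
    have h1 : s (Quotient.out (⟦m'⟧ : Quotient s)) m' := Quotient.mk_out m'
    obtain ⟨g, hg⟩ := h1
    refine ⟨E ⟦m'⟧, g, ?_⟩
    simp only [Equiv.symm_apply_apply]
    exact hg
  · intro k l g g' h
    have h1 : (E.symm k).out.1 = L.emb (g⁻¹ * g') * (E.symm l).out.1 := by
      rw [L.emb_mul, mul_assoc, ← h, ← mul_assoc, ← L.emb_mul, inv_mul_cancel, L.emb_one,
        (E.symm k).out.2.1]
    have h2 : s (E.symm l).out (E.symm k).out := ⟨_, h1⟩
    have h3 := Quotient.sound h2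
    rw [Quotient.out_eq, Quotient.out_eq] at h3
    have hkl : k = l := (E.symm.injective h3).symm
    subst hkl
    refine ⟨rfl, ?_⟩
    obtain ⟨p, hp⟩ := exists_right_inv hM he (E.symm k).out.2.1 (E.symm k).out.2.2
    apply L.emb_inj
    calc L.emb g = (L.emb g * (E.symm k).out.1) * p := by rw [mul_assoc, hp, L.emb_mul_e]
      _ = L.emb g' := by
        have h' : L.emb g * (E.symm k).out.1 = L.emb g' * (E.symm k).out.1 := h
        rw [h', mul_assoc, hp, L.emb_mul_e]

end Transversal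

end Pool.Agent.H.MP_a22eb7_al.Lay
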