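import Pool.Agent.H.MP_a22eb7_al.helper44.Mem
import Pool.Agent.H.MP_a22eb7_al.helper44.Sofic
import Pool.Agent.H.MP_a22eb7_al.CharZero

set_option autoImplicit false
set_option linter.unusedSectionVars false

namespace Pool.Agent.H.MP_a22eb7_al.Lay

open MonoidAlgebra

universe u w v

/-- The local finiteness condition at an idempotent `e` of a monoid `M` (one of four). -/
def LocalCond {M : Type u} [Monoid M] (e : M) : Prop :=
  -- the `J`-class of `e` contains only finitely many idempotents
  {g : M | g * g = g ∧ JLE g e ∧ JLE e g}.Finite ∨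
  -- the `J`-class of `e` meets only finitely many `R`-classes or only finitely many `L`-classes
  (∃ X : Finset M, ∀ m, JLE m e → JLE e m → ∃ x ∈ X, (∃ p, m = x * p) ∧ ∃ q, x = m * q) ∨
  (∃ X : Finset M, ∀ m, JLE m e → JLE e m → ∃ x ∈ X, (∃ p, m = p * x) ∧ ∃ q, x = q * m) ∨
  -- no element of the `J`-class of `e` is a product of two elements strictly above `e`
  (∀ a b : M, JLE e a → ¬ JLE a e → JLE e b → ¬ JLE b e → JLE e (a * b) → ¬ JLE (a * b) e) ∨
  -- the `J`-classes above `e` satisfy the descending chain condition, and those of them which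
  -- contain two elements together with their product contain an idempotent
  ((∀ s : ℕ → M, (∀ n, JLE e (s n)) → (∀ n, JLE (s (n + 1)) (s n)) →
      ∃ n, JLE (s n) (s (n + 1))) ∧
    ∀ a b : M, JLE e a → JLE e b → JLE a (a * b) → JLE b (a * b) →
      ∃ g : M, g * g = g ∧ JLE g a ∧ JLE a g)

/-- The class of elementary monoids. -/
inductive Elementary : ∀ (M : Type u) [Monoid M], Prop
  /-- descending chain conditions on principal left ideals and on principal right ideals -/
  | dcc (M : Type u) [Monoid M]
      (hL : ∀ s : ℕ → M, (∀ n, ∃ p, s (n + 1) = p * s n) → ∃ n, ∃ p, s n = p * s (n + 1))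
      (hR : ∀ s : ℕ → M, (∀ n, ∃ p, s (n + 1) = s n * p) → ∃ n, ∃ p, s n = s (n + 1) * p) :
      Elementary M
  /-- completely regular monoids: every element lies in a subgroup -/
  | completelyRegular (M : Type u) [Monoid M]
      (h : ∀ a : M, ∃ g b : M, g * g = g ∧ g * a = a ∧ a * g = a ∧ a * b = g ∧ b * a = g) :
      Elementary M
  /-- the local condition holds at each idempotent -/
  | localCond (M : Type u) [Monoid M] (h : ∀ e : M, e * e = e → LocalCond e) : Elementary M
  /-- every finite subset lies in an elementary submonoid -/
  | union (M : Type u) [Monoid M] (N : Finset M → Submonoid M)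
      (hN : ∀ F : Finset M, (F : Set M) ⊆ N F) (h : ∀ F, Elementary (N F)) : Elementary M
  /-- semilattice decompositions with elementary layers (made into monoids by adding `1`) -/
  | semilattice (M : Type u) [Monoid M] (Y : Type u) [SemilatticeInf Y] (c : M → Y)
      (hc : ∀ a b, c (a * b) = c a ⊓ c b) (h : ∀ y, Elementary (layer c hc y)) : Elementary M

theorem Elementary.elem {M : Type u} [Monoid M] (h : Elementary M) : Elem M := by
  induction h with
  | dcc M hL hR => exact elem_of_dcc M hL hR
  | completelyRegular M h => exact elem_of_cr M h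
  | localCond M h =>
    refine elem_of_basic M fun e he => ?_
    rcases h e he with h | h | h | h | h
    · exact Or.inr (Or.inr (Or.inr (Or.inl h)))
    · exact Or.inr (Or.inl h)
    · exact Or.inr (Or.inr (Or.inl h))
    · exact Or.inr (Or.inr (Or.inr (Or.inr h)))
    · exact Or.inl h
  | union M N hN h ih => exact Elem.union M N hN ih
  | semilattice M Y c hc h ih => exact Elem.semilattice M Y c hc ih

end Pool.Agent.H.MP_a22eb7_al.Lay
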