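import Pool.Agent.H.MP_a22eb7_al.helper44.FinClaim

set_option autoImplicit false
set_option linter.unusedSectionVars false

namespace Pool.Agent.H.MP_a22eb7_al.Lay

open MonoidAlgebra

universe u w v

/-- Nothing is lost at the idempotent `e`, for matrices congruent to `1` outside `D`. -/
def GoodOn (K : Type w) [Ring K] {M : Type u} [Monoid M] (e : M) (D : Set M) : Prop :=
  ∀ (ι : Type) [Fintype ι] [DecidableEq ι] (A B : Matrix ι ι (MonoidAlgebra K M)),
    (∀ i j, SupIn D ((A - 1) i j)) → (∀ i j, SupIn D ((B - 1) i j)) →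
    (∀ i j, SupIn {m | ¬ JLE e m} ((A * B - 1) i j)) →
    (∀ i j, SupIn {m | JLE e m → JLE m e} ((B * A - 1) i j)) →
    ∀ i j, SupIn {m | ¬ JLE e m} ((B * A - 1) i j)

/-- Nothing is lost at the idempotent `e`. -/
def GoodAt (K : Type w) [Ring K] {M : Type u} [Monoid M] (e : M) : Prop :=
  GoodOn K e Set.univ

/-- Nothing is lost at any idempotent. -/
def Good (K : Type w) [Ring K] (M : Type u) [Monoid M] : Prop :=
  ∀ e : M, e * e = e → GoodAt K e

section

variable {M : Type u} [Monoid M] {K : Type w} [Ring K]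

theorem GoodOn.mono {e : M} {D D' : Set M} (h : D ⊆ D') (h' : GoodOn K e D') :
    GoodOn K e D := by
  intro ι _ _ A B hA hB h1 h2
  exact h' ι A B (fun i j => (hA i j).mono h) (fun i j => (hB i j).mono h) h1 h2

/-- The quotient ring `K[M] / K[I]`, where `I` is the set of elements not above `e`. -/
theorem exists_quot_above (e : M) : ∃ (Q : Type (max u w)) (_ : Ring Q)
    (π : MonoidAlgebra K M →+* Q), Function.Surjective π ∧
    ∀ x, π x = 0 ↔ ∀ m, JLE e m → x.coeff m = 0 := by
  obtain ⟨Q, _, π, hπ, hker'⟩ := exists_quot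
    (idl (RingHom.id (MonoidAlgebra K M)) Function.surjective_id {m : M | ¬ JLE e m}
      (isLow_notge e))
  refine ⟨Q, _, π, hπ, fun x => ?_⟩
  rw [hker', mem_idl]
  constructor
  · rintro ⟨y, hy, rfl⟩ m hm
    exact hy m fun h => h hm
  · intro h
    exact ⟨x, fun m hm => h m (not_not.1 hm), rfl⟩

theorem ker_iff {Q : Type v} [Ring Q] {π : MonoidAlgebra K M →+* Q} {e : M}
    (hker : ∀ x, π x = 0 ↔ ∀ m, JLE e m → x.coeff m = 0) (x : MonoidAlgebra K M) :
    π x = 0 ↔ SupIn {m | ¬ JLE e m} x := by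
  rw [hker]
  exact ⟨fun h m hm => h m (not_not.1 hm), fun h m hm => h m fun h' => h' hm⟩

theorem goodOn_of_claim {Q : Type v} [Ring Q] {π : MonoidAlgebra K M →+* Q}
    (hπ : Function.Surjective π) {e : M}
    (hker : ∀ x, π x = 0 ↔ ∀ m, JLE e m → x.coeff m = 0) {D : Set M} {hD : IsLow D}
    (hcl : Claim (idl π hπ {m : M | JLE e m → JLE m e} (isLow_layer e)) (idl π hπ D hD)) :
    GoodOn K e D := by
  intro ι _ _ A B hA hB hAB hBA i j
  have e1 : (1 : Matrix ι ι Q) + (π.mapMatrix A - 1) = π.mapMatrix A := by abel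
  have key := hcl ι (π.mapMatrix A - 1) (π.mapMatrix B) ?_ ?_ ?_
  · rw [e1, ← map_mul] at key
    rw [← ker_iff hker]
    have h1 : π.mapMatrix (B * A - 1) = 0 := by rw [map_sub, key, map_one, sub_self]
    exact congrFun (congrFun h1 i) j
  · rw [TwoSidedIdeal.mem_matrix]
    intro i j
    rw [mem_idl]
    refine ⟨(A - 1) i j, hA i j, ?_⟩
    have : π.mapMatrix A - 1 = π.mapMatrix (A - 1) := by rw [map_sub, map_one]
    rw [this]; rfl
  · have h1 : π.mapMatrix (A * B - 1) = 0 := by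
      ext i j
      exact (ker_iff hker _).2 (hAB i j)
    rw [map_sub, map_one, sub_eq_zero, map_mul] at h1
    rw [e1, h1]
  · have e2 : π.mapMatrix B * (1 + (π.mapMatrix A - 1)) - 1 = π.mapMatrix (B * A - 1) := by
      rw [e1, ← map_mul, map_sub, map_one]
    rw [e2, TwoSidedIdeal.mem_matrix]
    intro i j
    rw [mem_idl]
    exact ⟨(B * A - 1) i j, hBA i j, rfl⟩

/-- Converse: the claim on `D` follows from goodness on a set `S` which represents `D` modulo
`I`. -/
theorem claim_of_goodOn {Q : Type v} [Ring Q] {π : MonoidAlgebra K M →+* Q}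
    (hπ : Function.Surjective π) {e : M}
    (hker : ∀ x, π x = 0 ↔ ∀ m, JLE e m → x.coeff m = 0) {D S : Set M} {hD : IsLow D}
    (hDS : ∀ m ∈ D, JLE e m → m ∈ S) (hg : GoodOn K e S) :
    Claim (idl π hπ {m : M | JLE e m → JLE m e} (isLow_layer e)) (idl π hπ D hD) := by
  intro ι _ _ x Y hx hxY hYx
  obtain ⟨z, hz⟩ : ∃ z, z = Y - 1 := ⟨_, rfl⟩
  have hYz : Y = 1 + z := by rw [hz]; abel
  rw [hYz] at hxY hYx ⊢
  have hzD : z ∈ (idl π hπ D hD).matrix ι := by
    have : z = - (x * (1 + z)) := by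
      have h1 : (1 + x) * (1 + z) = 1 + z + x * (1 + z) := by noncomm_ring
      rw [h1] at hxY
      calc z = (1 + z + x * (1 + z)) - 1 - x * (1 + z) := by abel
        _ = - (x * (1 + z)) := by rw [hxY]; abel
    rw [this]
    exact TwoSidedIdeal.neg_mem _ (TwoSidedIdeal.mul_mem_right _ _ _ hx)
  rw [TwoSidedIdeal.mem_matrix] at hx hzD hYx
  -- lifts supported in `S`
  have hlift : ∀ q ∈ idl π hπ D hD, ∃ y, SupIn S y ∧ π y = q := by
    intro q hq
    obtain ⟨y, hy, rfl⟩ := (mem_idl π hπ).1 hq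
    refine ⟨cut S y, fun m hm => cut_coeff_notMem _ hm, ?_⟩
    rw [← sub_eq_zero, ← map_sub, hker]
    intro m hm
    rw [coeff_sub, Finsupp.sub_apply]
    by_cases hmS : m ∈ S
    · rw [cut_coeff_mem _ hmS, sub_self]
    · rw [cut_coeff_notMem _ hmS, hy m fun h => hmS (hDS m h hm), sub_zero]
  choose xt hxt1 hxt2 using fun i j => hlift _ (hx i j)
  choose zt hzt1 hzt2 using fun i j => hlift _ (hzD i j)
  obtain ⟨s, hs⟩ : ∃ s : Matrix ι ι (MonoidAlgebra K M), s = Matrix.of xt := ⟨_, rfl⟩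
  obtain ⟨t, ht⟩ : ∃ t : Matrix ι ι (MonoidAlgebra K M), t = Matrix.of zt := ⟨_, rfl⟩
  have hsx : π.mapMatrix s = x := by
    ext i j
    rw [hs]; exact hxt2 i j
  have htz : π.mapMatrix t = z := by
    ext i j
    rw [ht]; exact hzt2 i j
  have h1 : ∀ i j, SupIn {m | ¬ JLE e m} (((1 + s) * (1 + t) - 1) i j) := by
    intro i j
    rw [← ker_iff hker]
    have : π.mapMatrix ((1 + s) * (1 + t) - 1) = 0 := by
      rw [map_sub, map_mul, map_add, map_add, map_one, hsx, htz, hxY, sub_self]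
    exact congrFun (congrFun this i) j
  have h2 : ∀ i j, SupIn {m | JLE e m → JLE m e} (((1 + t) * (1 + s) - 1) i j) := by
    intro i j m hm
    obtain ⟨y, hy, hyq⟩ := (mem_idl π hπ).1 (hYx i j)
    have h3 : π.mapMatrix ((1 + t) * (1 + s) - 1) i j = π y := by
      rw [hyq, map_sub, map_mul, map_add, map_add, map_one, hsx, htz]
    have h4 : π (((1 + t) * (1 + s) - 1) i j - y) = 0 := by
      rw [map_sub, sub_eq_zero]; exact h3
    have hem : JLE e m := by
      by_contra h
      exact hm fun h' => absurd h' h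
    have h5 := (hker _).1 h4 m hem
    rw [coeff_sub, Finsupp.sub_apply, hy m hm, sub_zero] at h5
    exact h5
  have key := hg ι (1 + s) (1 + t) (fun i j => by
      rw [add_sub_cancel_left, hs]; exact hxt1 i j) (fun i j => by
      rw [add_sub_cancel_left, ht]; exact hzt1 i j) h1 h2
  rw [← hsx, ← htz]
  have h6 : π.mapMatrix ((1 + t) * (1 + s) - 1) = 0 := by
    ext i j
    exact (ker_iff hker _).2 (key i j)
  rw [map_sub, map_mul, map_add, map_add, map_one, sub_eq_zero] at h6
  exact h6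

/-- the bottom of the induction -/
theorem claim_bottom (hM : Tame M) {e : M} (he : e * e = e)
    (hK : ∀ (G : Type u) [Group G] (f : G →ₙ* M), Function.Injective f →
      SF (MonoidAlgebra K G))
    {Q : Type v} [Ring Q] (π : MonoidAlgebra K M →+* Q) (hπ : Function.Surjective π)
    (hker : ∀ x, π x = 0 ↔ ∀ m, JLE e m → x.coeff m = 0) :
    Claim (idl π hπ {m : M | JLE e m → JLE m e} (isLow_layer e))
      (idl π hπ {m : M | JLE e m → JLE m e} (isLow_layer e)) := by
  obtain ⟨G, _, ⟨L⟩⟩ := exists_localGroup hM he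
  have hc := grp_isCorner π hπ L hker (JLE.refl e)
  rw [idl_bot π hπ hker] at hc
  have hf := grp_fac π hπ L (D := {m : M | JLE e m → JLE m e}) (hD := isLow_layer e)
    (fun m hm => hm)
  rw [idl_bot π hπ hker] at hf
  exact claim_base hc (hK G (lhom L) L.emb_inj) hf

/-- The elements strictly above `e` form a subsemigroup. -/
def Prm (e : M) : Prop := ∀ a b : M, JLE e a → ¬ JLE a e → JLE e b → ¬ JLE b e →
  JLE e (a * b) ∧ ¬ JLE (a * b) e

/-- The basic condition at an idempotent. -/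
def Basic (e : M) : Prop := (Desc M e ∧ RegNull M e) ∨ FinR e ∨ FinL e ∨ Prm e

theorem goodAt_of_basic (hM : Tame M) {e : M} (he : e * e = e)
    (hK : ∀ (G : Type u) [Group G] (f : G →ₙ* M), Function.Injective f →
      SF (MonoidAlgebra K G)) (hb : Basic e) : GoodAt K e := by
  obtain ⟨Q, _, π, hπ, hker⟩ := exists_quot_above (K := K) e
  refine goodOn_of_claim hπ hker (hD := isLow_univ) ?_
  obtain ⟨G, _, ⟨L⟩⟩ := exists_localGroup hM he
  rcases hb with hb | hb | hb | hb
  · exact claim_all hM he hb.1 hb.2 hK π hπ hker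
  · exact claim_of_finR hM L hb (hK G (lhom L) L.emb_inj) π hπ hker _
  · exact claim_of_finL hM L hb (hK G (lhom L) L.emb_inj) π hπ hker _
  · refine claim_semi π hπ hker (isLow_layer e) isLow_univ ?_ _ (fun q hq => hq)
      (claim_bottom hM he hK π hπ hker)
    intro a _ ha b _ hb' hab
    rw [Set.mem_ofPred_eq, Classical.not_imp] at ha hb'
    obtain ⟨h1, h2⟩ := hb a b ha.1 ha.2 hb'.1 hb'.2
    exact h2 (hab h1)

end

section Sub

variable {M : Type u} [Monoid M] {K : Type w} [Ring K]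

theorem jcoe {N : Submonoid M} {a b : N} (h : JLE a b) : JLE (a : M) (b : M) := by
  obtain ⟨p, q, hpq⟩ := h
  exact ⟨p, q, by rw [hpq]; rfl⟩

theorem tame_sub (hM : Tame M) (N : Submonoid M) : Tame N := by
  constructor
  · intro e x y hee hex hxe hey hye hxy
    apply Subtype.ext
    exact hM.corner e x y (congrArg Subtype.val hee) (congrArg Subtype.val hex)
      (congrArg Subtype.val hxe) (congrArg Subtype.val hey) (congrArg Subtype.val hye)
      (congrArg Subtype.val hxy)
  · intro a b c d hbc hbd hac had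
    apply Subtype.ext
    exact hM.exotic a b c d (congrArg Subtype.val hbc) (congrArg Subtype.val hbd)
      (congrArg Subtype.val hac) (congrArg Subtype.val had)

/-- The inclusion `K[N] → K[M]`. -/
noncomputable def inc (K : Type w) [Ring K] (N : Submonoid M) :
    MonoidAlgebra K N →+* MonoidAlgebra K M := mapDomainRingHom K N.subtype

theorem inc_apply (N : Submonoid M) (x : MonoidAlgebra K N) :
    inc K N x = mapDomain (fun n : N => (n : M)) x := rfl

theorem inc_coeff (N : Submonoid M) (x : MonoidAlgebra K N) (n : N) :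
    (inc K N x).coeff (n : M) = x.coeff n := by
  rw [inc_apply, mapDomain]
  exact Finsupp.mapDomain_apply Subtype.val_injective _ _

theorem inc_coeff_notMem (N : Submonoid M) (x : MonoidAlgebra K N) {m : M} (hm : m ∉ N) :
    (inc K N x).coeff m = 0 := by
  rw [inc_apply, mapDomain]
  refine Finsupp.mapDomain_of_notMem_range _ _ ?_
  rintro ⟨n, rfl⟩
  exact hm n.2

theorem exists_inc (N : Submonoid M) (x : MonoidAlgebra K M) (hx : SupIn (N : Set M) x) :
    ∃ y, inc K N y = x := by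
  refine ⟨comapDomain (fun n : N => (n : M)) Subtype.val_injective x, ?_⟩
  rw [inc_apply]
  apply mapDomain_comapDomain
  intro m hm
  rw [Finset.mem_coe, Finsupp.mem_support_iff] at hm
  have : m ∈ N := by
    by_contra h
    exact hm (hx m h)
  exact ⟨⟨m, this⟩, rfl⟩

theorem exists_inc_matrix (N : Submonoid M) {ι : Type} [Fintype ι] [DecidableEq ι]
    (A : Matrix ι ι (MonoidAlgebra K M)) (hA : ∀ i j, SupIn (N : Set M) (A i j)) :
    ∃ A', (inc K N).mapMatrix A' = A := by
  choose f hf using fun i j => exists_inc N (A i j) (hA i j)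
  exact ⟨Matrix.of f, by ext i j m; exact congrArg (fun y => y.coeff m) (hf i j)⟩

theorem groups_submonoid (hK : ∀ (G : Type u) [Group G] (f : G →ₙ* M), Function.Injective f →
      SF (MonoidAlgebra K G)) (N : Submonoid M) :
    ∀ (G : Type u) [Group G] (f : G →ₙ* N), Function.Injective f → SF (MonoidAlgebra K G) := by
  intro G _ f hf
  refine hK G ⟨fun g => (f g : M), fun a b => ?_⟩ ?_
  · rw [map_mul]; rfl
  · intro a b hab
    exact hf (Subtype.ext hab)

/-- The local principle. -/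
theorem goodAt_of_local (hM : Tame M) {e : M} (N : Finset M → Submonoid M)
    (hN : ∀ F : Finset M, (F : Set M) ⊆ N F) (hg : ∀ F, Good K (N F)) : GoodAt K e := by
  classical
  intro ι _ _ A B _ _ hAB _ i₀ j₀ m₀ hm₀
  rw [Set.mem_ofPred_eq, not_not] at hm₀
  by_contra hne
  obtain ⟨F, hF⟩ : ∃ F : Finset M, ∀ i j m, (A i j).coeff m ≠ 0 ∨ (B i j).coeff m ≠ 0 → m ∈ F := by
    refine ⟨Finset.univ.biUnion fun i => Finset.univ.biUnion fun j =>
      (A i j).coeff.support ∪ (B i j).coeff.support, ?_⟩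
    intro i j m hm
    simp only [Finset.mem_biUnion, Finset.mem_univ, true_and, Finset.mem_union,
      Finsupp.mem_support_iff]
    exact ⟨i, j, hm⟩
  obtain ⟨A', hA'⟩ := exists_inc_matrix (N F) A (fun i j m hm => by
    by_contra h
    exact hm (hN F (hF i j m (Or.inl h))))
  obtain ⟨B', hB'⟩ := exists_inc_matrix (N F) B (fun i j m hm => by
    by_contra h
    exact hm (hN F (hF i j m (Or.inr h))))
  have hg' := hg F
  have hN' : Tame (N F) := tame_sub hM _
  generalize N F = N' at *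
  -- coefficients
  have hcAB : ∀ i j (n : N'), ((A' * B' - 1) i j).coeff n = ((A * B - 1) i j).coeff (n : M) := by
    intro i j n
    rw [← inc_coeff, ← hA', ← hB', ← map_mul, ← map_one (inc K N').mapMatrix, ← map_sub]
    rfl
  have hcBA : ∀ i j (n : N'), ((B' * A' - 1) i j).coeff n = ((B * A - 1) i j).coeff (n : M) := by
    intro i j n
    rw [← inc_coeff, ← hA', ← hB', ← map_mul, ← map_one (inc K N').mapMatrix, ← map_sub]
    rfl
  have hBAN : ∀ i j (m : M), m ∉ N' → ((B * A - 1) i j).coeff m = 0 := by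
    intro i j m hm
    rw [← hA', ← hB', ← map_mul, ← map_one (inc K N').mapMatrix, ← map_sub]
    exact inc_coeff_notMem N' _ hm
  obtain ⟨T, hT⟩ : ∃ T : Finset N', ∀ n, n ∈ T ↔
      (∃ i j, ((B' * A' - 1) i j).coeff n ≠ 0) ∧ JLE e (n : M) := by
    refine ⟨(Finset.univ.biUnion fun i => Finset.univ.biUnion fun j =>
      ((B' * A' - 1) i j).coeff.support).filter (fun n => JLE e (n : M)), ?_⟩
    intro n
    simp only [Finset.mem_filter, Finset.mem_biUnion, Finset.mem_univ, true_and,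
      Finsupp.mem_support_iff]
  have hm₀N : m₀ ∈ N' := by
    by_contra h
    exact hne (hBAN _ _ _ h)
  have hx₀ : (⟨m₀, hm₀N⟩ : N') ∈ T := by
    rw [hT]
    refine ⟨⟨i₀, j₀, ?_⟩, hm₀⟩
    rw [hcBA]; exact hne
  have hTT : ∀ s ∈ T, ∃ x ∈ T, ∃ y ∈ T, x * y = s := by
    intro s hs
    obtain ⟨⟨i, j, hij⟩, hes⟩ := (hT s).1 hs
    have e1 : B' * A' - 1 = B' * (A' * B' - 1) * A' - (B' * A' - 1) * (B' * A' - 1) := by
      noncomm_ring
    have hlow : IsLow {n : N' | ¬ JLE e (n : M)} := fun a b hab hb ha =>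
      hb (ha.trans (jcoe hab))
    have h1 : ∀ i j, SupIn {n : N' | ¬ JLE e (n : M)} ((A' * B' - 1) i j) := by
      intro i j n hn
      rw [hcAB]
      exact hAB i j _ hn
    have h2 : SupIn {n : N' | ¬ JLE e (n : M)} ((B' * (A' * B' - 1) * A') i j) := by
      rw [Matrix.mul_apply]
      refine SupIn.sum _ _ fun k _ => SupIn.mul_right hlow _ ?_
      rw [Matrix.mul_apply]
      exact SupIn.sum _ _ fun l _ => SupIn.mul_left hlow _ (h1 l k)
    have h3 : (((B' * A' - 1) * (B' * A' - 1)) i j).coeff s ≠ 0 := by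
      intro h0
      apply hij
      rw [e1, Matrix.sub_apply, coeff_sub, Finsupp.sub_apply, h0, h2 s (fun h => h hes), sub_zero]
    rw [Matrix.mul_apply, coeff_sum, Finsupp.finsetSum_apply] at h3
    obtain ⟨k, -, hk⟩ := Finset.exists_ne_zero_of_sum_ne_zero h3
    rw [coeff_mul, Finsupp.sum] at hk
    obtain ⟨x, hx, hk⟩ := Finset.exists_ne_zero_of_sum_ne_zero hk
    rw [Finsupp.sum] at hk
    obtain ⟨y, hy, hk⟩ := Finset.exists_ne_zero_of_sum_ne_zero hk
    have hxy : x * y = s := by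
      by_contra hne
      exact hk (if_neg hne)
    have hes' : JLE e ((x : M) * (y : M)) := by
      have : (s : M) = (x : M) * (y : M) := by rw [← hxy]; rfl
      rw [← this]; exact hes
    refine ⟨x, (hT x).2 ⟨⟨i, k, Finsupp.mem_support_iff.1 hx⟩,
      hes'.trans (JLE.mul_left_self _ _)⟩, y,
      (hT y).2 ⟨⟨k, j, Finsupp.mem_support_iff.1 hy⟩, hes'.trans (JLE.mul_right_self _ _)⟩, hxy⟩
  obtain ⟨e', s₀, he', hs₀, -, hes₀, hse, hmax⟩ := exists_class hN' T hTT hx₀
  have hup : ∀ n : N', JLE e' n → JLE e (n : M) := fun n hn =>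
    ((hT s₀).1 hs₀).2.trans (jcoe (hse.trans hn))
  have key := hg' e' he' ι A' B' (fun i j m hm => absurd (Set.mem_univ m) hm)
    (fun i j m hm => absurd (Set.mem_univ m) hm) ?_ ?_
  · obtain ⟨⟨i, j, hij⟩, -⟩ := (hT s₀).1 hs₀
    exact hij (key i j s₀ (fun h => h hes₀))
  · intro i j n hn
    rw [Set.mem_ofPred_eq, not_not] at hn
    rw [hcAB]
    exact hAB i j _ (fun h => h (hup n hn))
  · intro i j n hn
    rw [Set.mem_ofPred_eq, Classical.not_imp] at hn
    by_contra hne'
    exact hn.2 (hmax n ((hT n).2 ⟨⟨i, j, hne'⟩, hup n hn.1⟩) hn.1)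

/-- Transport of goodness along the inclusion of a submonoid. -/
theorem goodOn_up {T : Submonoid M} {e : T} {S : Set T}
    (hmul : ∀ a ∈ S, ∀ b ∈ S, a * b ∈ S)
    (h1 : ∀ m ∈ S, JLE (e : M) (m : M) → JLE e m)
    (h2 : ∀ m ∈ S, JLE (e : M) (m : M) → JLE (m : M) (e : M) → JLE m e)
    (hg : GoodOn K e S) : GoodOn K (e : M) ((fun t : T => (t : M)) '' S) := by
  intro ι _ _ A B hA hB hAB hBA i j m hm
  rw [Set.mem_ofPred_eq, not_not] at hm
  have hsub : ∀ y : MonoidAlgebra K M, SupIn ((fun t : T => (t : M)) '' S) y →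
      SupIn (T : Set M) y := fun y hy => hy.mono (by rintro _ ⟨t, -, rfl⟩; exact t.2)
  obtain ⟨x, hx⟩ := exists_inc_matrix T (A - 1) (fun i j => hsub _ (hA i j))
  obtain ⟨z, hz⟩ := exists_inc_matrix T (B - 1) (fun i j => hsub _ (hB i j))
  have hA' : (inc K T).mapMatrix (1 + x) = A := by rw [map_add, map_one, hx]; abel
  have hB' : (inc K T).mapMatrix (1 + z) = B := by rw [map_add, map_one, hz]; abel
  have hcAB : ∀ i j (n : T), (((1 + x) * (1 + z) - 1) i j).coeff n =
      ((A * B - 1) i j).coeff (n : M) := by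
    intro i j n
    rw [← inc_coeff, ← hA', ← hB', ← map_mul, ← map_one (inc K T).mapMatrix, ← map_sub]
    rfl
  have hcBA : ∀ i j (n : T), (((1 + z) * (1 + x) - 1) i j).coeff n =
      ((B * A - 1) i j).coeff (n : M) := by
    intro i j n
    rw [← inc_coeff, ← hA', ← hB', ← map_mul, ← map_one (inc K T).mapMatrix, ← map_sub]
    rfl
  have hxS : ∀ i j, SupIn S (x i j) := by
    intro i j n hn
    rw [← inc_coeff]
    have : (inc K T) (x i j) = (A - 1) i j := by rw [← hx]; rfl
    rw [this]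
    apply hA i j
    rintro ⟨t, ht, htn⟩
    have : t = n := Subtype.ext htn
    exact hn (this ▸ ht)
  have hzS : ∀ i j, SupIn S (z i j) := by
    intro i j n hn
    rw [← inc_coeff]
    have : (inc K T) (z i j) = (B - 1) i j := by rw [← hz]; rfl
    rw [this]
    apply hB i j
    rintro ⟨t, ht, htn⟩
    have : t = n := Subtype.ext htn
    exact hn (this ▸ ht)
  have hprod : ∀ p q : Matrix ι ι (MonoidAlgebra K T), (∀ i j, SupIn S (p i j)) →
      (∀ i j, SupIn S (q i j)) → ∀ i j, SupIn S (((1 + p) * (1 + q) - 1) i j) := by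
    intro p q hp hq i j
    have : (1 + p) * (1 + q) - 1 = p + q + p * q := by noncomm_ring
    rw [this, Matrix.add_apply, Matrix.add_apply, Matrix.mul_apply]
    exact ((hp i j).add (hq i j)).add (SupIn.sum _ _ fun k _ =>
      (hp i k).mul_closed hmul (hq k j))
  have key := hg ι (1 + x) (1 + z) (fun i j => by rw [add_sub_cancel_left]; exact hxS i j)
    (fun i j => by rw [add_sub_cancel_left]; exact hzS i j) ?_ ?_
  · by_cases hmT : m ∈ T
    · obtain ⟨n, rfl⟩ : ∃ n : T, (n : M) = m := ⟨⟨m, hmT⟩, rfl⟩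
      rw [← hcBA]
      by_cases hnS : n ∈ S
      · exact key i j n (fun h => h (h1 n hnS hm))
      · exact hprod z x hzS hxS i j n hnS
    · rw [← hA', ← hB', ← map_mul, ← map_one (inc K T).mapMatrix, ← map_sub]
      exact inc_coeff_notMem T _ hmT
  · intro i j n hn
    rw [Set.mem_ofPred_eq, not_not] at hn
    rw [hcAB]
    exact hAB i j _ (fun h => h (jcoe hn))
  · intro i j n hn
    rw [Set.mem_ofPred_eq, Classical.not_imp] at hn
    by_cases hnS : n ∈ S
    · rw [hcBA]
      apply hBA i j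
      rw [Set.mem_ofPred_eq, Classical.not_imp]
      exact ⟨(jcoe hn.1), fun h => hn.2 (h2 n hnS (jcoe hn.1) h)⟩
    · exact hprod z x hzS hxS i j n hnS

/-- Transport of goodness in the other direction. -/
theorem goodOn_down {T : Submonoid M} {e : T} {S : Set T}
    (hmul : ∀ a ∈ S, ∀ b ∈ S, a * b ∈ S)
    (h1 : ∀ m ∈ S, JLE (e : M) (m : M) → JLE e m)
    (h2 : ∀ m ∈ S, JLE (e : M) (m : M) → JLE (m : M) (e : M) → JLE m e)
    (hg : GoodOn K (e : M) ((fun t : T => (t : M)) '' S)) : GoodOn K e S := by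
  intro ι _ _ A B hA hB hAB hBA i j n hn
  rw [Set.mem_ofPred_eq, not_not] at hn
  have hcoe : ∀ (C C' : Matrix ι ι (MonoidAlgebra K T)) i j (n : T),
      (((inc K T).mapMatrix C * (inc K T).mapMatrix C' - 1) i j).coeff (n : M) =
      ((C * C' - 1) i j).coeff n := by
    intro C C' i j n
    rw [← inc_coeff, ← map_mul, ← map_one (inc K T).mapMatrix, ← map_sub]
    rfl
  have hcoe' : ∀ (C C' : Matrix ι ι (MonoidAlgebra K T)) i j (m : M), m ∉ T →
      (((inc K T).mapMatrix C * (inc K T).mapMatrix C' - 1) i j).coeff m = 0 := by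
    intro C C' i j m hm
    rw [← map_mul, ← map_one (inc K T).mapMatrix, ← map_sub]
    exact inc_coeff_notMem T _ hm
  have hS1 : ∀ C : Matrix ι ι (MonoidAlgebra K T), (∀ i j, SupIn S ((C - 1) i j)) →
      ∀ i j, SupIn ((fun t : T => (t : M)) '' S) (((inc K T).mapMatrix C - 1) i j) := by
    intro C hC i j m hm
    rw [← map_one (inc K T).mapMatrix, ← map_sub]
    by_cases hmT : m ∈ T
    · obtain ⟨n, rfl⟩ : ∃ n : T, (n : M) = m := ⟨⟨m, hmT⟩, rfl⟩
      show (inc K T ((C - 1) i j)).coeff (n : M) = 0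
      rw [inc_coeff]
      exact hC i j n fun h => hm ⟨n, h, rfl⟩
    · exact inc_coeff_notMem T _ hmT
  have hprod : ∀ C C' : Matrix ι ι (MonoidAlgebra K T), (∀ i j, SupIn S ((C - 1) i j)) →
      (∀ i j, SupIn S ((C' - 1) i j)) → ∀ i j, SupIn S ((C * C' - 1) i j) := by
    intro C C' hp hq i j
    have : C * C' - 1 = (C - 1) + (C' - 1) + (C - 1) * (C' - 1) := by noncomm_ring
    rw [this, Matrix.add_apply, Matrix.add_apply, Matrix.mul_apply]
    exact ((hp i j).add (hq i j)).add (SupIn.sum _ _ fun k _ =>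
      (hp i k).mul_closed hmul (hq k j))
  have key := hg ι ((inc K T).mapMatrix A) ((inc K T).mapMatrix B) (hS1 A hA) (hS1 B hB) ?_ ?_
  · rw [← hcoe]
    exact key i j _ (fun h => h (jcoe hn))
  · intro i j m hm
    rw [Set.mem_ofPred_eq, not_not] at hm
    by_cases hmT : m ∈ T
    · obtain ⟨n, rfl⟩ : ∃ n : T, (n : M) = m := ⟨⟨m, hmT⟩, rfl⟩
      rw [hcoe]
      by_cases hnS : n ∈ S
      · exact hAB i j n fun h => h (h1 n hnS hm)
      · exact hprod A B hA hB i j n hnS
    · exact hcoe' _ _ _ _ _ hmT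
  · intro i j m hm
    rw [Set.mem_ofPred_eq, Classical.not_imp] at hm
    by_cases hmT : m ∈ T
    · obtain ⟨n, rfl⟩ : ∃ n : T, (n : M) = m := ⟨⟨m, hmT⟩, rfl⟩
      rw [hcoe]
      by_cases hnS : n ∈ S
      · apply hBA i j n
        rw [Set.mem_ofPred_eq, Classical.not_imp]
        exact ⟨h1 n hnS hm.1, fun h => hm.2 (jcoe h)⟩
      · exact hprod B A hB hA i j n hnS
    · exact hcoe' _ _ _ _ _ hmT

end Sub

end Pool.Agent.H.MP_a22eb7_al.Lay
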