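import Pool.Agent.H.MP_a22eb7_al.helper44.Null
import Pool.Agent.H.MP_a22eb7_al.Class

set_option autoImplicit false
set_option linter.unusedSectionVars false

namespace Pool.Agent.H.MP_a22eb7_al.Lay

open MonoidAlgebra

universe u w v

variable {M : Type u} [Monoid M] {K : Type w} [Ring K]

theorem isLow_univ : IsLow (Set.univ : Set M) := fun _ _ _ _ => trivial

theorem idl_matrix_mono {Q : Type*} [Ring Q] (π : MonoidAlgebra K M →+* Q)
    (hπ : Function.Surjective π) {D D' : Set M} {hD : IsLow D} {hD' : IsLow D'} (h : D ⊆ D')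
    {ι : Type} [Fintype ι] [DecidableEq ι] {x : Matrix ι ι Q}
    (hx : x ∈ (idl π hπ D hD).matrix ι) : x ∈ (idl π hπ D' hD').matrix ι := by
  rw [TwoSidedIdeal.mem_matrix] at hx ⊢
  exact fun i j => idl_mono π hπ h (hx i j)

/-- The union of a chain. -/
theorem claim_union {Q : Type*} [Ring Q] (π : MonoidAlgebra K M →+* Q)
    (hπ : Function.Surjective π) (b : TwoSidedIdeal Q) (c : Set (Set M))
    (hlow : ∀ D ∈ c, IsLow D)
    (hchain : IsChain (fun x1 x2 => x1 ⊆ x2) c) (hne : c.Nonempty)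
    (hcl : ∀ D (hD : D ∈ c), Claim b (idl π hπ D (hlow D hD))) (hU : IsLow (⋃₀ c)) :
    Claim b (idl π hπ (⋃₀ c) hU) := by
  obtain ⟨D₀, hD₀⟩ := hne
  have hdir : ∀ D ∈ c, ∀ D' ∈ c, ∃ D'' ∈ c, D ⊆ D'' ∧ D' ⊆ D'' := by
    intro D hD D' hD'
    rcases hchain.total hD hD' with h | h
    · exact ⟨D', hD', h, subset_rfl⟩
    · exact ⟨D, hD, subset_rfl, h⟩
  intro ι _ _ x Y hx hxY hYx
  rw [TwoSidedIdeal.mem_matrix] at hx
  -- one entry
  have h1 : ∀ q ∈ idl π hπ (⋃₀ c) hU, ∃ (D : Set M) (hD : D ∈ c),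
      q ∈ idl π hπ D (hlow D hD) := by
    intro q hq
    refine idl_induction π hπ (P := fun q => ∃ (D : Set M) (hD : D ∈ c),
      q ∈ idl π hπ D (hlow D hD)) hq ?_ ?_ ?_
    · exact ⟨D₀, hD₀, TwoSidedIdeal.zero_mem _⟩
    · rintro q q' ⟨D, hD, hq⟩ ⟨D', hD', hq'⟩
      obtain ⟨D'', hD'', h, h'⟩ := hdir D hD D' hD'
      exact ⟨D'', hD'', TwoSidedIdeal.add_mem _ (idl_mono π hπ h hq) (idl_mono π hπ h' hq')⟩
    · rintro m ⟨D, hD, hm⟩ c'
      refine ⟨D, hD, ?_⟩
      rw [mem_idl]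
      exact ⟨_, SupIn.single hm c', rfl⟩
  -- all entries
  have h2 : ∀ s : Finset (ι × ι), ∃ (D : Set M) (hD : D ∈ c), ∀ p ∈ s,
      x p.1 p.2 ∈ idl π hπ D (hlow D hD) := by
    intro s
    induction s using Finset.induction_on with
    | empty => exact ⟨D₀, hD₀, fun p hp => absurd hp (Finset.notMem_empty p)⟩
    | insert p s hp ih =>
      obtain ⟨D, hD, h⟩ := ih
      obtain ⟨D', hD', h'⟩ := h1 _ (hx p.1 p.2)
      obtain ⟨D'', hD'', k, k'⟩ := hdir D hD D' hD'
      refine ⟨D'', hD'', fun p' hp' => ?_⟩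
      rcases Finset.mem_insert.1 hp' with rfl | hp'
      · exact idl_mono π hπ k' h'
      · exact idl_mono π hπ k (h p' hp')
  obtain ⟨D, hD, h⟩ := h2 Finset.univ
  refine hcl D hD ι x Y ?_ hxY hYx
  rw [TwoSidedIdeal.mem_matrix]
  exact fun i j => h (i, j) (Finset.mem_univ _)

theorem claim_all (hM : Tame M) {e : M} (he : e * e = e) (h2 : Desc M e) (h3 : RegNull M e)
    (hK : ∀ (G : Type u) [Group G] (f : G →ₙ* M), Function.Injective f →
      SF (MonoidAlgebra K G))
    {Q : Type v} [Ring Q] (π : MonoidAlgebra K M →+* Q) (hπ : Function.Surjective π)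
    (hker : ∀ x, π x = 0 ↔ ∀ m, JLE e m → x.coeff m = 0) :
    Claim (idl π hπ {m : M | JLE e m → JLE m e} (isLow_layer e))
      (idl π hπ Set.univ isLow_univ) := by
  obtain ⟨b, hb⟩ : ∃ b, b = idl π hπ {m : M | JLE e m → JLE m e} (isLow_layer e) := ⟨_, rfl⟩
  rw [← hb]
  obtain ⟨I', hI'⟩ : ∃ I' : Set M, I' = {m : M | JLE e m → JLE m e} := ⟨_, rfl⟩
  let S : Set (Set M) := {D | ∃ hD : IsLow D, I' ⊆ D ∧ Claim b (idl π hπ D hD)}
  have hIS : I' ∈ S := by
    subst hI'
    refine ⟨isLow_layer e, subset_rfl, ?_⟩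
    obtain ⟨G, _, ⟨L⟩⟩ := exists_localGroup hM he
    have hc := grp_isCorner π hπ L hker (JLE.refl e)
    rw [idl_bot π hπ hker] at hc
    have hf := grp_fac π hπ L (D := {m : M | JLE e m → JLE m e}) (hD := isLow_layer e)
      (fun m hm => hm)
    rw [idl_bot π hπ hker, ← hb] at hf
    rw [← hb]
    exact claim_base hc (hK G (lhom L) L.emb_inj) hf
  have hchain : ∀ c ⊆ S, IsChain (fun x1 x2 => x1 ⊆ x2) c → c.Nonempty →
      ∃ ub ∈ S, ∀ s ∈ c, s ⊆ ub := by
    intro c hcS hc hne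
    refine ⟨⋃₀ c, ?_, fun s hs => Set.subset_sUnion_of_mem hs⟩
    have hU : IsLow (⋃₀ c) := by
      rintro x y hxy ⟨D, hD, hy⟩
      exact ⟨D, hD, (hcS hD).choose x y hxy hy⟩
    refine ⟨hU, ?_, ?_⟩
    · obtain ⟨D₀, hD₀⟩ := hne
      obtain ⟨_, h, _⟩ := hcS hD₀
      exact h.trans (Set.subset_sUnion_of_mem hD₀)
    · refine claim_union π hπ b c (fun D hD => (hcS hD).choose) hc hne ?_ hU
      intro D hD
      exact (hcS hD).choose_spec.2
  obtain ⟨D, hID, hDmax⟩ := zorn_subset_nonempty S hchain I' hIS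
  obtain ⟨hDlow, -, hDcl⟩ := hDmax.prop
  -- elements outside `D` are above `e`
  have hout : ∀ s, s ∉ D → JLE e s := by
    intro s hs
    by_contra hes
    apply hs
    apply hID
    rw [hI']
    exact fun h => absurd h hes
  -- the step
  have hstep : ∀ s, s ∉ D → (∀ t, t ∉ D → JLE t s → JLE s t) →
      (∀ (ι : Type) [Fintype ι] [DecidableEq ι] (x Y : Matrix ι ι Q),
        x ∈ (idl π hπ (D ∪ {m | JLE m s}) (hDlow.union (isLow_le s))).matrix ι →
        (1 + x) * Y = 1 → Y * (1 + x) - 1 ∈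
          (idl π hπ {m : M | ¬ JLE s m} (isLow_notge s)).matrix ι →
        Lift (idl π hπ (D ∪ {m | JLE m s}) (hDlow.union (isLow_le s)))
          (idl π hπ {m : M | ¬ JLE s m} (isLow_notge s)) x) → False := by
    intro s hs hmin hl
    have hmem : D ∪ {m | JLE m s} ∈ S := by
      refine ⟨hDlow.union (isLow_le s), hID.trans Set.subset_union_left, ?_⟩
      refine claim_step _ b (idl π hπ {m : M | ¬ JLE s m} (isLow_notge s)) (idl π hπ D hDlow)
        ?_ ?_ hDcl
      · intro ι _ _ x Y hx hxY hYx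
        refine hl ι x Y hx hxY ?_
        rw [hb] at hYx
        refine idl_matrix_mono π hπ ?_ hYx
        intro m hm hsm
        apply hs
        apply hDlow s m hsm
        apply hID
        rw [hI']
        exact hm
      · intro q hq hq'
        refine idl_inter π hπ hker ?_ ?_ hq hq'
        · intro m hm hsm
          exact hm ((hout s hs).trans hsm)
        · rintro m (hm | hm) hm'
          · exact hm
          · by_contra hmD
            exact hm' (hmin m hmD hm)
    have := hDmax.le_of_ge hmem Set.subset_union_left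
    exact hs (this (Or.inr (JLE.refl s)))
  have hDuniv : D = Set.univ := by
    by_contra hDu
    obtain ⟨s₀, hs₀⟩ : ∃ s, s ∉ D := by
      by_contra hcon
      push Not at hcon
      exact hDu (Set.eq_univ_of_forall hcon)
    by_cases hreg : ∃ h : M, h * h = h ∧ h ∉ D ∧ ∀ t, t ∉ D → JLE t h → JLE h t
    · obtain ⟨h, hh, hhD, hmin⟩ := hreg
      refine hstep h hhD hmin ?_
      intro ι _ _ x Y hx hxY hYx
      obtain ⟨G, _, ⟨L⟩⟩ := exists_localGroup hM hh
      refine lift_regular (grp_isCorner π hπ L hker (hout h hhD)) ?_ ?_ hx hxY hYx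
      · rw [grp_one, mem_idl]
        exact ⟨_, SupIn.single (D := D ∪ {m | JLE m h})
          (show h ∈ D ∪ {m | JLE m h} from Or.inr (JLE.refl h)) 1, rfl⟩
      · refine grp_fac π hπ L ?_
        rintro m (hm | hm) hhm
        · exact absurd (hDlow _ _ hhm hm) hhD
        · exact hm
    · -- a minimal element outside `D`
      obtain ⟨s, hs, hmin⟩ : ∃ s, s ∉ D ∧ ∀ t, t ∉ D → JLE t s → JLE s t := by
        by_contra hcon
        push Not at hcon
        choose f hf1 hf2 hf3 using fun (s : {s : M // s ∉ D}) => hcon s.1 s.2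
        let g : {s : M // s ∉ D} → {s : M // s ∉ D} := fun s => ⟨f s, hf1 s⟩
        obtain ⟨n, hn⟩ := h2 (fun n => (g^[n] ⟨s₀, hs₀⟩).1) (fun n => hout _ (g^[n] ⟨s₀, hs₀⟩).2)
          (fun n => by
            show JLE (g^[n + 1] ⟨s₀, hs₀⟩).1 (g^[n] ⟨s₀, hs₀⟩).1
            rw [Function.iterate_succ_apply']
            exact hf2 _)
        change JLE (g^[n] ⟨s₀, hs₀⟩).1 (g^[n + 1] ⟨s₀, hs₀⟩).1 at hn
        rw [Function.iterate_succ_apply'] at hn
        exact hf3 _ hn
      refine hstep s hs hmin ?_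
      intro ι _ _ x Y hx hxY hYx
      have hup : ∀ m, m ∈ D ∪ {m | JLE m s} → JLE s m → m ∉ D ∧ JLE m s := by
        rintro m hm hsm
        have hmD : m ∉ D := fun h => hs (hDlow _ _ hsm h)
        exact ⟨hmD, hm.resolve_left hmD⟩
      have hnull : ∀ m ∈ D ∪ {m | JLE m s}, ∀ m' ∈ D ∪ {m | JLE m s}, ¬ JLE s (m * m') := by
        intro m hm m' hm' hsm
        obtain ⟨hm1, hm2⟩ := hup m hm (hsm.trans (JLE.mul_left_self _ _))
        obtain ⟨hm1', hm2'⟩ := hup m' hm' (hsm.trans (JLE.mul_right_self _ _))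
        obtain ⟨g, hg, hgm, hmg⟩ := h3 m m' (hout m hm1) (hout m' hm1') (hm2.trans hsm)
          (hm2'.trans hsm)
        refine hreg ⟨g, hg, fun hgD => hm1 (hDlow _ _ hmg hgD), fun t ht htg => ?_⟩
        exact hgm.trans (hm2.trans (hmin t ht (htg.trans (hgm.trans hm2))))
      refine (lift_null ?_ ?_ hx).lift
      · intro p hp q hq
        refine idl_induction π hπ (P := fun p => p * q ∈
          idl π hπ {m : M | ¬ JLE s m} (isLow_notge s)) hp ?_ ?_ ?_
        · rw [zero_mul]; exact TwoSidedIdeal.zero_mem _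
        · intro x y h h'; rw [add_mul]; exact TwoSidedIdeal.add_mem _ h h'
        · intro m hm c
          refine idl_induction π hπ (P := fun q => π (MonoidAlgebra.single m c) * q ∈
            idl π hπ {m : M | ¬ JLE s m} (isLow_notge s)) hq ?_ ?_ ?_
          · rw [mul_zero]; exact TwoSidedIdeal.zero_mem _
          · intro x y h h'; rw [mul_add]; exact TwoSidedIdeal.add_mem _ h h'
          · intro m' hm' c'
            rw [← map_mul, single_mul_single, mem_idl]
            exact ⟨_, SupIn.single (hnull m hm m' hm') _, rfl⟩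
      · intro q hq
        refine idl_induction π hπ hq (AddSubmonoid.zero_mem _)
          (fun x y h h' => AddSubmonoid.add_mem _ h h') ?_
        intro m hm c
        apply AddSubmonoid.subset_closure
        refine ⟨?_, ?_⟩
        · rw [mem_idl]; exact ⟨_, SupIn.single hm c, rfl⟩
        · exact null_elem hM h2 h3 π hπ hker _ _ hm (hnull m hm m hm) c
  subst hDuniv
  exact hDcl

/-- Stable finiteness of the monoid ring of a layered tame monoid. -/
theorem sf_of_layered (hM : Tame M) (h2 : ∀ e : M, e * e = e → Desc M e)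
    (h3 : ∀ e : M, e * e = e → RegNull M e)
    (hK : ∀ (G : Type u) [Group G] (f : G →ₙ* M), Function.Injective f →
      SF (MonoidAlgebra K G)) : SF (MonoidAlgebra K M) := by
  classical
  intro n A B hAB
  by_contra hne
  obtain ⟨F, hFdef⟩ : ∃ F, F = 1 - B * A := ⟨_, rfl⟩
  have hF : F * F = F := by
    have h1 : B * A * (B * A) = B * A := by
      rw [mul_assoc, ← mul_assoc A B A, hAB, one_mul]
    rw [hFdef, sub_mul, mul_sub (B * A), one_mul, mul_one, h1, sub_self, sub_zero]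
  have hF0 : F ≠ 0 := by
    intro h0
    rw [hFdef] at h0
    exact hne (sub_eq_zero.1 h0).symm
  obtain ⟨T, hT⟩ : ∃ T : Finset M, ∀ m, m ∈ T ↔ ∃ i j, (F i j).coeff m ≠ 0 := by
    refine ⟨Finset.univ.biUnion fun i => Finset.univ.biUnion fun j => (F i j).coeff.support, ?_⟩
    intro m
    simp only [Finset.mem_biUnion, Finset.mem_univ, true_and, Finsupp.mem_support_iff]
  obtain ⟨x₀, hx₀⟩ : ∃ x, x ∈ T := by
    by_contra hcon
    push Not at hcon
    apply hF0
    ext i j m
    by_contra hm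
    exact hcon m ((hT m).2 ⟨i, j, hm⟩)
  have hTT : ∀ s ∈ T, ∃ x ∈ T, ∃ y ∈ T, x * y = s := by
    intro s hs
    obtain ⟨i, j, hij⟩ := (hT s).1 hs
    rw [← hF, Matrix.mul_apply, coeff_sum, Finsupp.finsetSum_apply] at hij
    obtain ⟨k, -, hk⟩ := Finset.exists_ne_zero_of_sum_ne_zero hij
    rw [coeff_mul, Finsupp.sum] at hk
    obtain ⟨x, hx, hk⟩ := Finset.exists_ne_zero_of_sum_ne_zero hk
    rw [Finsupp.sum] at hk
    obtain ⟨y, hy, hk⟩ := Finset.exists_ne_zero_of_sum_ne_zero hk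
    refine ⟨x, (hT x).2 ⟨i, k, Finsupp.mem_support_iff.1 hx⟩, y,
      (hT y).2 ⟨k, j, Finsupp.mem_support_iff.1 hy⟩, ?_⟩
    by_contra hne
    exact hk (if_neg hne)
  obtain ⟨e, s₀, he, hs₀, -, hes₀, -, hmax⟩ := exists_class hM T hTT hx₀
  obtain ⟨Q, _, π, hπ, hker'⟩ := exists_quot
    (idl (RingHom.id (MonoidAlgebra K M)) Function.surjective_id {m : M | ¬ JLE e m}
      (isLow_notge e))
  have hker : ∀ x, π x = 0 ↔ ∀ m, JLE e m → x.coeff m = 0 := by
    intro x
    rw [hker', mem_idl]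
    constructor
    · rintro ⟨y, hy, rfl⟩ m hm
      exact hy m fun h => h hm
    · intro h
      exact ⟨x, fun m hm => h m (not_not.1 hm), rfl⟩
  have hcl := claim_all hM he (h2 e he) (h3 e he) hK π hπ hker
  have e1 : (1 : Matrix (Fin n) (Fin n) Q) + (π.mapMatrix A - 1) = π.mapMatrix A := by abel
  have key := hcl (Fin n) (π.mapMatrix A - 1) (π.mapMatrix B) ?_ ?_ ?_
  · rw [e1, ← map_mul] at key
    have hF1 : π.mapMatrix F = 0 := by rw [hFdef, map_sub, map_one, key, sub_self]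
    obtain ⟨i, j, hij⟩ := (hT s₀).1 hs₀
    apply hij
    refine (hker (F i j)).1 ?_ s₀ hes₀
    exact congrFun (congrFun hF1 i) j
  · rw [TwoSidedIdeal.mem_matrix]
    intro i j
    rw [mem_idl]
    obtain ⟨y, hy⟩ := hπ ((π.mapMatrix A - 1) i j)
    exact ⟨y, fun m hm => absurd (Set.mem_univ m) hm, hy⟩
  · rw [e1, ← map_mul, hAB, map_one]
  · have e2 : π.mapMatrix B * (1 + (π.mapMatrix A - 1)) - 1 = π.mapMatrix (-F) := by
      rw [e1, ← map_mul, hFdef, map_neg, map_sub, map_one]; abel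
    rw [e2, TwoSidedIdeal.mem_matrix]
    intro i j
    rw [mem_idl]
    refine ⟨(-F) i j, fun m hm => ?_, rfl⟩
    by_contra hne'
    apply hm
    intro hem
    refine hmax m ((hT m).2 ⟨i, j, ?_⟩) hem
    intro h0
    apply hne'
    rw [Matrix.neg_apply, coeff_neg, Finsupp.neg_apply, h0, neg_zero]

end Pool.Agent.H.MP_a22eb7_al.Lay
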