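import Pool.Agent.H.MP_a22eb7_al.helper44.Elem

set_option autoImplicit false
set_option linter.unusedSectionVars false

namespace Pool.Agent.H.MP_a22eb7_al.Lay

open MonoidAlgebra

universe u w v

section Dcc

variable {M : Type u} [Monoid M]

/-- descending chain condition on principal left ideals -/
def DccL (M : Type u) [Monoid M] : Prop :=
  ∀ s : ℕ → M, (∀ n, ∃ p, s (n + 1) = p * s n) → ∃ n, ∃ p, s n = p * s (n + 1)

/-- descending chain condition on principal right ideals -/
def DccR (M : Type u) [Monoid M] : Prop :=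
  ∀ s : ℕ → M, (∀ n, ∃ p, s (n + 1) = s n * p) → ∃ n, ∃ p, s n = s (n + 1) * p

theorem chainL {s : ℕ → M} (hs : ∀ n, ∃ p, s (n + 1) = p * s n) (n k : ℕ) :
    ∃ p, s (n + k) = p * s n := by
  induction k with
  | zero => exact ⟨1, by rw [one_mul, Nat.add_zero]⟩
  | succ k ih =>
    obtain ⟨p, hp⟩ := ih
    obtain ⟨q, hq⟩ := hs (n + k)
    exact ⟨q * p, by rw [← Nat.add_assoc, hq, hp, mul_assoc]⟩

theorem chainR {s : ℕ → M} (hs : ∀ n, ∃ p, s (n + 1) = s n * p) (n k : ℕ) :
    ∃ p, s (n + k) = s n * p := by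
  induction k with
  | zero => exact ⟨1, by rw [mul_one, Nat.add_zero]⟩
  | succ k ih =>
    obtain ⟨p, hp⟩ := ih
    obtain ⟨q, hq⟩ := hs (n + k)
    exact ⟨p * q, by rw [← Nat.add_assoc, hq, hp, mul_assoc]⟩

theorem DccL.stable (h : DccL M) {s : ℕ → M} (hs : ∀ n, ∃ p, s (n + 1) = p * s n) :
    ∃ N, ∀ n, N ≤ n → ∃ p, s N = p * s n := by
  by_contra hcon
  push Not at hcon
  choose f hf1 hf2 using hcon
  obtain ⟨k, p, hk⟩ := h (fun k => s (f^[k] 0)) (fun k => by
    obtain ⟨j, hj⟩ := Nat.exists_eq_add_of_le (hf1 (f^[k] 0))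
    show ∃ p, s (f^[k + 1] 0) = p * s (f^[k] 0)
    rw [Function.iterate_succ_apply', hj]
    exact chainL hs _ _)
  change s (f^[k] 0) = p * s (f^[k + 1] 0) at hk
  rw [Function.iterate_succ_apply'] at hk
  exact hf2 _ p hk

theorem DccR.stable (h : DccR M) {s : ℕ → M} (hs : ∀ n, ∃ p, s (n + 1) = s n * p) :
    ∃ N, ∀ n, N ≤ n → ∃ p, s N = s n * p := by
  by_contra hcon
  push Not at hcon
  choose f hf1 hf2 using hcon
  obtain ⟨k, p, hk⟩ := h (fun k => s (f^[k] 0)) (fun k => by
    obtain ⟨j, hj⟩ := Nat.exists_eq_add_of_le (hf1 (f^[k] 0))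
    show ∃ p, s (f^[k + 1] 0) = s (f^[k] 0) * p
    rw [Function.iterate_succ_apply', hj]
    exact chainR hs _ _)
  change s (f^[k] 0) = s (f^[k + 1] 0) * p at hk
  rw [Function.iterate_succ_apply'] at hk
  exact hf2 _ p hk

theorem desc_of_dcc (hL : DccL M) (hR : DccR M) (e : M) : Desc M e := by
  intro s _ hs
  choose a b hab using hs
  let P : ℕ → M := fun n => Nat.rec 1 (fun n x => a n * x) n
  let Q : ℕ → M := fun n => Nat.rec 1 (fun n x => x * b n) n
  have hP : ∀ n, P (n + 1) = a n * P n := fun n => rfl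
  have hQ : ∀ n, Q (n + 1) = Q n * b n := fun n => rfl
  have hPQ : ∀ n, s n = P n * s 0 * Q n := by
    intro n
    induction n with
    | zero => show s 0 = 1 * s 0 * 1; rw [one_mul, mul_one]
    | succ n ih => rw [hab, ih, hP, hQ]; simp only [mul_assoc]
  have hu : ∀ n, ∃ p, P (n + 1) * s 0 = p * (P n * s 0) := fun n =>
    ⟨a n, by rw [hP, mul_assoc]⟩
  obtain ⟨N, hN⟩ := hL.stable (s := fun n => P n * s 0) hu
  have hw : ∀ n, ∃ p, P N * s 0 * Q (n + 1) = P N * s 0 * Q n * p := fun n =>
    ⟨b n, by rw [hQ, ← mul_assoc]⟩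
  obtain ⟨N', hN'⟩ := hR.stable (s := fun n => P N * s 0 * Q n) hw
  refine ⟨N + N', ?_⟩
  obtain ⟨c, hc⟩ := hN' (N + N' + 1) (by omega)
  obtain ⟨d, hd⟩ := chainR (s := fun n => P N * s 0 * Q n) hw N' N
  obtain ⟨v, hv⟩ := hN (N + N' + 1) (by omega)
  obtain ⟨v', hv'⟩ := chainL (s := fun n => P n * s 0) hu N N'
  rw [Nat.add_comm N' N] at hd
  refine ⟨v' * v, c * d, ?_⟩
  calc s (N + N') = P (N + N') * s 0 * Q (N + N') := hPQ _
    _ = v' * (P N * s 0 * Q (N + N')) := by rw [hv']; simp only [mul_assoc]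
    _ = v' * (P N * s 0 * Q (N + N' + 1) * c * d) := by rw [hd, hc]
    _ = v' * (v * (P (N + N' + 1) * s 0) * Q (N + N' + 1) * c * d) := by rw [← hv]
    _ = v' * v * s (N + N' + 1) * (c * d) := by rw [hPQ (N + N' + 1)]; simp only [mul_assoc]

theorem regNull_of_dcc (hL : DccL M) (hR : DccR M) (e : M) : RegNull M e := by
  intro a b _ _ ha hb
  obtain ⟨x, hx⟩ : ∃ x, a = a * b * x := by
    obtain ⟨p, q, hpq⟩ := ha
    have h1 : ∀ n : ℕ, a = p ^ n * a * (b * q) ^ n := by
      intro n
      induction n with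
      | zero => rw [pow_zero, pow_zero, one_mul, mul_one]
      | succ n ih =>
        calc a = p ^ n * a * (b * q) ^ n := ih
          _ = p ^ n * (p * (a * b) * q) * (b * q) ^ n := by rw [← hpq]
          _ = p ^ (n + 1) * a * (b * q) ^ (n + 1) := by
            rw [pow_succ p, pow_succ' (b * q)]; simp only [mul_assoc]
    obtain ⟨n, d, hn⟩ := hR (fun n => a * (b * q) ^ n) (fun n => ⟨b * q, by
      rw [pow_succ, ← mul_assoc]⟩)
    refine ⟨q * d, ?_⟩
    calc a = p ^ n * (a * (b * q) ^ n) := by rw [← mul_assoc]; exact h1 n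
      _ = p ^ n * (a * (b * q) ^ (n + 1) * d) := by rw [hn]
      _ = p ^ n * a * (b * q) ^ n * (b * q) * d := by
        rw [pow_succ]; simp only [mul_assoc]
      _ = a * (b * q) * d := by rw [← h1 n]
      _ = a * b * (q * d) := by simp only [mul_assoc]
  obtain ⟨y, hy⟩ : ∃ y, b = y * (a * b) := by
    obtain ⟨p, q, hpq⟩ := hb
    have h1 : ∀ n : ℕ, b = (p * a) ^ n * b * q ^ n := by
      intro n
      induction n with
      | zero => rw [pow_zero, pow_zero, one_mul, mul_one]
      | succ n ih =>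
        calc b = (p * a) ^ n * b * q ^ n := ih
          _ = (p * a) ^ n * (p * (a * b) * q) * q ^ n := by rw [← hpq]
          _ = (p * a) ^ (n + 1) * b * q ^ (n + 1) := by
            rw [pow_succ (p * a), pow_succ' q]; simp only [mul_assoc]
    obtain ⟨n, d, hn⟩ := hL (fun n => (p * a) ^ n * b) (fun n => ⟨p * a, by
      rw [pow_succ', mul_assoc]⟩)
    refine ⟨d * p, ?_⟩
    calc b = (p * a) ^ n * b * q ^ n := h1 n
      _ = d * ((p * a) ^ (n + 1) * b) * q ^ n := by rw [← hn]
      _ = d * (p * a) * ((p * a) ^ n * b * q ^ n) := by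
        rw [pow_succ']; simp only [mul_assoc]
      _ = d * (p * a) * b := by rw [← h1 n]
      _ = d * p * (a * b) := by simp only [mul_assoc]
  have hbxb : b * x * b = b := by
    calc b * x * b = y * (a * b) * x * b := by rw [← hy]
      _ = y * (a * b * x) * b := by simp only [mul_assoc]
      _ = y * (a * b) := by rw [← hx, mul_assoc]
      _ = b := hy.symm
  refine ⟨b * x, by rw [← mul_assoc, hbxb], ⟨y, 1, ?_⟩, ⟨a, 1, ?_⟩⟩
  · calc b * x = y * (a * b) * x := by rw [← hy]
      _ = y * (a * b * x) := by simp only [mul_assoc]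
      _ = y * a * 1 := by rw [← hx, mul_one]
  · rw [mul_one, ← mul_assoc]; exact hx

/-- finitely many idempotents in the `J`-class of `e` -/
theorem finR_of_finite_idem (hM : Tame M) {e : M} (he : e * e = e)
    (h : {g : M | g * g = g ∧ JLE g e ∧ JLE e g}.Finite) : FinR e := by
  refine ⟨h.toFinset, ?_⟩
  rintro m ⟨a, b, hab⟩ hem
  obtain ⟨p, hp⟩ : ∃ p, p = a * e := ⟨_, rfl⟩
  obtain ⟨q, hq⟩ : ∃ q, q = e * b := ⟨_, rfl⟩
  have hpe : p * e = p := by rw [hp, mul_assoc, he]
  have heq : e * q = q := by rw [hq, ← mul_assoc, he]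
  have hm : m = p * q := by
    rw [hab, hp, hq]
    calc a * e * b = a * (e * e) * b := by rw [he]
      _ = a * e * (e * b) := by simp only [mul_assoc]
  obtain ⟨q', hq'⟩ := exists_right_inv hM he heq (hem.trans (by
    rw [hm]; exact JLE.mul_right_self _ _))
  obtain ⟨p', hp'⟩ := exists_left_inv hM he hpe (hem.trans (by
    rw [hm]; exact JLE.mul_left_self _ _))
  have h1 : e * p' * p = e := by rw [mul_assoc, hp', he]
  refine ⟨p * (e * p'), h.mem_toFinset.2 ⟨?_, ⟨p, e * p', ?_⟩, ⟨e * p', p, ?_⟩⟩,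
    ⟨m, ?_⟩, ⟨q' * (e * p'), ?_⟩⟩
  · calc p * (e * p') * (p * (e * p')) = p * (e * p' * p) * (e * p') := by
          simp only [mul_assoc]
      _ = p * (e * p') := by rw [h1, hpe]
  · rw [hpe]
  · calc e = e * p' * p * (e * p' * p) := by rw [h1, he]
      _ = e * p' * (p * (e * p')) * p := by simp only [mul_assoc]
  · calc m = p * q := hm
      _ = p * (e * p' * p) * q := by rw [h1, hpe]
      _ = p * (e * p') * m := by rw [hm]; simp only [mul_assoc]
  · calc p * (e * p') = p * e * (e * p') := by rw [hpe]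
      _ = p * (q * q') * (e * p') := by rw [hq']
      _ = m * (q' * (e * p')) := by rw [hm]; simp only [mul_assoc]

end Dcc

/-! ### Membership in the class -/

theorem elem_of_chain (M : Type u) [Monoid M]
    (h : Tame M → ∀ e : M, e * e = e → ∀ R : Set M → Prop, Chain e R) : Elem M :=
  Elem.chain M ∅ (fun _ => ⊤) (fun _ he => absurd he (Set.notMem_empty _))
    (fun hM e he => h hM e he _)

/-- The four basic conditions. -/
theorem elem_of_basic (M : Type u) [Monoid M]
    (h : ∀ e : M, e * e = e → (Desc M e ∧ RegNull M e) ∨ FinR e ∨ FinL e ∨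
      {g : M | g * g = g ∧ JLE g e ∧ JLE e g}.Finite ∨ Irred e) : Elem M := by
  refine elem_of_chain M fun hM e he R => ?_
  rcases h e he with h | h | h | h | h
  · exact chain_of_layered hM h.1 h.2 R
  · exact chain_of_finR h R
  · exact chain_of_finL h R
  · exact chain_of_finR (finR_of_finite_idem hM he h) R
  · exact chain_of_irred h R

theorem elem_of_dcc (M : Type u) [Monoid M] (hL : DccL M) (hR : DccR M) : Elem M :=
  elem_of_basic M fun e _ => Or.inl ⟨desc_of_dcc hL hR e, regNull_of_dcc hL hR e⟩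

/-! ### Completely regular monoids -/

section CR

variable {M : Type u} [Monoid M]

theorem cr_cyc (h : ∀ a : M, InGrp a) (a b : M) : JLE (a * b) (b * a) := by
  refine (h (a * b)).fitJ.trans ⟨a, b, ?_⟩
  simp only [mul_assoc]

theorem cr_mid (h : ∀ a : M, InGrp a) (a t b : M) : JLE (a * t * b) (a * b) := by
  refine (cr_cyc h _ _).trans (JLE.trans ?_ (cr_cyc h b a))
  exact ⟨1, t, by rw [one_mul, ← mul_assoc]⟩

theorem cr_meet (h : ∀ a : M, InGrp a) {x a b : M} (ha : JLE x a) (hb : JLE x b) :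
    JLE x (a * b) := by
  obtain ⟨p, q, hpq⟩ := ha
  obtain ⟨r, s, hrs⟩ := hb
  refine (h x).fitJ.trans (JLE.trans ⟨p, s, ?_⟩ (cr_mid h a (q * r) b))
  calc x * x = (p * a * q) * (r * b * s) := by rw [← hpq, ← hrs]
    _ = p * (a * (q * r) * b) * s := by simp only [mul_assoc]

theorem elem_of_cr (M : Type u) [Monoid M] (h : ∀ a : M, InGrp a) : Elem M := by
  have hc : ∀ a b : M, {x | JLE x (a * b)} = {x | JLE x a} ⊓ {x | JLE x b} := by
    intro a b
    ext x
    constructor
    · intro hx
      exact ⟨hx.trans (JLE.mul_left_self _ _), hx.trans (JLE.mul_right_self _ _)⟩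
    · rintro ⟨h1, h2⟩
      exact cr_meet h h1 h2
  refine Elem.semilattice M (Set M) (fun m => {x | JLE x m}) hc fun y => ?_
  refine elem_of_basic _ fun e he => Or.inr (Or.inr (Or.inr (Or.inr ?_)))
  have key : ∀ a : layer (fun m => {x | JLE x m}) hc y, ¬ JLE a e → a = 1 := by
    intro a ha
    rcases e.2 with h1 | h1
    · exfalso
      apply ha
      have : e = 1 := Subtype.ext h1
      rw [this]
      exact ⟨a, 1, by rw [mul_one, mul_one]⟩
    · rcases a.2 with h2 | h2
      · exact Subtype.ext h2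
      · exfalso
        apply ha
        have h3 : {x | JLE x (a : M)} = {x | JLE x (e : M)} := h2.trans h1.symm
        refine jle_down2 (fun m => {x | JLE x m}) hc e (fun m hm => Or.inr (hm.trans h1)) he a h3 ?_
        have : (a : M) ∈ {x | JLE x (a : M)} := JLE.refl _
        rw [h3] at this
        exact this
  intro a b _ hae _ hbe _ habe
  have ha := key a hae
  have hb := key b hbe
  subst ha
  subst hb
  rw [one_mul] at habe
  exact hae habe

theorem tame_of_cr (h : ∀ a : M, InGrp a) : Tame M := by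
  have hcorner : ∀ e x y : M, e * e = e → e * x = x → x * e = x → e * y = y → y * e = y →
      x * y = e → y * x = e := by
    intro e x y _ hex hxe hey _ hxy
    obtain ⟨g, x', hg, hgx, hxg, hxx', hx'x⟩ := h x
    have h1 : g * e = g := by rw [← hx'x, mul_assoc, hxe]
    have h2 : g * e = e := by rw [← hxy, ← mul_assoc, hgx]
    have hge : g = e := h1.symm.trans h2
    rw [hge] at hx'x
    have h3 : y = x' * e := by
      calc y = e * y := hey.symm
        _ = x' * x * y := by rw [hx'x]
        _ = x' * e := by rw [mul_assoc, hxy]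
    rw [h3, mul_assoc, hex, hx'x]
  refine ⟨hcorner, ?_⟩
  intro a b c d hbc hbd hac had
  obtain ⟨g, a', hg, hga, hag, haa', ha'a⟩ := h a
  obtain ⟨k, d', hk, hkd, hdk, hdd', hd'd⟩ := h d
  have hgd : g * d = d := by
    calc g * d = g * (a * d) := by rw [had]
      _ = d := by rw [← mul_assoc, hga, had]
  have hgk : g * k = k := by rw [← hdd', ← mul_assoc, hgd]
  obtain ⟨f, hf⟩ : ∃ f, f = k * g := ⟨_, rfl⟩
  have hkgk : k * g * k = k := by rw [mul_assoc, hgk, hk]
  have hgf : g * f = f := by rw [hf, ← mul_assoc, hgk]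
  have hfg : f * g = f := by rw [hf, mul_assoc, hg]
  have hff : f * f = f := by
    rw [hf]
    calc k * g * (k * g) = k * g * k * g := by simp only [mul_assoc]
      _ = k * g := by rw [hkgk]
  -- g ≤ a ≤ d ≤ k ≤ f
  have hgle : JLE g f := by
    have h1 : JLE g a := ⟨1, a', by rw [one_mul, haa']⟩
    have h2 : JLE a d := ⟨b, 1, by rw [mul_one, hbd]⟩
    have h3 : JLE d k := ⟨1, d, by rw [one_mul, hkd]⟩
    have h4 : JLE k f := ⟨1, k, by rw [one_mul, hf, hkgk]⟩
    exact ((h1.trans h2).trans h3).trans h4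
  obtain ⟨p, q, hpq⟩ := hgle
  have h5 : (f * q * g) * (g * p * f) = g := by
    refine hcorner g (g * p * f) (f * q * g) hg ?_ ?_ ?_ ?_ ?_
    · rw [← mul_assoc, ← mul_assoc, hg]
    · rw [mul_assoc, hfg]
    · rw [← mul_assoc, ← mul_assoc, hgf]
    · rw [mul_assoc, hg]
    · calc g * p * f * (f * q * g) = g * (p * (f * f) * q) * g := by simp only [mul_assoc]
        _ = g := by rw [hff, ← hpq, hg, hg]
  have hfg2 : f = g := by
    rw [← hfg]
    conv_lhs => rw [← h5]
    calc f * (f * q * g * (g * p * f)) = (f * f) * q * g * (g * p * f) := by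
          simp only [mul_assoc]
      _ = g := by rw [hff]; exact h5
  have hg2 : g = d * (d' * g) := by
    rw [← mul_assoc, hdd', ← hf, hfg2]
  have hag2 : a = g := by
    calc a = a * g := hag.symm
      _ = a * (d * (d' * g)) := by rw [← hg2]
      _ = d * (d' * g) := by rw [← mul_assoc, had]
      _ = g := hg2.symm
  rw [hag2, hg]

end CR

/-! ### Passing to subgroups -/

section Corner

variable {M : Type u} [Monoid M] {K : Type w} [Ring K]

/-- Direct finiteness passes to corners, in the form of multiplicative injections. -/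
theorem df_corner {R S : Type*} [Ring R] [Ring S] (φ : S → R) (hφ : Function.Injective φ)
    (hmul' : ∀ x y, φ (x * y) = φ x * φ y) (h : ∀ a b : R, a * b = 1 → b * a = 1)
    (A B : S) (hAB : A * B = 1) : B * A = 1 := by
  obtain ⟨E, hE⟩ : ∃ E, E = φ 1 := ⟨_, rfl⟩
  have hEX : ∀ X, E * φ X = φ X := fun X => by rw [hE, ← hmul', one_mul]
  have hXE : ∀ X, φ X * E = φ X := fun X => by rw [hE, ← hmul', mul_one]
  have hmul : ∀ X Y, (1 - E + φ X) * (1 - E + φ Y) = 1 - E + φ (X * Y) := by
    intro X Y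
    have h1 : E * E = E := by
      have := hEX 1
      rw [← hE] at this
      exact this
    have e1 : (1 - E) * (1 - E) = 1 - E := by
      rw [mul_sub, sub_mul, sub_mul, one_mul, mul_one, one_mul, h1, sub_self, sub_zero]
    have e2 : (1 - E) * φ Y = 0 := by rw [sub_mul, one_mul, hEX, sub_self]
    have e3 : φ X * (1 - E) = 0 := by rw [mul_sub, mul_one, hXE, sub_self]
    rw [add_mul, mul_add, mul_add, e1, e2, e3, add_zero, zero_add, hmul']
  have h2 := h (1 - E + φ A) (1 - E + φ B) (by rw [hmul, hAB, ← hE, sub_add_cancel])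
  rw [hmul] at h2
  apply hφ
  rw [← hE]
  have h3 : 1 - E + φ (B * A) = 1 - E + E := by rw [h2, sub_add_cancel]
  exact add_left_cancel h3

theorem exists_grpHom {G : Type v} [Group G] (f : G →ₙ* M) (hf : Function.Injective f) :
    ∃ φ : MonoidAlgebra K G →ₙ+* MonoidAlgebra K M, Function.Injective φ :=
  ⟨mapDomainNonUnitalRingHom K f, fun _ _ hxy => mapDomain_injective hf hxy⟩

theorem df_subgroup (h : ∀ a b : MonoidAlgebra K M, a * b = 1 → b * a = 1)
    {G : Type v} [Group G] (f : G →ₙ* M) (hf : Function.Injective f)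
    (a b : MonoidAlgebra K G) (hab : a * b = 1) : b * a = 1 := by
  obtain ⟨φ, hφ⟩ := exists_grpHom (K := K) f hf
  exact df_corner φ hφ (map_mul φ) h a b hab

theorem sf_subgroup (h : SF (MonoidAlgebra K M)) {G : Type v} [Group G] (f : G →ₙ* M)
    (hf : Function.Injective f) : SF (MonoidAlgebra K G) := by
  intro n
  obtain ⟨φ, hφ⟩ := exists_grpHom (K := K) f hf
  refine df_corner (fun X : Matrix (Fin n) (Fin n) (MonoidAlgebra K G) => X.map φ) ?_ ?_ (h n)
  · intro X Y hXY
    ext1 i j
    exact hφ (congrFun (congrFun hXY i) j)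
  · intro X Y
    ext1 i j
    show φ ((X * Y) i j) = _
    rw [Matrix.mul_apply, Matrix.mul_apply, map_sum]
    exact Finset.sum_congr rfl fun k _ => map_mul φ _ _

theorem df_of_sf {R : Type*} [Ring R] (h : SF R) (a b : R) (hab : a * b = 1) : b * a = 1 := by
  have h1 := h 1 (Matrix.diagonal fun _ => a) (Matrix.diagonal fun _ => b) (by
    rw [Matrix.diagonal_mul_diagonal, hab, Matrix.diagonal_one])
  rw [Matrix.diagonal_mul_diagonal, ← Matrix.diagonal_one] at h1
  exact congrFun (Matrix.diagonal_injective h1) 0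

/-- Reduction of stable finiteness to the subgroups. -/
theorem Elem.sf_iff [Nontrivial K] (hM : Elem M) :
    SF (MonoidAlgebra K M) ↔ Tame M ∧
      ∀ (G : Type u) [Group G] (f : G →ₙ* M), Function.Injective f → SF (MonoidAlgebra K G) := by
  constructor
  · intro h
    exact ⟨tame_of_directlyFinite K (df_of_sf h), fun G _ f hf => sf_subgroup h f hf⟩
  · rintro ⟨hT, hK⟩
    exact sf_of_good hT (hM.good K hT hK)

end Corner

end Pool.Agent.H.MP_a22eb7_al.Lay
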