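import Pool.Agent.H.MP_a22eb7_al.helper44.RingC
import Pool.Agent.H.MP_a22eb7_al.Struct

set_option autoImplicit false
set_option linter.unusedSectionVars false

namespace Pool.Agent.H.MP_a22eb7_al.Lay

open MonoidAlgebra

variable {M K : Type*} [Monoid M] [Ring K]

/-- lower sets for the `J`-order (that is, ideals of `M`, or the empty set) -/
def IsLow (D : Set M) : Prop := ∀ a b : M, JLE a b → b ∈ D → a ∈ D

/-- the support is contained in `D` -/
def SupIn (D : Set M) (x : MonoidAlgebra K M) : Prop := ∀ m, m ∉ D → x.coeff m = 0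

theorem SupIn.zero (D : Set M) : SupIn D (0 : MonoidAlgebra K M) := fun m _ => by simp

theorem SupIn.add {D : Set M} {x y : MonoidAlgebra K M} (hx : SupIn D x) (hy : SupIn D y) :
    SupIn D (x + y) := fun m hm => by
  rw [coeff_add, Finsupp.add_apply, hx m hm, hy m hm, add_zero]

theorem SupIn.neg {D : Set M} {x : MonoidAlgebra K M} (hx : SupIn D x) :
    SupIn D (-x) := fun m hm => by
  rw [coeff_neg, Finsupp.neg_apply, hx m hm, neg_zero]

theorem SupIn.sub {D : Set M} {x y : MonoidAlgebra K M} (hx : SupIn D x) (hy : SupIn D y) :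
    SupIn D (x - y) := by
  rw [sub_eq_add_neg]; exact hx.add hy.neg

theorem SupIn.mono {D D' : Set M} (h : D ⊆ D') {x : MonoidAlgebra K M} (hx : SupIn D x) :
    SupIn D' x := fun m hm => hx m fun h' => hm (h h')

theorem SupIn.single {D : Set M} {m : M} (hm : m ∈ D) (c : K) :
    SupIn D (MonoidAlgebra.single m c) := fun m' hm' => by
  classical
  rw [coeff_single, Finsupp.single_apply, if_neg]
  rintro rfl
  exact hm' hm

theorem SupIn.induction {D : Set M} {P : MonoidAlgebra K M → Prop} {x : MonoidAlgebra K M}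
    (hx : SupIn D x) (h0 : P 0) (hadd : ∀ x y, P x → P y → P (x + y))
    (hs : ∀ m ∈ D, ∀ c : K, P (MonoidAlgebra.single m c)) : P x := by
  rw [← sum_coeff_single x, Finsupp.sum]
  refine Finset.sum_induction _ P hadd h0 ?_
  intro m hm
  by_cases hmD : m ∈ D
  · exact hs m hmD _
  · exact absurd (hx m hmD) (Finsupp.mem_support_iff.1 hm)

theorem SupIn.mul_left {D : Set M} (hD : IsLow D) (x : MonoidAlgebra K M)
    {y : MonoidAlgebra K M} (hy : SupIn D y) : SupIn D (x * y) := by
  refine hy.induction (P := fun y => SupIn D (x * y)) ?_ ?_ ?_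
  · rw [mul_zero]; exact SupIn.zero D
  · intro y y' h h'; rw [mul_add]; exact h.add h'
  · intro m hm c
    refine MonoidAlgebra.induction_linear x ?_ ?_ ?_
    · rw [zero_mul]; exact SupIn.zero D
    · intro x x' h h'; rw [add_mul]; exact h.add h'
    · intro m' c'
      rw [single_mul_single]
      exact SupIn.single (hD _ _ (JLE.mul_right_self _ _) hm) _

theorem SupIn.mul_right {D : Set M} (hD : IsLow D) (x : MonoidAlgebra K M)
    {y : MonoidAlgebra K M} (hy : SupIn D y) : SupIn D (y * x) := by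
  refine hy.induction (P := fun y => SupIn D (y * x)) ?_ ?_ ?_
  · rw [zero_mul]; exact SupIn.zero D
  · intro y y' h h'; rw [add_mul]; exact h.add h'
  · intro m hm c
    refine MonoidAlgebra.induction_linear x ?_ ?_ ?_
    · rw [mul_zero]; exact SupIn.zero D
    · intro x x' h h'; rw [mul_add]; exact h.add h'
    · intro m' c'
      rw [single_mul_single]
      exact SupIn.single (hD _ _ (JLE.mul_left_self _ _) hm) _

theorem isLow_notge (h : M) : IsLow {m : M | ¬ JLE h m} := fun _ _ hab hb ha =>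
  hb (ha.trans hab)

theorem isLow_layer (h : M) : IsLow {m : M | JLE h m → JLE m h} := fun _ _ hab hb ha =>
  hab.trans (hb (ha.trans hab))

theorem isLow_le (h : M) : IsLow {m : M | JLE m h} := fun _ _ hab hb => hab.trans hb

theorem IsLow.union {D D' : Set M} (hD : IsLow D) (hD' : IsLow D') : IsLow (D ∪ D') := by
  rintro a b hab (hb | hb)
  · exact Or.inl (hD a b hab hb)
  · exact Or.inr (hD' a b hab hb)

section Idl

variable {Q : Type*} [Ring Q] (π : MonoidAlgebra K M →+* Q) (hπ : Function.Surjective π)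

/-- The image in `Q` of `K[D]`. -/
def idl (D : Set M) (hD : IsLow D) : TwoSidedIdeal Q :=
  TwoSidedIdeal.mk' {q | ∃ x, SupIn D x ∧ π x = q}
    ⟨0, SupIn.zero D, map_zero π⟩
    (by
      rintro _ _ ⟨x, hx, rfl⟩ ⟨y, hy, rfl⟩
      exact ⟨x + y, hx.add hy, map_add π x y⟩)
    (by
      rintro _ ⟨x, hx, rfl⟩
      exact ⟨-x, hx.neg, map_neg π x⟩)
    (by
      rintro q _ ⟨x, hx, rfl⟩
      obtain ⟨y, rfl⟩ := hπ q
      exact ⟨y * x, hx.mul_left hD y, map_mul π y x⟩)
    (by
      rintro _ q ⟨x, hx, rfl⟩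
      obtain ⟨y, rfl⟩ := hπ q
      exact ⟨x * y, hx.mul_right hD y, map_mul π x y⟩)

theorem mem_idl {D : Set M} {hD : IsLow D} {q : Q} :
    q ∈ idl π hπ D hD ↔ ∃ x, SupIn D x ∧ π x = q := by
  rw [idl, TwoSidedIdeal.mem_mk']; rfl

theorem idl_mono {D D' : Set M} {hD : IsLow D} {hD' : IsLow D'} (h : D ⊆ D') {q : Q}
    (hq : q ∈ idl π hπ D hD) : q ∈ idl π hπ D' hD' := by
  rw [mem_idl] at hq ⊢
  obtain ⟨x, hx, rfl⟩ := hq
  exact ⟨x, hx.mono h, rfl⟩

theorem idl_induction {D : Set M} {hD : IsLow D} {P : Q → Prop} {q : Q}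
    (hq : q ∈ idl π hπ D hD) (h0 : P 0) (hadd : ∀ x y, P x → P y → P (x + y))
    (hs : ∀ m ∈ D, ∀ c : K, P (π (MonoidAlgebra.single m c))) : P q := by
  rw [mem_idl] at hq
  obtain ⟨x, hx, rfl⟩ := hq
  exact hx.induction (P := fun x => P (π x)) (by rw [map_zero]; exact h0)
    (fun x y h h' => by rw [map_add]; exact hadd _ _ h h') hs

variable {e : M} (hker : ∀ x, π x = 0 ↔ ∀ m, JLE e m → x.coeff m = 0)

include hker in
theorem idl_inter {D₁ D₂ D₃ : Set M} {h₁ : IsLow D₁} {h₂ : IsLow D₂} {h₃ : IsLow D₃}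
    (hI : ∀ m, ¬ JLE e m → m ∈ D₂) (h : ∀ m, m ∈ D₁ → m ∈ D₂ → m ∈ D₃) {q : Q}
    (hq : q ∈ idl π hπ D₁ h₁) (hq' : q ∈ idl π hπ D₂ h₂) : q ∈ idl π hπ D₃ h₃ := by
  rw [mem_idl] at hq hq' ⊢
  obtain ⟨x, hx, rfl⟩ := hq
  obtain ⟨y, hy, hyx⟩ := hq'
  refine ⟨x, fun m hm => ?_, rfl⟩
  by_cases hm1 : m ∈ D₁
  · have hm2 : m ∉ D₂ := fun hm2 => hm (h m hm1 hm2)
    have hem : JLE e m := by
      by_contra hem
      exact hm2 (hI m hem)
    have h3 : π (y - x) = 0 := by rw [map_sub, hyx, sub_self]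
    have h4 := (hker _).1 h3 m hem
    rw [coeff_sub, Finsupp.sub_apply, hy m hm2, zero_sub, neg_eq_zero] at h4
    exact h4
  · exact hx m hm1

include hker in
theorem idl_bot : idl π hπ {m : M | ¬ JLE e m} (isLow_notge e) = ⊥ := by
  rw [eq_bot_iff]
  intro q hq
  rw [mem_idl] at hq
  obtain ⟨x, hx, rfl⟩ := hq
  rw [TwoSidedIdeal.mem_bot, hker]
  exact fun m hm => hx m fun h => h hm

end Idl

section Corner

variable {Q : Type*} [Ring Q] (π : MonoidAlgebra K M →+* Q) (hπ : Function.Surjective π)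
variable {h : M} {G : Type*} [Group G] (L : LocalGroup M h G)

/-- the embedding as a semigroup homomorphism -/
def lhom : G →ₙ* M := ⟨L.emb, L.emb_mul⟩

/-- The homomorphism `K[G] → Q`. -/
noncomputable def grp : MonoidAlgebra K G →ₙ+* Q :=
  (π : MonoidAlgebra K M →ₙ+* Q).comp (mapDomainNonUnitalRingHom K (lhom L))

theorem grp_apply (x : MonoidAlgebra K G) : grp π L x = π (mapDomain L.emb x) := rfl

theorem grp_single (g : G) (c : K) :
    grp π L (MonoidAlgebra.single g c) = π (MonoidAlgebra.single (L.emb g) c) := by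
  rw [grp_apply, mapDomain_single]

theorem grp_one : grp π L 1 = π (MonoidAlgebra.single h 1) := by
  rw [MonoidAlgebra.one_def, grp_single, L.emb_one]

theorem grp_isCorner {e : M} (hker : ∀ x, π x = 0 ↔ ∀ m, JLE e m → x.coeff m = 0)
    (heh : JLE e h) :
    IsCorner (grp π L) (idl π hπ {m : M | ¬ JLE h m} (isLow_notge h)) := by
  have hh : h * h = h := L.idem
  constructor
  · intro y
    obtain ⟨y, rfl⟩ := hπ y
    refine MonoidAlgebra.induction_linear y ?_ ?_ ?_
    · refine ⟨0, ?_⟩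
      rw [map_zero, mul_zero, zero_mul, map_zero, sub_zero]
      exact TwoSidedIdeal.zero_mem _
    · rintro y y' ⟨x, hx⟩ ⟨x', hx'⟩
      refine ⟨x + x', ?_⟩
      have : grp π L 1 * π (y + y') * grp π L 1 - grp π L (x + x') =
          (grp π L 1 * π y * grp π L 1 - grp π L x) +
          (grp π L 1 * π y' * grp π L 1 - grp π L x') := by
        rw [map_add, map_add]; noncomm_ring
      rw [this]
      exact TwoSidedIdeal.add_mem _ hx hx'
    · intro m c
      have e1 : grp π L 1 * π (MonoidAlgebra.single m c) * grp π L 1 =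
          π (MonoidAlgebra.single (h * m * h) c) := by
        rw [grp_one, ← map_mul, ← map_mul, single_mul_single, single_mul_single, one_mul,
          mul_one]
      rw [e1]
      by_cases hm : JLE h (h * m * h)
      · obtain ⟨g, hg⟩ := L.exists_of_ge (h * m * h) (by rw [← mul_assoc, ← mul_assoc, hh])
          (by rw [mul_assoc, hh]) hm
        refine ⟨MonoidAlgebra.single g c, ?_⟩
        rw [grp_single, hg, sub_self]
        exact TwoSidedIdeal.zero_mem _
      · refine ⟨0, ?_⟩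
        rw [map_zero, sub_zero, mem_idl]
        exact ⟨_, SupIn.single hm c, rfl⟩
  · intro x hx
    rw [mem_idl] at hx
    obtain ⟨y, hy, hyx⟩ := hx
    have h3 : π (mapDomain L.emb x - y) = 0 := by rw [map_sub, hyx, grp_apply, sub_self]
    ext g
    have h4 := (hker _).1 h3 (L.emb g) (heh.trans (L.ge g))
    rw [coeff_sub, Finsupp.sub_apply, hy _ (fun h' => h' (L.ge g)), sub_zero] at h4
    have h5 : (mapDomain L.emb x).coeff (L.emb g) = x.coeff g := by
      rw [mapDomain]
      exact Finsupp.mapDomain_apply L.emb_inj _ _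
    rw [h5] at h4
    rw [h4]; rfl

theorem grp_fac {D : Set M} {hD : IsLow D} (hDh : ∀ m ∈ D, JLE h m → JLE m h) :
    ∀ q ∈ idl π hπ D hD, q ∈ AddSubmonoid.closure {q : Q |
      q ∈ idl π hπ {m : M | ¬ JLE h m} (isLow_notge h) ∨ ∃ a b, q = a * grp π L 1 * b} := by
  intro q hq
  refine idl_induction π hπ hq (AddSubmonoid.zero_mem _)
    (fun x y h h' => AddSubmonoid.add_mem _ h h') ?_
  intro m hm c
  apply AddSubmonoid.subset_closure
  by_cases h1 : JLE h m
  · obtain ⟨p, r, hpr⟩ := hDh m hm h1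
    refine Or.inr ⟨π (MonoidAlgebra.single p c), π (MonoidAlgebra.single r 1), ?_⟩
    rw [grp_one, ← map_mul, ← map_mul, single_mul_single, single_mul_single, mul_one, mul_one,
      ← hpr]
  · left
    rw [mem_idl]
    exact ⟨_, SupIn.single h1 c, rfl⟩

end Corner

end Pool.Agent.H.MP_a22eb7_al.Lay
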