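import Pool.Agent.H.MP_a22eb7_al.helper44.Mon

set_option autoImplicit false
set_option linter.unusedSectionVars false

namespace Pool.Agent.H.MP_a22eb7_al.Lay

open MonoidAlgebra

variable {M K : Type*} [Monoid M] [Ring K]

/-- (H2) above `e`: a descending `J`-chain of elements above `e` is not strict. -/
def Desc (M : Type*) [Monoid M] (e : M) : Prop :=
  ∀ s : ℕ → M, (∀ n, JLE e (s n)) → (∀ n, JLE (s (n + 1)) (s n)) → ∃ n, JLE (s n) (s (n + 1))

/-- (H3) above `e`: a `J`-class above `e` with two elements whose product stays in the class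
contains an idempotent. -/
def RegNull (M : Type*) [Monoid M] (e : M) : Prop :=
  ∀ a b : M, JLE e a → JLE e b → JLE a (a * b) → JLE b (a * b) →
    ∃ g : M, g * g = g ∧ JLE g a ∧ JLE a g

theorem single_pow' (m : M) (c : K) (n : ℕ) :
    (MonoidAlgebra.single m c) ^ n = MonoidAlgebra.single (m ^ n) (c ^ n) := by
  induction n with
  | zero => simp [MonoidAlgebra.one_def]
  | succ n ih => rw [pow_succ, ih, single_mul_single, pow_succ, pow_succ]

/-- The Fitting idempotent of an element `t` with `t^k` in the `J`-class of `t^(2k)`. -/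
theorem exists_fitting (hM : Tame M) {a g t : M} (hg : g * g = g) (hga : JLE g a) (hag : JLE a g)
    (haa : JLE a (a * a)) (hta : t * a = a * t) :
    ∃ ε b : M, ε * ε = ε ∧ a * b = ε ∧ a * ε = a ∧ t * ε = ε * t := by
  obtain ⟨u, v, huv⟩ := hag
  obtain ⟨p, hp⟩ : ∃ p, p = u * g := ⟨_, rfl⟩
  obtain ⟨q, hq⟩ : ∃ q, q = g * v := ⟨_, rfl⟩
  have hpg : p * g = p := by rw [hp, mul_assoc, hg]
  have hgq : g * q = q := by rw [hq, ← mul_assoc, hg]
  have hpq : p * q = a := by
    calc p * q = u * (g * g) * v := by rw [hp, hq]; simp only [mul_assoc]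
      _ = a := by rw [hg, ← huv]
  have hw : JLE g (q * p) := by
    refine (hga.trans haa).trans ⟨p, q, ?_⟩
    rw [← hpq]; simp only [mul_assoc]
  obtain ⟨r, hgr, hrg, hwr, hrw⟩ := hM.exists_inv hg (w := q * p)
    (by rw [← mul_assoc, hgq]) (by rw [mul_assoc, hpg]) hw
  have e1 : a * (p * r * q) = a := by
    calc a * (p * r * q) = p * (q * p * r) * q := by rw [← hpq]; simp only [mul_assoc]
      _ = a := by rw [hwr, hpg, hpq]
  have e2 : (p * r * q) * a = a := by
    calc (p * r * q) * a = p * (r * (q * p)) * q := by rw [← hpq]; simp only [mul_assoc]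
      _ = a := by rw [hrw, hpg, hpq]
  have e3 : a * (p * r * r * q) = p * r * q := by
    calc a * (p * r * r * q) = p * (q * p * r) * r * q := by rw [← hpq]; simp only [mul_assoc]
      _ = p * r * q := by rw [hwr, hpg]
  have e4 : (p * r * r * q) * a = p * r * q := by
    calc (p * r * r * q) * a = p * r * (r * (q * p)) * q := by rw [← hpq]; simp only [mul_assoc]
      _ = p * r * q := by rw [hrw, mul_assoc p r g, hrg]
  have e5 : (p * r * q) * (p * r * q) = p * r * q := by
    calc (p * r * q) * (p * r * q) = p * r * (q * p * r) * q := by simp only [mul_assoc]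
      _ = p * r * q := by rw [hwr, mul_assoc p r g, hrg]
  obtain ⟨ε, hε⟩ : ∃ ε, ε = p * r * q := ⟨_, rfl⟩
  obtain ⟨b, hb⟩ : ∃ b, b = p * r * r * q := ⟨_, rfl⟩
  rw [← hε] at e1 e2 e3 e4 e5
  rw [← hb] at e3 e4
  refine ⟨ε, b, e5, e3, e1, ?_⟩
  have k1 : ε * (t * ε) = t * ε := by
    calc ε * (t * ε) = ε * ((t * a) * b) := by rw [← e3]; simp only [mul_assoc]
      _ = (ε * a) * t * b := by rw [hta]; simp only [mul_assoc]
      _ = t * a * b := by rw [e2, ← hta]
      _ = t * ε := by rw [mul_assoc, e3]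
  have k2 : (ε * t) * ε = ε * t := by
    calc (ε * t) * ε = b * (a * t) * ε := by rw [← e4]; simp only [mul_assoc]
      _ = b * t * (a * ε) := by rw [← hta]; simp only [mul_assoc]
      _ = b * (t * a) := by rw [e1, mul_assoc]
      _ = ε * t := by rw [hta, ← mul_assoc, e4]
  rw [← k1, ← mul_assoc, k2]

theorem null_elem (hM : Tame M) {e : M} (h2 : Desc M e) (h3 : RegNull M e)
    {Q : Type*} [Ring Q] (π : MonoidAlgebra K M →+* Q) (hπ : Function.Surjective π)
    (hker : ∀ x, π x = 0 ↔ ∀ m, JLE e m → x.coeff m = 0)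
    {D C : Set M} (hD : IsLow D) (hC : IsLow C) {t : M} (htD : t ∈ D) (htC : t * t ∈ C) (c : K) :
    ∃ y, y ∈ idl π hπ D hD ∧ IsNilpotent y ∧ y - π (MonoidAlgebra.single t c) ∈ idl π hπ C hC := by
  by_cases hk : ∃ k, ¬ JLE e (t ^ k)
  · obtain ⟨k, hk⟩ := hk
    refine ⟨π (MonoidAlgebra.single t c), ?_, ⟨k, ?_⟩, ?_⟩
    · rw [mem_idl]; exact ⟨_, SupIn.single htD c, rfl⟩
    · rw [← map_pow, single_pow', hker]
      intro m hm
      classical
      rw [coeff_single, Finsupp.single_apply, if_neg]
      rintro rfl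
      exact hk hm
    · rw [sub_self]; exact TwoSidedIdeal.zero_mem _
  · push Not at hk
    obtain ⟨n, hn⟩ := h2 (fun n => t ^ (2 ^ n)) (fun n => hk _) (fun n => by
      show JLE (t ^ (2 ^ (n + 1))) (t ^ (2 ^ n))
      rw [pow_succ 2 n, mul_two, pow_add]
      exact JLE.mul_left_self _ _)
    change JLE (t ^ (2 ^ n)) (t ^ (2 ^ (n + 1))) at hn
    rw [pow_succ 2 n, mul_two, pow_add] at hn
    obtain ⟨k, hk1⟩ : ∃ k, 2 ^ n = k + 1 := ⟨2 ^ n - 1, by
      have : 0 < 2 ^ n := by positivity
      omega⟩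
    rw [hk1] at hn
    obtain ⟨g, hg, hga, hag⟩ := h3 _ _ (hk (k + 1)) (hk (k + 1)) hn hn
    obtain ⟨ε, b, hε, hab, haε, htε⟩ := exists_fitting hM hg hga hag hn
      (t := t) (by rw [← pow_succ, ← pow_succ'])
    have htεC : t * ε ∈ C := by
      refine hC _ _ ?_ htC
      refine ⟨1, t ^ k * b, ?_⟩
      rw [← hab, pow_succ']
      simp only [mul_assoc, one_mul]
    have hcomm : Commute (MonoidAlgebra.single t c) (1 - MonoidAlgebra.single ε (1 : K)) := by
      refine Commute.sub_right (Commute.one_right _) ?_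
      show MonoidAlgebra.single t c * MonoidAlgebra.single ε 1 =
        MonoidAlgebra.single ε 1 * MonoidAlgebra.single t c
      rw [single_mul_single, single_mul_single, htε, mul_one, one_mul]
    have hidem : (1 - MonoidAlgebra.single ε (1 : K)) * (1 - MonoidAlgebra.single ε (1 : K)) =
        1 - MonoidAlgebra.single ε (1 : K) := by
      have : MonoidAlgebra.single ε (1 : K) * MonoidAlgebra.single ε (1 : K) =
          MonoidAlgebra.single ε (1 : K) := by rw [single_mul_single, hε, one_mul]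
      rw [mul_sub, sub_mul, sub_mul, this]
      noncomm_ring
    have hpow : ∀ k : ℕ, (1 - MonoidAlgebra.single ε (1 : K)) ^ (k + 1) =
        1 - MonoidAlgebra.single ε (1 : K) := by
      intro k
      induction k with
      | zero => rw [zero_add, pow_one]
      | succ k ih => rw [pow_succ, ih, hidem]
    refine ⟨π (MonoidAlgebra.single t c * (1 - MonoidAlgebra.single ε 1)), ?_, ⟨k + 1, ?_⟩, ?_⟩
    · rw [mem_idl]; exact ⟨_, (SupIn.single htD c).mul_right hD _, rfl⟩
    · rw [← map_pow, hcomm.mul_pow, hpow, single_pow', mul_sub, mul_one, single_mul_single, haε,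
        mul_one, sub_self, map_zero]
    · rw [← map_sub, mem_idl]
      refine ⟨_, ?_, rfl⟩
      have : MonoidAlgebra.single t c * (1 - MonoidAlgebra.single ε 1) - MonoidAlgebra.single t c =
          - MonoidAlgebra.single (t * ε) c := by
        rw [mul_sub, mul_one, single_mul_single, mul_one]
        abel
      rw [this]
      exact (SupIn.single htεC c).neg

end Pool.Agent.H.MP_a22eb7_al.Lay
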