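import Mathlib

set_option autoImplicit false

namespace Pool.Agent.H.MP_a22eb7_al.Lay

/-- A (non-unital) ring homomorphism `φ : H → A` is an isomorphism from `H` onto the corner
`φ(1) A φ(1)` modulo the two-sided ideal `c`. -/
structure IsCorner {A H : Type*} [Ring A] [Ring H] (φ : H →ₙ+* A) (c : TwoSidedIdeal A) :
    Prop where
  surj : ∀ y : A, ∃ x : H, φ 1 * y * φ 1 - φ x ∈ c
  inj : ∀ x : H, φ x ∈ c → x = 0

section
variable {A H : Type*} [Ring A] [Ring H]

theorem corner_idem (φ : H →ₙ+* A) : φ 1 * φ 1 = φ 1 := by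
  rw [← map_mul, one_mul]

theorem lemmaA (φ : H →ₙ+* A) (hφ : IsCorner φ ⊥) (hH : ∀ a b : H, a * b = 1 → b * a = 1)
    {P D₁ D₂ : A} (hP : P * φ 1 = P) (h1 : φ 1 * D₁ = D₁) (h2 : φ 1 * D₂ = D₂)
    (h : (1 + P * D₁) * (1 + P * D₂) = 1) : (1 + P * D₂) * (1 + P * D₁) = 1 := by
  obtain ⟨g, hg⟩ : ∃ g, g = φ 1 := ⟨_, rfl⟩
  have hgg : g * g = g := by rw [hg]; exact corner_idem φ
  rw [← hg] at hP h1 h2
  obtain ⟨E, hE⟩ : ∃ E, E = D₁ + D₂ + D₁ * P * D₂ := ⟨_, rfl⟩
  have hPE : P * E = 0 := by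
    have : P * E = (1 + P * D₁) * (1 + P * D₂) - 1 := by rw [hE]; noncomm_ring
    rw [this, h, sub_self]
  have hgE : g * E = E := by
    rw [hE, mul_add, mul_add, h1, h2, ← mul_assoc, ← mul_assoc, h1]
  -- the corner elements
  obtain ⟨u, hu⟩ : ∃ u, u = g + D₁ * P := ⟨_, rfl⟩
  obtain ⟨v, hv⟩ : ∃ v, v = (g + D₂ * P) * (g - E * P) := ⟨_, rfl⟩
  have hgu : g * u * g = u := by
    rw [hu, mul_add, add_mul, hgg, hgg, ← mul_assoc, h1, mul_assoc, hP]
  have hgv : g * v * g = v := by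
    have e1 : g * (g + D₂ * P) = g + D₂ * P := by rw [mul_add, hgg, ← mul_assoc, h2]
    have e2 : (g - E * P) * g = g - E * P := by rw [sub_mul, hgg, mul_assoc, hP]
    rw [hv, ← mul_assoc, e1, mul_assoc, e2]
  have huv : u * v = g := by
    have e1 : (g + D₁ * P) * (g + D₂ * P) = g + E * P := by
      rw [hE]
      calc (g + D₁ * P) * (g + D₂ * P)
          = g * g + g * D₂ * P + D₁ * (P * g) + D₁ * P * D₂ * P := by noncomm_ring
        _ = g + (D₁ + D₂ + D₁ * P * D₂) * P := by rw [hgg, h2, hP]; noncomm_ring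
    rw [hu, hv, ← mul_assoc, e1]
    calc (g + E * P) * (g - E * P) = g * g - g * E * P + E * (P * g) - E * (P * E) * P := by
          noncomm_ring
      _ = g := by rw [hgg, hgE, hP, hPE]; noncomm_ring
  obtain ⟨u', hu'⟩ := hφ.surj u
  obtain ⟨v', hv'⟩ := hφ.surj v
  rw [← hg, hgu, TwoSidedIdeal.mem_bot, sub_eq_zero] at hu'
  rw [← hg, hgv, TwoSidedIdeal.mem_bot, sub_eq_zero] at hv'
  have h3 : u' * v' = 1 := by
    rw [← sub_eq_zero]
    apply hφ.inj
    rw [TwoSidedIdeal.mem_bot, map_sub, map_mul, ← hu', ← hv', huv, ← hg, sub_self]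
  have h4 : v * u = g := by
    rw [hv', hu', ← map_mul, hH _ _ h3, hg]
  -- the inverse of `1 + P D₁`
  obtain ⟨V, hV⟩ : ∃ V, V = 1 + (v - g) := ⟨_, rfl⟩
  have hgv' : g * v = v := by rw [← hgv, ← mul_assoc, ← mul_assoc, hgg]
  have hvg' : v * g = v := by rw [← hgv, mul_assoc, hgg]
  have h5 : V * (1 + D₁ * P) = 1 := by
    have e1 : D₁ * P = u - g := by rw [hu]; abel
    rw [hV, e1]
    have hug : g * u = u := by rw [← hgu, ← mul_assoc, ← mul_assoc, hgg]
    calc (1 + (v - g)) * (1 + (u - g))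
        = 1 + (u - g) + (v - g) + (v * u - v * g - g * u + g * g) := by noncomm_ring
      _ = 1 := by rw [h4, hvg', hug, hgg]; abel
  have h6 : (1 - P * V * D₁) * (1 + P * D₁) = 1 := by
    calc (1 - P * V * D₁) * (1 + P * D₁) = 1 + P * D₁ - P * (V * (1 + D₁ * P)) * D₁ := by
          noncomm_ring
      _ = 1 := by rw [h5]; noncomm_ring
  have h7 : 1 - P * V * D₁ = 1 + P * D₂ := by
    calc 1 - P * V * D₁ = (1 - P * V * D₁) * ((1 + P * D₁) * (1 + P * D₂)) := by rw [h, mul_one]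
      _ = 1 + P * D₂ := by rw [← mul_assoc, h6, one_mul]
  rw [← h7]
  exact h6

/-- The quotient by a two-sided ideal. -/
theorem exists_quot.{u} {A : Type u} [Ring A] (c : TwoSidedIdeal A) :
    ∃ (B : Type u) (_ : Ring B) (f : A →+* B), Function.Surjective f ∧ ∀ y, f y = 0 ↔ y ∈ c := by
  refine ⟨c.ringCon.Quotient, inferInstance, c.ringCon.mk', RingCon.mk'_surjective _, fun y => ?_⟩
  rw [← TwoSidedIdeal.mem_ker, TwoSidedIdeal.ker_ringCon_mk']

theorem lemmaC (φ : H →ₙ+* A) (c : TwoSidedIdeal A) (hφ : IsCorner φ c)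
    {C D x Z : A} (hC : C * φ 1 = C) (hD : φ 1 * D = D) (hCC : C * C = 0) (hDD : D * D = 0)
    (hx : x - C * D ∈ c) (hZ1 : (1 + x) * Z - 1 ∈ c) (hZ2 : Z * (1 + x) - 1 ∈ c)
    (a : TwoSidedIdeal A) (hCa : C ∈ a) (hDa : D ∈ a) (h1a : φ 1 ∈ a) :
    ∃ W W' : A, W * W' = 1 ∧ W' * W = 1 ∧ W - 1 ∈ a ∧ W - (1 + x) ∈ c := by
  obtain ⟨B, _, f, -, hf⟩ := exists_quot c
  obtain ⟨T, hT⟩ := hφ.surj (D * C)
  obtain ⟨V, hV⟩ := hφ.surj (1 - D * Z * C)
  obtain ⟨g, hg⟩ : ∃ g, g = φ 1 := ⟨_, rfl⟩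
  have hgg : g * g = g := by rw [hg]; exact corner_idem φ
  rw [← hg] at hC hD hT hV h1a
  have e1 : g * (D * C) * g = D * C := by rw [← mul_assoc, hD, mul_assoc, hC]
  have e2 : g * (1 - D * Z * C) * g = g - D * Z * C := by
    rw [mul_sub, sub_mul, mul_one, hgg, ← mul_assoc, ← mul_assoc, hD, mul_assoc, hC]
  rw [e1] at hT
  rw [e2] at hV
  -- equalities in the quotient
  have qx : f x = f C * f D := by
    have := (hf _).2 hx
    rwa [map_sub, sub_eq_zero, map_mul] at this
  have q1 : (1 + f C * f D) * f Z = 1 := by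
    have := (hf _).2 hZ1
    rwa [map_sub, sub_eq_zero, map_mul, map_add, map_one, qx] at this
  have q2 : f Z * (1 + f C * f D) = 1 := by
    have := (hf _).2 hZ2
    rwa [map_sub, sub_eq_zero, map_mul, map_add, map_one, qx] at this
  have qT : f (φ T) = f D * f C := by
    have := (hf _).2 hT
    rw [map_sub, sub_eq_zero, map_mul] at this
    exact this.symm
  have qV : f (φ V) = f g - f D * f Z * f C := by
    have := (hf _).2 hV
    rw [map_sub, sub_eq_zero, map_sub, map_mul, map_mul] at this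
    exact this.symm
  have qC : f C * f g = f C := by rw [← map_mul, hC]
  have qD : f g * f D = f D := by rw [← map_mul, hD]
  have k1 : (1 + T) * V = 1 := by
    rw [← sub_eq_zero]
    apply hφ.inj
    rw [← hf, map_sub, map_mul, map_add, ← hg, map_sub, map_mul, map_add, qT, qV]
    calc (f g + f D * f C) * (f g - f D * f Z * f C) - f g
        = f g * f g - (f g * f D) * f Z * f C + f D * (f C * f g)
            - f D * (f C * f D) * f Z * f C - f g := by noncomm_ring
      _ = f D * f C - f D * ((1 + f C * f D) * f Z) * f C := by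
          rw [← map_mul f g g, hgg, qC, qD]; noncomm_ring
      _ = 0 := by rw [q1]; noncomm_ring
  have k2 : V * (1 + T) = 1 := by
    rw [← sub_eq_zero]
    apply hφ.inj
    rw [← hf, map_sub, map_mul, map_add, ← hg, map_sub, map_mul, map_add, qT, qV]
    calc (f g - f D * f Z * f C) * (f g + f D * f C) - f g
        = f g * f g - f D * f Z * (f C * f g) + (f g * f D) * f C
            - f D * f Z * (f C * f D) * f C - f g := by noncomm_ring
      _ = f D * f C - f D * (f Z * (1 + f C * f D)) * f C := by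
          rw [← map_mul f g g, hgg, qC, qD]; noncomm_ring
      _ = 0 := by rw [q2]; noncomm_ring
  have k3 : (1 + φ T) * (1 + φ (V - 1)) = 1 := by
    have h3 : φ T * φ (V - 1) = φ (1 - V) - φ T := by
      have : T * (V - 1) = (1 + T) * V - V - T := by noncomm_ring
      rw [← map_mul, this, k1, map_sub]
    have h4 : φ (1 - V) = - φ (V - 1) := by rw [← map_neg]; congr 1; abel
    calc (1 + φ T) * (1 + φ (V - 1)) = 1 + φ T + φ (V - 1) + φ T * φ (V - 1) := by noncomm_ring
      _ = 1 := by rw [h3, h4]; abel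
  have k4 : (1 + φ (V - 1)) * (1 + φ T) = 1 := by
    have h3 : φ (V - 1) * φ T = φ (1 - V) - φ T := by
      have : (V - 1) * T = V * (1 + T) - V - T := by noncomm_ring
      rw [← map_mul, this, k2, map_sub]
    have h4 : φ (1 - V) = - φ (V - 1) := by rw [← map_neg]; congr 1; abel
    calc (1 + φ (V - 1)) * (1 + φ T) = 1 + φ T + φ (V - 1) + φ (V - 1) * φ T := by noncomm_ring
      _ = 1 := by rw [h3, h4]; abel
  have c1 : (1 + C) * (1 - C) = 1 := by
    calc (1 + C) * (1 - C) = 1 - C * C := by noncomm_ring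
      _ = 1 := by rw [hCC, sub_zero]
  have c2 : (1 - C) * (1 + C) = 1 := by
    calc (1 - C) * (1 + C) = 1 - C * C := by noncomm_ring
      _ = 1 := by rw [hCC, sub_zero]
  have d1 : (1 + D) * (1 - D) = 1 := by
    calc (1 + D) * (1 - D) = 1 - D * D := by noncomm_ring
      _ = 1 := by rw [hDD, sub_zero]
  have d2 : (1 - D) * (1 + D) = 1 := by
    calc (1 - D) * (1 + D) = 1 - D * D := by noncomm_ring
      _ = 1 := by rw [hDD, sub_zero]
  refine ⟨(1 + C) * (1 + D) * (1 + φ T) * (1 - C) * (1 - D),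
    (1 + D) * (1 + C) * (1 + φ (V - 1)) * (1 - D) * (1 - C), ?_, ?_, ?_, ?_⟩
  · calc (1 + C) * (1 + D) * (1 + φ T) * (1 - C) * (1 - D) *
        ((1 + D) * (1 + C) * (1 + φ (V - 1)) * (1 - D) * (1 - C))
        = (1 + C) * (1 + D) * (1 + φ T) * (1 - C) * ((1 - D) *
        (1 + D)) * (1 + C) * (1 + φ (V - 1)) * (1 - D) * (1 - C) := by simp only [mul_assoc]
      _ = (1 + C) * (1 + D) * (1 + φ T) * ((1 - C) * (1 + C)) * (1 + φ (V - 1)) *
          (1 - D) * (1 - C) := by rw [d2, mul_one]; simp only [mul_assoc]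
      _ = (1 + C) * (1 + D) * ((1 + φ T) * (1 + φ (V - 1))) *
          (1 - D) * (1 - C) := by rw [c2, mul_one]; simp only [mul_assoc]
      _ = (1 + C) * ((1 + D) * (1 - D)) * (1 - C) := by
          rw [k3, mul_one]; simp only [mul_assoc]
      _ = 1 := by rw [d1, mul_one, c1]
  · calc (1 + D) * (1 + C) * (1 + φ (V - 1)) * (1 - D) * (1 - C) *
        ((1 + C) * (1 + D) * (1 + φ T) * (1 - C) * (1 - D))
        = (1 + D) * (1 + C) * (1 + φ (V - 1)) * (1 - D) * ((1 - C) *
        (1 + C)) * (1 + D) * (1 + φ T) * (1 - C) * (1 - D) := by simp only [mul_assoc]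
      _ = (1 + D) * (1 + C) * (1 + φ (V - 1)) * ((1 - D) * (1 + D)) * (1 + φ T) *
          (1 - C) * (1 - D) := by rw [c2, mul_one]; simp only [mul_assoc]
      _ = (1 + D) * (1 + C) * ((1 + φ (V - 1)) * (1 + φ T)) *
          (1 - C) * (1 - D) := by rw [d2, mul_one]; simp only [mul_assoc]
      _ = (1 + D) * ((1 + C) * (1 - C)) * (1 - D) := by
          rw [k4, mul_one]; simp only [mul_assoc]
      _ = 1 := by rw [c1, mul_one, d1]
  · have hTa : φ T ∈ a := by
      have : φ T = g * φ T := by rw [hg, ← map_mul, one_mul]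
      rw [this]
      exact a.mul_mem_right _ _ h1a
    obtain ⟨B', _, f', -, hf'⟩ := exists_quot a
    rw [← hf']
    simp only [map_sub, map_mul, map_add, map_one, (hf' _).2 hCa, (hf' _).2 hDa, (hf' _).2 hTa]
    simp
  · rw [← hf]
    simp only [map_sub, map_mul, map_add, map_one, qT, qx]
    have z1 : f C * f C = 0 := by rw [← map_mul, hCC, map_zero]
    have z2 : f D * f D = 0 := by rw [← map_mul, hDD, map_zero]
    generalize f C = c' at *
    generalize f D = d' at *
    have s1 : (1 + d' * c') * (1 - c') = 1 - c' + d' * c' := by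
      calc (1 + d' * c') * (1 - c') = 1 - c' + d' * c' - d' * (c' * c') := by noncomm_ring
        _ = _ := by rw [z1]; noncomm_ring
    have s2 : (1 + d') * ((1 - c' + d' * c') * (1 - d')) = 1 - c' + c' * d' := by
      calc (1 + d') * ((1 - c' + d' * c') * (1 - d'))
          = 1 - c' + c' * d' - d' * d' + (d' * d') * c' - (d' * d') * c' * d' := by noncomm_ring
        _ = _ := by rw [z2]; noncomm_ring
    calc (1 + c') * (1 + d') * (1 + d' * c') * (1 - c') * (1 - d') - (1 + c' * d')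
        = (1 + c') * ((1 + d') * (((1 + d' * c') * (1 - c')) * (1 - d'))) - (1 + c' * d') := by
          simp only [mul_assoc]
      _ = (1 + c') * (1 - c' + c' * d') - (1 + c' * d') := by rw [s1, s2]
      _ = - (c' * c') + (c' * c') * d' := by noncomm_ring
      _ = 0 := by rw [z1]; noncomm_ring

end

end Pool.Agent.H.MP_a22eb7_al.Lay
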