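import Pool.Agent.H.MP_a22eb7_al.helper44.RingA

set_option autoImplicit false

namespace Pool.Agent.H.MP_a22eb7_al.Lay

open Matrix

variable {Q : Type*} [Ring Q]

/-- Membership in the matrix ideal of a block matrix. -/
theorem fromBlocks_mem {ι κ : Type} [Fintype ι] [Fintype κ] [DecidableEq ι] [DecidableEq κ]
    (a : TwoSidedIdeal Q) {A : Matrix ι ι Q} {B : Matrix ι κ Q} {C : Matrix κ ι Q}
    {D : Matrix κ κ Q} (hA : ∀ i j, A i j ∈ a) (hB : ∀ i j, B i j ∈ a) (hC : ∀ i j, C i j ∈ a)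
    (hD : ∀ i j, D i j ∈ a) : fromBlocks A B C D ∈ a.matrix (ι ⊕ κ) := by
  rw [TwoSidedIdeal.mem_matrix]
  rintro (i | i) (j | j)
  · exact hA i j
  · exact hB i j
  · exact hC i j
  · exact hD i j

/-- The claim of the induction. -/
def Claim (b d : TwoSidedIdeal Q) : Prop :=
  ∀ (ι : Type) [Fintype ι] [DecidableEq ι] (x Y : Matrix ι ι Q), x ∈ d.matrix ι →
    (1 + x) * Y = 1 → Y * (1 + x) - 1 ∈ b.matrix ι → Y * (1 + x) = 1

/-- the lifting property of a matrix `x`. -/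
def Lift (a c : TwoSidedIdeal Q) {ι : Type} [Fintype ι] [DecidableEq ι] (x : Matrix ι ι Q) : Prop :=
  ∃ (κ : Type) (_ : Fintype κ) (_ : DecidableEq κ) (W W' : Matrix (ι ⊕ κ) (ι ⊕ κ) Q),
    W * W' = 1 ∧ W' * W = 1 ∧ W - 1 ∈ a.matrix (ι ⊕ κ) ∧
      W - (1 + fromBlocks x 0 0 0) ∈ c.matrix (ι ⊕ κ)

theorem one_add_fromBlocks {ι κ : Type} [Fintype ι] [Fintype κ] [DecidableEq ι] [DecidableEq κ]
    (x : Matrix ι ι Q) :
    (1 : Matrix (ι ⊕ κ) (ι ⊕ κ) Q) + fromBlocks x 0 0 0 = fromBlocks (1 + x) 0 0 1 := by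
  rw [← fromBlocks_one, fromBlocks_add]
  simp

theorem claim_step (a b c d : TwoSidedIdeal Q)
    (hlift : ∀ (ι : Type) [Fintype ι] [DecidableEq ι] (x Y : Matrix ι ι Q), x ∈ a.matrix ι →
      (1 + x) * Y = 1 → Y * (1 + x) - 1 ∈ b.matrix ι → Lift a c x)
    (hac : ∀ q, q ∈ a → q ∈ c → q ∈ d) (hd : Claim b d) : Claim b a := by
  intro ι _ _ x Y hx hxY hYx
  obtain ⟨κ, _, _, W, W', hWW, hWW', hWa, hWc⟩ := hlift ι x Y hx hxY hYx
  obtain ⟨X, hX⟩ : ∃ X : Matrix (ι ⊕ κ) (ι ⊕ κ) Q, X = fromBlocks x 0 0 0 := ⟨_, rfl⟩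
  obtain ⟨Y', hY'⟩ : ∃ Y' : Matrix (ι ⊕ κ) (ι ⊕ κ) Q, Y' = fromBlocks Y 0 0 1 := ⟨_, rfl⟩
  have hX1 : 1 + X = fromBlocks (1 + x) 0 0 1 := by rw [hX]; exact one_add_fromBlocks x
  rw [← hX] at hWc
  have hXY : (1 + X) * Y' = 1 := by
    rw [hX1, hY', fromBlocks_multiply]
    simp [hxY]
  have hYX : Y' * (1 + X) = fromBlocks (Y * (1 + x)) 0 0 1 := by
    rw [hX1, hY', fromBlocks_multiply]
    simp
  have hYXb : Y' * (1 + X) - 1 ∈ b.matrix (ι ⊕ κ) := by
    have : Y' * (1 + X) - 1 = fromBlocks (Y * (1 + x) - 1) 0 0 0 := by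
      rw [hYX, ← fromBlocks_one, sub_eq_add_neg, fromBlocks_neg, fromBlocks_add]
      simp [sub_eq_add_neg]
    rw [this]
    rw [TwoSidedIdeal.mem_matrix] at hYx
    exact fromBlocks_mem b hYx (fun _ _ => b.zero_mem) (fun _ _ => b.zero_mem)
      (fun _ _ => b.zero_mem)
  have hXa : X ∈ a.matrix (ι ⊕ κ) := by
    rw [hX]
    rw [TwoSidedIdeal.mem_matrix] at hx
    exact fromBlocks_mem a hx (fun _ _ => a.zero_mem) (fun _ _ => a.zero_mem)
      (fun _ _ => a.zero_mem)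
  have key := hd (ι ⊕ κ) ((1 + X) * W' - 1) (W * Y') ?_ ?_ ?_
  · rw [add_sub_cancel] at key
    have h1 : Y' * (1 + X) = 1 := by
      calc Y' * (1 + X) = (W' * W) * (Y' * (1 + X)) * (W' * W) := by rw [hWW']; simp
        _ = W' * (W * Y' * ((1 + X) * W')) * W := by simp only [mul_assoc]
        _ = 1 := by rw [key, mul_one, hWW']
    rw [hYX, ← fromBlocks_one] at h1
    exact (fromBlocks_inj.1 h1).1
  · have e1 : (1 + X) * W' - 1 = (X - (W - 1)) * W' := by
      calc (1 + X) * W' - 1 = (1 + X) * W' - W * W' := by rw [hWW]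
        _ = _ := by noncomm_ring
    have ha : (1 + X) * W' - 1 ∈ a.matrix (ι ⊕ κ) := by
      rw [e1]
      exact (a.matrix _).mul_mem_right _ _ ((a.matrix _).sub_mem hXa hWa)
    have hc : (1 + X) * W' - 1 ∈ c.matrix (ι ⊕ κ) := by
      rw [e1]
      refine (c.matrix _).mul_mem_right _ _ ?_
      have : X - (W - 1) = -(W - (1 + X)) := by abel
      rw [this]
      exact (c.matrix _).neg_mem hWc
    rw [TwoSidedIdeal.mem_matrix] at ha hc ⊢
    exact fun i j => hac _ (ha i j) (hc i j)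
  · rw [add_sub_cancel]
    calc (1 + X) * W' * (W * Y') = (1 + X) * (W' * W) * Y' := by simp only [mul_assoc]
      _ = 1 := by rw [hWW', mul_one, hXY]
  · rw [add_sub_cancel]
    have : W * Y' * ((1 + X) * W') - 1 = W * (Y' * (1 + X) - 1) * W' := by
      calc W * Y' * ((1 + X) * W') - 1 = W * Y' * ((1 + X) * W') - W * W' := by rw [hWW]
        _ = _ := by noncomm_ring
    rw [this]
    exact (b.matrix _).mul_mem_right _ _ ((b.matrix _).mul_mem_left _ _ hYXb)

/-! ### The null case -/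

/-- a same-size lift -/
def Lift' (a c : TwoSidedIdeal Q) {ι : Type} [Fintype ι] [DecidableEq ι] (x : Matrix ι ι Q) :
    Prop := ∃ (W W' : Matrix ι ι Q),
    W * W' = 1 ∧ W' * W = 1 ∧ W - 1 ∈ a.matrix ι ∧ W - (1 + x) ∈ c.matrix ι

theorem Lift'.lift {a c : TwoSidedIdeal Q} {ι : Type} [Fintype ι] [DecidableEq ι]
    {x : Matrix ι ι Q} (h : Lift' a c x) : Lift a c x := by
  obtain ⟨W, W', h1, h2, h3, h4⟩ := h
  rw [TwoSidedIdeal.mem_matrix] at h3 h4
  refine ⟨Unit, inferInstance, inferInstance, fromBlocks W 0 0 1, fromBlocks W' 0 0 1, ?_, ?_,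
    ?_, ?_⟩
  · rw [fromBlocks_multiply]; simp [h1]
  · rw [fromBlocks_multiply]; simp [h2]
  · have : fromBlocks W 0 0 1 - 1 = fromBlocks (W - 1) 0 0 (0 : Matrix Unit Unit Q) := by
      rw [← fromBlocks_one, sub_eq_add_neg, fromBlocks_neg, fromBlocks_add]
      simp [sub_eq_add_neg]
    rw [this]
    exact fromBlocks_mem a h3 (fun _ _ => a.zero_mem) (fun _ _ => a.zero_mem)
      (fun _ _ => a.zero_mem)
  · have : fromBlocks W 0 0 1 - (1 + fromBlocks x 0 0 0) =
        fromBlocks (W - (1 + x)) 0 0 (0 : Matrix Unit Unit Q) := by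
      rw [one_add_fromBlocks, sub_eq_add_neg, fromBlocks_neg, fromBlocks_add]
      simp [sub_eq_add_neg]
    rw [this]
    exact fromBlocks_mem c h4 (fun _ _ => c.zero_mem) (fun _ _ => c.zero_mem)
      (fun _ _ => c.zero_mem)

theorem mul_mem_of_mul_mem {a c : TwoSidedIdeal Q} (hac : ∀ p ∈ a, ∀ q ∈ a, p * q ∈ c)
    {ι : Type} [Fintype ι] [DecidableEq ι] {x y : Matrix ι ι Q} (hx : x ∈ a.matrix ι)
    (hy : y ∈ a.matrix ι) : x * y ∈ c.matrix ι := by
  rw [TwoSidedIdeal.mem_matrix] at hx hy ⊢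
  intro i j
  rw [Matrix.mul_apply]
  exact sum_mem fun k _ => hac _ (hx i k) _ (hy k j)

theorem Lift'.zero (a c : TwoSidedIdeal Q) {ι : Type} [Fintype ι] [DecidableEq ι] :
    Lift' a c (0 : Matrix ι ι Q) := by
  refine ⟨1, 1, mul_one _, mul_one _, ?_, ?_⟩
  · rw [sub_self]; exact (a.matrix _).zero_mem
  · rw [add_zero, sub_self]; exact (c.matrix _).zero_mem

theorem Lift'.add {a c : TwoSidedIdeal Q} (hac : ∀ p ∈ a, ∀ q ∈ a, p * q ∈ c)
    {ι : Type} [Fintype ι] [DecidableEq ι] {x y : Matrix ι ι Q} (hxa : x ∈ a.matrix ι)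
    (hya : y ∈ a.matrix ι) (hx : Lift' a c x) (hy : Lift' a c y) : Lift' a c (x + y) := by
  obtain ⟨W, W', h1, h2, h3, h4⟩ := hx
  obtain ⟨V, V', k1, k2, k3, k4⟩ := hy
  refine ⟨W * V, V' * W', ?_, ?_, ?_, ?_⟩
  · calc W * V * (V' * W') = W * (V * V') * W' := by simp only [mul_assoc]
      _ = 1 := by rw [k1, mul_one, h1]
  · calc V' * W' * (W * V) = V' * (W' * W) * V := by simp only [mul_assoc]
      _ = 1 := by rw [h2, mul_one, k2]
  · have : W * V - 1 = (W - 1) * V + (V - 1) := by noncomm_ring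
    rw [this]
    exact (a.matrix _).add_mem ((a.matrix _).mul_mem_right _ _ h3) k3
  · have : W * V - (1 + (x + y)) = (W - (1 + x)) * V + (1 + x) * (V - (1 + y)) + x * y := by
      noncomm_ring
    rw [this]
    exact (c.matrix _).add_mem ((c.matrix _).add_mem ((c.matrix _).mul_mem_right _ _ h4)
      ((c.matrix _).mul_mem_left _ _ k4)) (mul_mem_of_mul_mem hac hxa hya)

theorem Lift'.of_nilpotent {a c : TwoSidedIdeal Q} {ι : Type} [Fintype ι] [DecidableEq ι]
    {x y : Matrix ι ι Q} (hy : IsNilpotent y) (hya : y ∈ a.matrix ι) (hxy : y - x ∈ c.matrix ι) :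
    Lift' a c x := by
  obtain ⟨u, hu⟩ := hy.isUnit_one_add
  refine ⟨u, (u⁻¹ : (Matrix ι ι Q)ˣ), u.mul_inv, u.inv_mul, ?_, ?_⟩
  · rw [hu, add_sub_cancel_left]; exact hya
  · rw [hu]
    have : 1 + y - (1 + x) = y - x := by abel
    rw [this]; exact hxy

theorem isNilpotent_single {ι : Type} [Fintype ι] [DecidableEq ι] (i j : ι) {y : Q}
    (hy : IsNilpotent y) : IsNilpotent (Matrix.single i j y) := by
  by_cases hij : i = j
  · subst hij
    obtain ⟨n, hn⟩ := hy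
    refine ⟨n + 1, ?_⟩
    have h : ∀ n : ℕ, Matrix.single i i y ^ (n + 1) = Matrix.single i i (y ^ (n + 1)) := by
      intro n
      induction n with
      | zero => simp
      | succ n ih => rw [pow_succ, ih, Matrix.single_mul_single_same, ← pow_succ]
    rw [h, pow_succ, hn, zero_mul, Matrix.single_zero]
  · refine ⟨2, ?_⟩
    rw [pow_two]
    exact Matrix.single_mul_single_of_ne _ _ _ _ (Ne.symm hij) _

theorem single_mem {ι : Type} [Fintype ι] [DecidableEq ι] (a : TwoSidedIdeal Q) (i j : ι) {y : Q}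
    (hy : y ∈ a) : Matrix.single i j y ∈ a.matrix ι := by
  rw [TwoSidedIdeal.mem_matrix]
  intro i' j'
  rw [Matrix.single_apply]
  split_ifs
  · exact hy
  · exact a.zero_mem

theorem Lift'.sum {a c : TwoSidedIdeal Q} (hac : ∀ p ∈ a, ∀ q ∈ a, p * q ∈ c)
    {ι : Type} [Fintype ι] [DecidableEq ι] {σ : Type} (s : Finset σ) (f : σ → Matrix ι ι Q)
    (h : ∀ k, f k ∈ a.matrix ι ∧ Lift' a c (f k)) :
    (∑ k ∈ s, f k) ∈ a.matrix ι ∧ Lift' a c (∑ k ∈ s, f k) := by
  classical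
  induction s using Finset.induction_on with
  | empty => exact ⟨by rw [Finset.sum_empty]; exact (a.matrix _).zero_mem, by
      rw [Finset.sum_empty]; exact Lift'.zero a c⟩
  | insert k s hk ih =>
    rw [Finset.sum_insert hk]
    exact ⟨(a.matrix _).add_mem (h k).1 ih.1, Lift'.add hac (h k).1 ih.1 (h k).2 ih.2⟩

/-- The null case of the lifting lemma. -/
theorem lift_null {a c : TwoSidedIdeal Q} (hac : ∀ p ∈ a, ∀ q ∈ a, p * q ∈ c)
    (hnil : ∀ q ∈ a, q ∈ AddSubmonoid.closure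
      {q : Q | q ∈ a ∧ ∃ y, y ∈ a ∧ IsNilpotent y ∧ y - q ∈ c})
    {ι : Type} [Fintype ι] [DecidableEq ι] {x : Matrix ι ι Q} (hx : x ∈ a.matrix ι) :
    Lift' a c x := by
  have h1 : ∀ i j : ι, ∀ q ∈ a, Matrix.single i j q ∈ a.matrix ι ∧
      Lift' a c (Matrix.single i j q) := by
    intro i j q hq
    refine ⟨single_mem a i j hq, ?_⟩
    suffices h : q ∈ a ∧ Lift' a c (Matrix.single i j q) from h.2
    have hq' := hnil q hq
    clear hq
    induction hq' using AddSubmonoid.closure_induction with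
    | mem q hq =>
      obtain ⟨hqa, y, hya, hy, hyq⟩ := hq
      refine ⟨hqa, ?_⟩
      refine Lift'.of_nilpotent (isNilpotent_single i j hy) (single_mem a i j hya) ?_
      have : Matrix.single i j y - Matrix.single i j q = Matrix.single i j (y - q) := by
        rw [sub_eq_add_neg y q, Matrix.single_add, sub_eq_add_neg]
        congr 1
        ext i' j'
        rw [Matrix.neg_apply, Matrix.single_apply, Matrix.single_apply]
        split_ifs <;> simp
      rw [this]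
      exact single_mem c i j hyq
    | zero => exact ⟨a.zero_mem, by rw [Matrix.single_zero]; exact Lift'.zero a c⟩
    | add q q' _ _ h1 h3 =>
      obtain ⟨h1, h2⟩ := h1
      obtain ⟨h3, h4⟩ := h3
      refine ⟨a.add_mem h1 h3, ?_⟩
      rw [Matrix.single_add]
      exact Lift'.add hac (single_mem a i j h1) (single_mem a i j h3) h2 h4
  rw [TwoSidedIdeal.mem_matrix] at hx
  rw [Matrix.matrix_eq_sum_single x]
  exact (Lift'.sum hac Finset.univ _ fun i => Lift'.sum hac Finset.univ _ fun j =>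
    h1 i j _ (hx i j)).2

end Pool.Agent.H.MP_a22eb7_al.Lay
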