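import Pool.Agent.H.MP_a22eb7_al.helper44.RingB

set_option autoImplicit false

namespace Pool.Agent.H.MP_a22eb7_al.Lay

open Matrix

variable {Q H : Type*} [Ring Q] [Ring H]

/-- The block corner homomorphism. -/
def matCorner (φ : H →ₙ+* Q) (ι κ : Type) [Fintype ι] [DecidableEq ι] [Fintype κ]
    [DecidableEq κ] : Matrix κ κ H →ₙ+* Matrix (ι ⊕ κ) (ι ⊕ κ) Q where
  toFun T := fromBlocks 0 0 0 (T.map φ)
  map_mul' S T := by
    rw [fromBlocks_multiply]
    simp only [Matrix.zero_mul, Matrix.mul_zero, add_zero, zero_add]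
    congr 1
    ext i j
    simp [Matrix.mul_apply, map_sum]
  map_zero' := by
    have : (0 : Matrix κ κ H).map φ = 0 := by ext i j; simp
    rw [this, fromBlocks_zero]
  map_add' S T := by
    rw [fromBlocks_add]
    simp only [add_zero]
    congr 1
    ext i j
    simp

theorem matCorner_apply (φ : H →ₙ+* Q) (ι κ : Type) [Fintype ι] [DecidableEq ι] [Fintype κ]
    [DecidableEq κ] (T : Matrix κ κ H) :
    matCorner φ ι κ T = fromBlocks 0 0 0 (T.map φ) := rfl

theorem matCorner_one (φ : H →ₙ+* Q) (ι κ : Type) [Fintype ι] [DecidableEq ι] [Fintype κ]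
    [DecidableEq κ] :
    matCorner φ ι κ 1 = fromBlocks 0 0 0 (diagonal fun _ => φ 1) := by
  rw [matCorner_apply]
  congr 1
  ext i j
  by_cases h : i = j
  · subst h; simp
  · simp [h]

theorem IsCorner.mat {φ : H →ₙ+* Q} {c : TwoSidedIdeal Q} (h : IsCorner φ c) (ι κ : Type)
    [Fintype ι] [DecidableEq ι] [Fintype κ] [DecidableEq κ] :
    IsCorner (matCorner φ ι κ) (c.matrix (ι ⊕ κ)) := by
  constructor
  · intro y
    choose T hT using fun (i j : κ) => h.surj (y (Sum.inr i) (Sum.inr j))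
    refine ⟨Matrix.of T, ?_⟩
    rw [matCorner_one, matCorner_apply]
    have : fromBlocks 0 0 0 (diagonal fun _ => φ 1) * y * fromBlocks 0 0 0 (diagonal fun _ => φ 1)
        - fromBlocks 0 0 0 ((Matrix.of T).map φ) =
        fromBlocks (0 : Matrix ι ι Q) 0 0 (Matrix.of fun i j =>
          φ 1 * y (Sum.inr i) (Sum.inr j) * φ 1 - φ (T i j)) := by
      conv_lhs => rw [← fromBlocks_toBlocks y]
      rw [fromBlocks_multiply, fromBlocks_multiply, sub_eq_add_neg, fromBlocks_neg,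
        fromBlocks_add]
      simp only [Matrix.zero_mul, Matrix.mul_zero, add_zero, zero_add, neg_zero]
      congr 1
      ext i j
      rw [Matrix.add_apply, Matrix.mul_diagonal, Matrix.diagonal_mul]
      simp [toBlocks₂₂, sub_eq_add_neg]
    rw [this]
    exact fromBlocks_mem c (fun _ _ => c.zero_mem) (fun _ _ => c.zero_mem)
      (fun _ _ => c.zero_mem) (fun i j => hT i j)
  · intro T hT
    rw [matCorner_apply, TwoSidedIdeal.mem_matrix] at hT
    ext i j
    exact h.inj _ (hT (Sum.inr i) (Sum.inr j))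

/-- `x` is a product `C D` modulo `c`, with `C` supported in `Q h` and `D` in `h Q`. -/
def MFac (h : Q) (c : TwoSidedIdeal Q) {ι : Type} [Fintype ι] [DecidableEq ι]
    (x : Matrix ι ι Q) : Prop :=
  ∃ (κ : Type) (_ : Fintype κ) (_ : DecidableEq κ) (C : Matrix ι κ Q) (D : Matrix κ ι Q),
    (∀ i k, C i k * h = C i k) ∧ (∀ k i, h * D k i = D k i) ∧ x - C * D ∈ c.matrix ι

theorem MFac.of_mem {h : Q} {c : TwoSidedIdeal Q} {ι : Type} [Fintype ι] [DecidableEq ι]
    {x : Matrix ι ι Q} (hx : x ∈ c.matrix ι) : MFac h c x := by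
  refine ⟨Empty, inferInstance, inferInstance, 0, 0, ?_, ?_, ?_⟩
  · intro i k; exact k.elim
  · intro k; exact k.elim
  · simpa using hx

theorem MFac.add {h : Q} {c : TwoSidedIdeal Q} {ι : Type} [Fintype ι] [DecidableEq ι]
    {x y : Matrix ι ι Q} (hx : MFac h c x) (hy : MFac h c y) : MFac h c (x + y) := by
  obtain ⟨κ, _, _, C, D, h1, h2, h3⟩ := hx
  obtain ⟨κ', _, _, C', D', h1', h2', h3'⟩ := hy
  refine ⟨κ ⊕ κ', inferInstance, inferInstance, fromCols C C', fromRows D D', ?_, ?_, ?_⟩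
  · rintro i (k | k)
    · exact h1 i k
    · exact h1' i k
  · rintro (k | k) i
    · exact h2 k i
    · exact h2' k i
  · rw [fromCols_mul_fromRows]
    have : x + y - (C * D + C' * D') = (x - C * D) + (y - C' * D') := by abel
    rw [this]
    exact (c.matrix _).add_mem h3 h3'

theorem MFac.sum {h : Q} {c : TwoSidedIdeal Q} {ι : Type} [Fintype ι] [DecidableEq ι]
    {σ : Type} (s : Finset σ) (f : σ → Matrix ι ι Q) (hf : ∀ k, MFac h c (f k)) :
    MFac h c (∑ k ∈ s, f k) := by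
  classical
  induction s using Finset.induction_on with
  | empty => rw [Finset.sum_empty]; exact MFac.of_mem (c.matrix _).zero_mem
  | insert k s hk ih =>
    rw [Finset.sum_insert hk]
    exact (hf k).add ih

theorem MFac.of_entries {h : Q} (hh : h * h = h) {c : TwoSidedIdeal Q} {ι : Type} [Fintype ι]
    [DecidableEq ι] {x : Matrix ι ι Q}
    (hx : ∀ i j, x i j ∈ AddSubmonoid.closure {q : Q | q ∈ c ∨ ∃ a b, q = a * h * b}) :
    MFac h c x := by
  rw [Matrix.matrix_eq_sum_single x]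
  refine MFac.sum _ _ fun i => MFac.sum _ _ fun j => ?_
  have hq := hx i j
  generalize x i j = q at hq
  induction hq using AddSubmonoid.closure_induction with
  | mem q hq =>
    rcases hq with hq | ⟨a, b, rfl⟩
    · exact MFac.of_mem (single_mem c i j hq)
    · refine ⟨Unit, inferInstance, inferInstance, Matrix.single i () (a * h),
        Matrix.single () j (h * b), ?_, ?_, ?_⟩
      · intro i' k
        rw [Matrix.single_apply]
        split_ifs
        · rw [mul_assoc, hh]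
        · rw [zero_mul]
      · intro k j'
        rw [Matrix.single_apply]
        split_ifs
        · rw [← mul_assoc, hh]
        · rw [mul_zero]
      · rw [Matrix.single_mul_single_same, ← mul_assoc, mul_assoc a h h, hh, sub_self]
        exact (c.matrix _).zero_mem
  | zero => rw [Matrix.single_zero]; exact MFac.of_mem (c.matrix _).zero_mem
  | add q q' _ _ h1 h2 => rw [Matrix.single_add]; exact h1.add h2

theorem row_corner {ι κ : Type} [Fintype ι] [DecidableEq ι] [Fintype κ] [DecidableEq κ] {h : Q}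
    {C : Matrix ι κ Q} (hC : ∀ i k, C i k * h = C i k) :
    (fromBlocks 0 C 0 0 : Matrix (ι ⊕ κ) (ι ⊕ κ) Q) * fromBlocks 0 0 0 (diagonal fun _ => h) =
      fromBlocks 0 C 0 0 := by
  rw [fromBlocks_multiply]
  simp only [Matrix.zero_mul, Matrix.mul_zero, add_zero, zero_add]
  congr 1
  ext i k
  rw [Matrix.mul_diagonal, hC]

theorem col_corner {ι κ : Type} [Fintype ι] [DecidableEq ι] [Fintype κ] [DecidableEq κ] {h : Q}
    {D : Matrix κ ι Q} (hD : ∀ k i, h * D k i = D k i) :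
    fromBlocks 0 0 0 (diagonal fun _ => h) * (fromBlocks 0 0 D 0 : Matrix (ι ⊕ κ) (ι ⊕ κ) Q) =
      fromBlocks 0 0 D 0 := by
  rw [fromBlocks_multiply]
  simp only [Matrix.zero_mul, Matrix.mul_zero, add_zero, zero_add]
  congr 1
  ext i k
  rw [Matrix.diagonal_mul, hD]

/-- The regular case of the lifting lemma. -/
theorem lift_regular {φ : H →ₙ+* Q} {c : TwoSidedIdeal Q} (hφ : IsCorner φ c)
    {a : TwoSidedIdeal Q} (h1a : φ 1 ∈ a)
    (hfac : ∀ q ∈ a, q ∈ AddSubmonoid.closure {q : Q | q ∈ c ∨ ∃ a b, q = a * φ 1 * b})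
    {ι : Type} [Fintype ι] [DecidableEq ι] {x Y : Matrix ι ι Q} (hx : x ∈ a.matrix ι)
    (hxY : (1 + x) * Y = 1) (hYx : Y * (1 + x) - 1 ∈ c.matrix ι) : Lift a c x := by
  rw [TwoSidedIdeal.mem_matrix] at hx
  obtain ⟨κ, _, _, C, D, hC, hD, hxCD⟩ :=
    MFac.of_entries (corner_idem φ) fun i j => hfac _ (hx i j)
  rw [TwoSidedIdeal.mem_matrix] at hxCD hYx
  have e0 : (1 : Matrix (ι ⊕ κ) (ι ⊕ κ) Q) + fromBlocks x 0 0 0 = fromBlocks (1 + x) 0 0 1 :=
    one_add_fromBlocks x
  have key := lemmaC (matCorner φ ι κ) (c.matrix (ι ⊕ κ))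
    (hφ.mat ι κ) (C := fromBlocks 0 C 0 0) (D := fromBlocks 0 0 D 0)
    (x := fromBlocks x 0 0 0) (Z := fromBlocks Y 0 0 1) ?_ ?_ ?_ ?_ ?_ ?_ ?_ (a.matrix (ι ⊕ κ))
    ?_ ?_ ?_
  · obtain ⟨W, W', h1, h2, h3, h4⟩ := key
    exact ⟨κ, inferInstance, inferInstance, W, W', h1, h2, h3, h4⟩
  · rw [matCorner_one]; exact row_corner hC
  · rw [matCorner_one]; exact col_corner hD
  · rw [fromBlocks_multiply]; simp
  · rw [fromBlocks_multiply]; simp
  · have : (fromBlocks x 0 0 0 : Matrix (ι ⊕ κ) (ι ⊕ κ) Q)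
        - fromBlocks 0 C 0 0 * fromBlocks 0 0 D 0 =
        fromBlocks (x - C * D) 0 0 0 := by
      rw [fromBlocks_multiply, sub_eq_add_neg, fromBlocks_neg, fromBlocks_add]
      simp [sub_eq_add_neg]
    rw [this]
    exact fromBlocks_mem c hxCD (fun _ _ => c.zero_mem) (fun _ _ => c.zero_mem)
      (fun _ _ => c.zero_mem)
  · rw [e0, fromBlocks_multiply]
    simp only [Matrix.zero_mul, Matrix.mul_zero, add_zero, zero_add, mul_one, hxY,
      fromBlocks_one, sub_self]
    exact TwoSidedIdeal.zero_mem _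
  · rw [e0, fromBlocks_multiply, ← fromBlocks_one, sub_eq_add_neg, fromBlocks_neg, fromBlocks_add]
    simp only [Matrix.zero_mul, Matrix.mul_zero, add_zero, zero_add, mul_one, neg_zero,
      add_neg_cancel, ← sub_eq_add_neg]
    exact fromBlocks_mem c hYx (fun _ _ => c.zero_mem) (fun _ _ => c.zero_mem)
      (fun _ _ => c.zero_mem)
  · refine fromBlocks_mem a (fun _ _ => a.zero_mem) (fun i k => ?_) (fun _ _ => a.zero_mem)
      (fun _ _ => a.zero_mem)
    rw [← hC i k]
    exact a.mul_mem_left _ _ h1a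
  · refine fromBlocks_mem a (fun _ _ => a.zero_mem) (fun _ _ => a.zero_mem) (fun k i => ?_)
      (fun _ _ => a.zero_mem)
    rw [← hD k i]
    exact a.mul_mem_right _ _ h1a
  · rw [matCorner_one]
    refine fromBlocks_mem a (fun _ _ => a.zero_mem) (fun _ _ => a.zero_mem)
      (fun _ _ => a.zero_mem) (fun i j => ?_)
    rw [Matrix.diagonal_apply]
    split_ifs
    · exact h1a
    · exact a.zero_mem

/-- stable finiteness, over arbitrary finite index types -/
def SF (H : Type*) [Ring H] : Prop :=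
  ∀ (n : ℕ) (A B : Matrix (Fin n) (Fin n) H), A * B = 1 → B * A = 1

theorem SF.index {H : Type*} [Ring H] (h : SF H) (κ : Type) [Fintype κ] [DecidableEq κ]
    (A B : Matrix κ κ H) (hAB : A * B = 1) : B * A = 1 := by
  let e : κ ≃ Fin (Fintype.card κ) := Fintype.equivFin κ
  have h1 := h _ (A.submatrix e.symm e.symm) (B.submatrix e.symm e.symm) (by
    rw [Matrix.submatrix_mul_equiv, hAB, Matrix.submatrix_one_equiv])
  rw [Matrix.submatrix_mul_equiv] at h1
  ext i j
  have h2 := congrFun (congrFun h1 (e i)) (e j)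
  rw [Matrix.submatrix_apply, e.symm_apply_apply, e.symm_apply_apply] at h2
  rw [h2, Matrix.one_apply, Matrix.one_apply]
  simp

/-- The base of the induction. -/
theorem claim_base {φ : H →ₙ+* Q} (hφ : IsCorner φ ⊥) (hH : SF H) {b : TwoSidedIdeal Q}
    (hfac : ∀ q ∈ b, q ∈ AddSubmonoid.closure
      {q : Q | q ∈ (⊥ : TwoSidedIdeal Q) ∨ ∃ a b, q = a * φ 1 * b}) : Claim b b := by
  intro ι _ _ x Y hx hxY hYx
  obtain ⟨z, hz⟩ : ∃ z, z = Y - 1 := ⟨_, rfl⟩
  have hYz : Y = 1 + z := by rw [hz]; abel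
  rw [hYz] at hxY hYx ⊢
  have hzb : z ∈ b.matrix ι := by
    have : z = - (x * (1 + z)) := by
      have h1 : (1 + x) * (1 + z) = 1 + z + x * (1 + z) := by noncomm_ring
      rw [h1] at hxY
      calc z = (1 + z + x * (1 + z)) - 1 - x * (1 + z) := by abel
        _ = - (x * (1 + z)) := by rw [hxY]; abel
    rw [this]
    exact (b.matrix _).neg_mem ((b.matrix _).mul_mem_right _ _ hx)
  rw [TwoSidedIdeal.mem_matrix] at hx hzb
  obtain ⟨κ, _, _, C, D, hC, hD, hCD⟩ := MFac.of_entries (corner_idem φ) fun i j => hfac _ (hx i j)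
  obtain ⟨κ', _, _, C', D', hC', hD', hCD'⟩ :=
    MFac.of_entries (corner_idem φ) fun i j => hfac _ (hzb i j)
  rw [TwoSidedIdeal.matrix_bot, TwoSidedIdeal.mem_bot, sub_eq_zero] at hCD hCD'
  have e0 : ∀ x : Matrix ι ι Q,
      (1 : Matrix (ι ⊕ (κ ⊕ κ')) (ι ⊕ (κ ⊕ κ')) Q) + fromBlocks x 0 0 0 =
      fromBlocks (1 + x) 0 0 1 := fun x => one_add_fromBlocks x
  have e1 : (fromBlocks 0 (fromCols C C') 0 0 : Matrix (ι ⊕ (κ ⊕ κ')) (ι ⊕ (κ ⊕ κ')) Q) *
      fromBlocks 0 0 (fromRows D 0) 0 = fromBlocks x 0 0 0 := by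
    rw [fromBlocks_multiply, fromCols_mul_fromRows]
    simp [hCD]
  have e2 : (fromBlocks 0 (fromCols C C') 0 0 : Matrix (ι ⊕ (κ ⊕ κ')) (ι ⊕ (κ ⊕ κ')) Q) *
      fromBlocks 0 0 (fromRows 0 D') 0 = fromBlocks z 0 0 0 := by
    rw [fromBlocks_multiply, fromCols_mul_fromRows]
    simp [hCD']
  have hcor : IsCorner (matCorner φ ι (κ ⊕ κ')) ⊥ := by
    have := hφ.mat ι (κ ⊕ κ')
    rwa [TwoSidedIdeal.matrix_bot] at this
  have key := lemmaA (matCorner φ ι (κ ⊕ κ')) hcor (fun A B => hH.index _ A B)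
    (P := fromBlocks 0 (fromCols C C') 0 0) (D₁ := fromBlocks 0 0 (fromRows D 0) 0)
    (D₂ := fromBlocks 0 0 (fromRows 0 D') 0) ?_ ?_ ?_ ?_
  · rw [e1, e2, e0, e0, fromBlocks_multiply] at key
    have h1 := congrArg toBlocks₁₁ key
    rw [toBlocks_fromBlocks₁₁] at h1
    have h2 : (1 : Matrix (ι ⊕ (κ ⊕ κ')) (ι ⊕ (κ ⊕ κ')) Q).toBlocks₁₁ = 1 := by
      rw [← fromBlocks_one, toBlocks_fromBlocks₁₁]
    rw [h2] at h1
    simpa using h1
  · rw [matCorner_one]
    refine row_corner ?_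
    rintro i (k | k)
    · exact hC i k
    · exact hC' i k
  · rw [matCorner_one]
    refine col_corner ?_
    rintro (k | k) i
    · exact hD k i
    · simp
  · rw [matCorner_one]
    refine col_corner ?_
    rintro (k | k) i
    · simp
    · exact hD' k i
  · rw [e1, e2, e0, e0, fromBlocks_multiply]
    simp [hxY]

end Pool.Agent.H.MP_a22eb7_al.Lay
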