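import Pool.Agent.H.MP_a22eb7_al.helper44.RingC

set_option autoImplicit false

namespace Pool.Agent.H.MP_a22eb7_al.Lay

open Matrix

/-- A weak form of `IsCorner`: the homomorphism need not be injective. -/
structure IsCornerW {A H : Type*} [Ring A] [Ring H] (φ : H →ₙ+* A) (c : TwoSidedIdeal A) :
    Prop where
  surj : ∀ y : A, ∃ x : H, φ 1 * y * φ 1 - φ x ∈ c
  inj : ∀ x : H, φ x ∈ c → φ x = 0

section
variable {A H : Type*} [Ring A] [Ring H]

theorem lemmaCW (φ : H →ₙ+* A) (c : TwoSidedIdeal A) (hφ : IsCornerW φ c)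
    {C D x Z : A} (hC : C * φ 1 = C) (hD : φ 1 * D = D) (hCC : C * C = 0) (hDD : D * D = 0)
    (hx : x - C * D ∈ c) (hZ1 : (1 + x) * Z - 1 ∈ c) (hZ2 : Z * (1 + x) - 1 ∈ c)
    (a : TwoSidedIdeal A) (hCa : C ∈ a) (hDa : D ∈ a) (h1a : φ 1 ∈ a) :
    ∃ W W' : A, W * W' = 1 ∧ W' * W = 1 ∧ W - 1 ∈ a ∧ W - (1 + x) ∈ c := by
  obtain ⟨B, _, f, -, hf⟩ := exists_quot c
  obtain ⟨T, hT⟩ := hφ.surj (D * C)
  obtain ⟨V, hV⟩ := hφ.surj (1 - D * Z * C)
  obtain ⟨g, hg⟩ : ∃ g, g = φ 1 := ⟨_, rfl⟩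
  have hgg : g * g = g := by rw [hg]; exact corner_idem φ
  rw [← hg] at hC hD hT hV h1a
  have e1 : g * (D * C) * g = D * C := by rw [← mul_assoc, hD, mul_assoc, hC]
  have e2 : g * (1 - D * Z * C) * g = g - D * Z * C := by
    rw [mul_sub, sub_mul, mul_one, hgg, ← mul_assoc, ← mul_assoc, hD, mul_assoc, hC]
  rw [e1] at hT
  rw [e2] at hV
  -- equalities in the quotient
  have qx : f x = f C * f D := by
    have := (hf _).2 hx
    rwa [map_sub, sub_eq_zero, map_mul] at this
  have q1 : (1 + f C * f D) * f Z = 1 := by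
    have := (hf _).2 hZ1
    rwa [map_sub, sub_eq_zero, map_mul, map_add, map_one, qx] at this
  have q2 : f Z * (1 + f C * f D) = 1 := by
    have := (hf _).2 hZ2
    rwa [map_sub, sub_eq_zero, map_mul, map_add, map_one, qx] at this
  have qT : f (φ T) = f D * f C := by
    have := (hf _).2 hT
    rw [map_sub, sub_eq_zero, map_mul] at this
    exact this.symm
  have qV : f (φ V) = f g - f D * f Z * f C := by
    have := (hf _).2 hV
    rw [map_sub, sub_eq_zero, map_sub, map_mul, map_mul] at this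
    exact this.symm
  have qC : f C * f g = f C := by rw [← map_mul, hC]
  have qD : f g * f D = f D := by rw [← map_mul, hD]
  have k1 : φ ((1 + T) * V - 1) = 0 := by
    apply hφ.inj
    rw [← hf, map_sub, map_mul, map_add, ← hg, map_sub, map_mul, map_add, qT, qV]
    calc (f g + f D * f C) * (f g - f D * f Z * f C) - f g
        = f g * f g - (f g * f D) * f Z * f C + f D * (f C * f g)
            - f D * (f C * f D) * f Z * f C - f g := by noncomm_ring
      _ = f D * f C - f D * ((1 + f C * f D) * f Z) * f C := by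
          rw [← map_mul f g g, hgg, qC, qD]; noncomm_ring
      _ = 0 := by rw [q1]; noncomm_ring
  have k2 : φ (V * (1 + T) - 1) = 0 := by
    apply hφ.inj
    rw [← hf, map_sub, map_mul, map_add, ← hg, map_sub, map_mul, map_add, qT, qV]
    calc (f g - f D * f Z * f C) * (f g + f D * f C) - f g
        = f g * f g - f D * f Z * (f C * f g) + (f g * f D) * f C
            - f D * f Z * (f C * f D) * f C - f g := by noncomm_ring
      _ = f D * f C - f D * (f Z * (1 + f C * f D)) * f C := by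
          rw [← map_mul f g g, hgg, qC, qD]; noncomm_ring
      _ = 0 := by rw [q2]; noncomm_ring
  have k3 : (1 + φ T) * (1 + φ (V - 1)) = 1 := by
    have h3 : φ T + φ (V - 1) + φ T * φ (V - 1) = 0 := by
      rw [← map_mul, ← map_add, ← map_add]
      have : T + (V - 1) + T * (V - 1) = (1 + T) * V - 1 := by noncomm_ring
      rw [this, k1]
    calc (1 + φ T) * (1 + φ (V - 1)) = 1 + (φ T + φ (V - 1) + φ T * φ (V - 1)) := by noncomm_ring
      _ = 1 := by rw [h3, add_zero]
  have k4 : (1 + φ (V - 1)) * (1 + φ T) = 1 := by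
    have h3 : φ (V - 1) + φ T + φ (V - 1) * φ T = 0 := by
      rw [← map_mul, ← map_add, ← map_add]
      have : (V - 1) + T + (V - 1) * T = V * (1 + T) - 1 := by noncomm_ring
      rw [this, k2]
    calc (1 + φ (V - 1)) * (1 + φ T) = 1 + (φ (V - 1) + φ T + φ (V - 1) * φ T) := by noncomm_ring
      _ = 1 := by rw [h3, add_zero]
  have c1 : (1 + C) * (1 - C) = 1 := by
    calc (1 + C) * (1 - C) = 1 - C * C := by noncomm_ring
      _ = 1 := by rw [hCC, sub_zero]
  have c2 : (1 - C) * (1 + C) = 1 := by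
    calc (1 - C) * (1 + C) = 1 - C * C := by noncomm_ring
      _ = 1 := by rw [hCC, sub_zero]
  have d1 : (1 + D) * (1 - D) = 1 := by
    calc (1 + D) * (1 - D) = 1 - D * D := by noncomm_ring
      _ = 1 := by rw [hDD, sub_zero]
  have d2 : (1 - D) * (1 + D) = 1 := by
    calc (1 - D) * (1 + D) = 1 - D * D := by noncomm_ring
      _ = 1 := by rw [hDD, sub_zero]
  refine ⟨(1 + C) * (1 + D) * (1 + φ T) * (1 - C) * (1 - D),
    (1 + D) * (1 + C) * (1 + φ (V - 1)) * (1 - D) * (1 - C), ?_, ?_, ?_, ?_⟩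
  · calc (1 + C) * (1 + D) * (1 + φ T) * (1 - C) * (1 - D) *
        ((1 + D) * (1 + C) * (1 + φ (V - 1)) * (1 - D) * (1 - C))
        = (1 + C) * (1 + D) * (1 + φ T) * (1 - C) * ((1 - D) *
        (1 + D)) * (1 + C) * (1 + φ (V - 1)) * (1 - D) * (1 - C) := by simp only [mul_assoc]
      _ = (1 + C) * (1 + D) * (1 + φ T) * ((1 - C) * (1 + C)) * (1 + φ (V - 1)) *
          (1 - D) * (1 - C) := by rw [d2, mul_one]; simp only [mul_assoc]
      _ = (1 + C) * (1 + D) * ((1 + φ T) * (1 + φ (V - 1))) *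
          (1 - D) * (1 - C) := by rw [c2, mul_one]; simp only [mul_assoc]
      _ = (1 + C) * ((1 + D) * (1 - D)) * (1 - C) := by
          rw [k3, mul_one]; simp only [mul_assoc]
      _ = 1 := by rw [d1, mul_one, c1]
  · calc (1 + D) * (1 + C) * (1 + φ (V - 1)) * (1 - D) * (1 - C) *
        ((1 + C) * (1 + D) * (1 + φ T) * (1 - C) * (1 - D))
        = (1 + D) * (1 + C) * (1 + φ (V - 1)) * (1 - D) * ((1 - C) *
        (1 + C)) * (1 + D) * (1 + φ T) * (1 - C) * (1 - D) := by simp only [mul_assoc]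
      _ = (1 + D) * (1 + C) * (1 + φ (V - 1)) * ((1 - D) * (1 + D)) * (1 + φ T) *
          (1 - C) * (1 - D) := by rw [c2, mul_one]; simp only [mul_assoc]
      _ = (1 + D) * (1 + C) * ((1 + φ (V - 1)) * (1 + φ T)) *
          (1 - C) * (1 - D) := by rw [d2, mul_one]; simp only [mul_assoc]
      _ = (1 + D) * ((1 + C) * (1 - C)) * (1 - D) := by
          rw [k4, mul_one]; simp only [mul_assoc]
      _ = 1 := by rw [c1, mul_one, d1]
  · have hTa : φ T ∈ a := by
      have : φ T = g * φ T := by rw [hg, ← map_mul, one_mul]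
      rw [this]
      exact a.mul_mem_right _ _ h1a
    obtain ⟨B', _, f', -, hf'⟩ := exists_quot a
    rw [← hf']
    simp only [map_sub, map_mul, map_add, map_one, (hf' _).2 hCa, (hf' _).2 hDa, (hf' _).2 hTa]
    simp
  · rw [← hf]
    simp only [map_sub, map_mul, map_add, map_one, qT, qx]
    have z1 : f C * f C = 0 := by rw [← map_mul, hCC, map_zero]
    have z2 : f D * f D = 0 := by rw [← map_mul, hDD, map_zero]
    generalize f C = c' at *
    generalize f D = d' at *
    have s1 : (1 + d' * c') * (1 - c') = 1 - c' + d' * c' := by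
      calc (1 + d' * c') * (1 - c') = 1 - c' + d' * c' - d' * (c' * c') := by noncomm_ring
        _ = _ := by rw [z1]; noncomm_ring
    have s2 : (1 + d') * ((1 - c' + d' * c') * (1 - d')) = 1 - c' + c' * d' := by
      calc (1 + d') * ((1 - c' + d' * c') * (1 - d'))
          = 1 - c' + c' * d' - d' * d' + (d' * d') * c' - (d' * d') * c' * d' := by noncomm_ring
        _ = _ := by rw [z2]; noncomm_ring
    calc (1 + c') * (1 + d') * (1 + d' * c') * (1 - c') * (1 - d') - (1 + c' * d')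
        = (1 + c') * ((1 + d') * (((1 + d' * c') * (1 - c')) * (1 - d'))) - (1 + c' * d') := by
          simp only [mul_assoc]
      _ = (1 + c') * (1 - c' + c' * d') - (1 + c' * d') := by rw [s1, s2]
      _ = - (c' * c') + (c' * c') * d' := by noncomm_ring
      _ = 0 := by rw [z1]; noncomm_ring

end

variable {Q H : Type*} [Ring Q] [Ring H]

theorem IsCornerW.mat {φ : H →ₙ+* Q} {c : TwoSidedIdeal Q} (h : IsCornerW φ c) (ι κ : Type)
    [Fintype ι] [DecidableEq ι] [Fintype κ] [DecidableEq κ] :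
    IsCornerW (matCorner φ ι κ) (c.matrix (ι ⊕ κ)) := by
  constructor
  · intro y
    choose T hT using fun (i j : κ) => h.surj (y (Sum.inr i) (Sum.inr j))
    refine ⟨Matrix.of T, ?_⟩
    rw [matCorner_one, matCorner_apply]
    have : fromBlocks 0 0 0 (diagonal fun _ => φ 1) * y * fromBlocks 0 0 0 (diagonal fun _ => φ 1)
        - fromBlocks 0 0 0 ((Matrix.of T).map φ) =
        fromBlocks (0 : Matrix ι ι Q) 0 0 (Matrix.of fun i j =>
          φ 1 * y (Sum.inr i) (Sum.inr j) * φ 1 - φ (T i j)) := by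
      conv_lhs => rw [← fromBlocks_toBlocks y]
      rw [fromBlocks_multiply, fromBlocks_multiply, sub_eq_add_neg, fromBlocks_neg,
        fromBlocks_add]
      simp only [Matrix.zero_mul, Matrix.mul_zero, add_zero, zero_add, neg_zero]
      congr 1
      ext i j
      rw [Matrix.add_apply, Matrix.mul_diagonal, Matrix.diagonal_mul]
      simp [toBlocks₂₂, sub_eq_add_neg]
    rw [this]
    exact fromBlocks_mem c (fun _ _ => c.zero_mem) (fun _ _ => c.zero_mem)
      (fun _ _ => c.zero_mem) (fun i j => hT i j)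
  · intro T hT
    rw [matCorner_apply, TwoSidedIdeal.mem_matrix] at hT
    rw [matCorner_apply]
    have : T.map φ = 0 := by
      ext i j
      exact h.inj _ (hT (Sum.inr i) (Sum.inr j))
    rw [this, fromBlocks_zero]

/-- The lifting lemma for a corner. -/
theorem lift_corner {φ : H →ₙ+* Q} {c : TwoSidedIdeal Q} (hφ : IsCornerW φ c)
    {a : TwoSidedIdeal Q} (h1a : φ 1 ∈ a)
    (hfac : ∀ q ∈ a, q ∈ AddSubmonoid.closure {q : Q | q ∈ c ∨ ∃ a b, q = a * φ 1 * b})
    {ι : Type} [Fintype ι] [DecidableEq ι] {x Y : Matrix ι ι Q} (hx : x ∈ a.matrix ι)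
    (hxY : (1 + x) * Y = 1) (hYx : Y * (1 + x) - 1 ∈ c.matrix ι) : Lift a c x := by
  rw [TwoSidedIdeal.mem_matrix] at hx
  obtain ⟨κ, _, _, C, D, hC, hD, hxCD⟩ :=
    MFac.of_entries (corner_idem φ) fun i j => hfac _ (hx i j)
  rw [TwoSidedIdeal.mem_matrix] at hxCD hYx
  have e0 : (1 : Matrix (ι ⊕ κ) (ι ⊕ κ) Q) + fromBlocks x 0 0 0 = fromBlocks (1 + x) 0 0 1 :=
    one_add_fromBlocks x
  have key := lemmaCW (matCorner φ ι κ) (c.matrix (ι ⊕ κ))
    (hφ.mat ι κ) (C := fromBlocks 0 C 0 0) (D := fromBlocks 0 0 D 0)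
    (x := fromBlocks x 0 0 0) (Z := fromBlocks Y 0 0 1) ?_ ?_ ?_ ?_ ?_ ?_ ?_ (a.matrix (ι ⊕ κ))
    ?_ ?_ ?_
  · obtain ⟨W, W', h1, h2, h3, h4⟩ := key
    exact ⟨κ, inferInstance, inferInstance, W, W', h1, h2, h3, h4⟩
  · rw [matCorner_one]; exact row_corner hC
  · rw [matCorner_one]; exact col_corner hD
  · rw [fromBlocks_multiply]; simp
  · rw [fromBlocks_multiply]; simp
  · have : (fromBlocks x 0 0 0 : Matrix (ι ⊕ κ) (ι ⊕ κ) Q)
        - fromBlocks 0 C 0 0 * fromBlocks 0 0 D 0 =
        fromBlocks (x - C * D) 0 0 0 := by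
      rw [fromBlocks_multiply, sub_eq_add_neg, fromBlocks_neg, fromBlocks_add]
      simp [sub_eq_add_neg]
    rw [this]
    exact fromBlocks_mem c hxCD (fun _ _ => c.zero_mem) (fun _ _ => c.zero_mem)
      (fun _ _ => c.zero_mem)
  · rw [e0, fromBlocks_multiply]
    simp only [Matrix.zero_mul, Matrix.mul_zero, add_zero, zero_add, mul_one, hxY,
      fromBlocks_one, sub_self]
    exact TwoSidedIdeal.zero_mem _
  · rw [e0, fromBlocks_multiply, ← fromBlocks_one, sub_eq_add_neg, fromBlocks_neg, fromBlocks_add]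
    simp only [Matrix.zero_mul, Matrix.mul_zero, add_zero, zero_add, mul_one, neg_zero,
      add_neg_cancel, ← sub_eq_add_neg]
    exact fromBlocks_mem c hYx (fun _ _ => c.zero_mem) (fun _ _ => c.zero_mem)
      (fun _ _ => c.zero_mem)
  · refine fromBlocks_mem a (fun _ _ => a.zero_mem) (fun i k => ?_) (fun _ _ => a.zero_mem)
      (fun _ _ => a.zero_mem)
    rw [← hC i k]
    exact a.mul_mem_left _ _ h1a
  · refine fromBlocks_mem a (fun _ _ => a.zero_mem) (fun _ _ => a.zero_mem) (fun k i => ?_)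
      (fun _ _ => a.zero_mem)
    rw [← hD k i]
    exact a.mul_mem_right _ _ h1a
  · rw [matCorner_one]
    refine fromBlocks_mem a (fun _ _ => a.zero_mem) (fun _ _ => a.zero_mem)
      (fun _ _ => a.zero_mem) (fun i j => ?_)
    rw [Matrix.diagonal_apply]
    split_ifs
    · exact h1a
    · exact a.zero_mem

end Pool.Agent.H.MP_a22eb7_al.Lay
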