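import Pool.Agent.H.MP_a22eb7_al.helper44.Layer

set_option autoImplicit false
set_option linter.unusedSectionVars false

namespace Pool.Agent.H.MP_a22eb7_al.Lay

open MonoidAlgebra

variable {M K : Type*} [Monoid M] [Ring K]

open Classical in
/-- the part of an element supported in `D` -/
noncomputable def cut (D : Set M) (x : MonoidAlgebra K M) : MonoidAlgebra K M :=
  ofCoeff (x.coeff.filter (fun m => m ∈ D))

theorem cut_coeff_mem {D : Set M} (x : MonoidAlgebra K M) {m : M} (hm : m ∈ D) :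
    (cut D x).coeff m = x.coeff m := by
  classical
  rw [cut, coeff_ofCoeff]
  exact Finsupp.filter_apply_pos _ _ hm

theorem cut_coeff_notMem {D : Set M} (x : MonoidAlgebra K M) {m : M} (hm : m ∉ D) :
    (cut D x).coeff m = 0 := by
  classical
  rw [cut, coeff_ofCoeff]
  exact Finsupp.filter_apply_neg _ _ hm

theorem SupIn.mul_closed {D : Set M} (hD : ∀ a ∈ D, ∀ b ∈ D, a * b ∈ D)
    {x y : MonoidAlgebra K M} (hx : SupIn D x) (hy : SupIn D y) : SupIn D (x * y) := by
  refine hy.induction (P := fun y => SupIn D (x * y)) ?_ ?_ ?_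
  · rw [mul_zero]; exact SupIn.zero D
  · intro y y' h h'; rw [mul_add]; exact h.add h'
  · intro m hm c
    refine hx.induction (P := fun x => SupIn D (x * MonoidAlgebra.single m c)) ?_ ?_ ?_
    · rw [zero_mul]; exact SupIn.zero D
    · intro x x' h h'; rw [add_mul]; exact h.add h'
    · intro m' hm' c'
      rw [single_mul_single]
      exact SupIn.single (hD _ hm' _ hm) _

theorem SupIn.sum {D : Set M} {σ : Type*} (s : Finset σ) (f : σ → MonoidAlgebra K M)
    (h : ∀ k ∈ s, SupIn D (f k)) : SupIn D (∑ k ∈ s, f k) := by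
  classical
  induction s using Finset.induction_on with
  | empty => exact SupIn.zero D
  | insert k s hk ih =>
    rw [Finset.sum_insert hk]
    exact (h k (Finset.mem_insert_self k s)).add
      (ih fun k' hk' => h k' (Finset.mem_insert_of_mem hk'))

theorem claim_semi {Q : Type*} [Ring Q] (π : MonoidAlgebra K M →+* Q)
    (hπ : Function.Surjective π) {e : M} (hker : ∀ x, π x = 0 ↔ ∀ m, JLE e m → x.coeff m = 0)
    {D D' : Set M} (hD : IsLow D) (hD' : IsLow D')
    (hmul : ∀ a ∈ D', a ∉ D → ∀ b ∈ D', b ∉ D → a * b ∉ D)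
    (b : TwoSidedIdeal Q) (hb : ∀ q ∈ b, q ∈ idl π hπ D hD)
    (hcl : Claim b (idl π hπ D hD)) : Claim b (idl π hπ D' hD') := by
  refine claim_step _ b (idl π hπ D hD) (idl π hπ D hD) ?_ (fun q _ h => h) hcl
  intro ι _ _ x Y hx hxY hYx
  apply Lift'.lift
  obtain ⟨z, hz⟩ : ∃ z, z = Y - 1 := ⟨_, rfl⟩
  have hYz : Y = 1 + z := by rw [hz]; abel
  rw [hYz] at hxY hYx
  have hzD : z ∈ (idl π hπ D' hD').matrix ι := by
    have : z = - (x * (1 + z)) := by
      have h1 : (1 + x) * (1 + z) = 1 + z + x * (1 + z) := by noncomm_ring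
      rw [h1] at hxY
      calc z = (1 + z + x * (1 + z)) - 1 - x * (1 + z) := by abel
        _ = - (x * (1 + z)) := by rw [hxY]; abel
    rw [this]
    exact TwoSidedIdeal.neg_mem _ (TwoSidedIdeal.mul_mem_right _ _ _ hx)
  have hxza : x + z + x * z = 0 := by
    have h1 : (1 + x) * (1 + z) = 1 + (x + z + x * z) := by noncomm_ring
    rw [h1] at hxY
    exact left_eq_add.1 hxY.symm
  have hzxb : z + x + z * x ∈ b.matrix ι := by
    have h1 : (1 + z) * (1 + x) - 1 = z + x + z * x := by noncomm_ring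
    rwa [h1] at hYx
  rw [TwoSidedIdeal.mem_matrix] at hx hzD hzxb
  choose xt hxt1 hxt2 using fun i j => (mem_idl π hπ).1 (hx i j)
  choose zt hzt1 hzt2 using fun i j => (mem_idl π hπ).1 (hzD i j)
  obtain ⟨S, hS⟩ : ∃ S : Set M, S = D' \ D := ⟨_, rfl⟩
  obtain ⟨s, hs⟩ : ∃ s : Matrix ι ι (MonoidAlgebra K M), s = Matrix.of fun i j => cut S (xt i j) :=
    ⟨_, rfl⟩
  obtain ⟨t, ht⟩ : ∃ t : Matrix ι ι (MonoidAlgebra K M), t = Matrix.of fun i j => cut S (zt i j) :=
    ⟨_, rfl⟩
  have hsS : ∀ i j, SupIn S (s i j) := by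
    intro i j m hm
    rw [hs]
    exact cut_coeff_notMem _ hm
  have htS : ∀ i j, SupIn S (t i j) := by
    intro i j m hm
    rw [ht]
    exact cut_coeff_notMem _ hm
  have hSmul : ∀ a ∈ S, ∀ b ∈ S, a * b ∈ S := by
    intro a ha b hb
    rw [hS] at ha hb ⊢
    exact ⟨hD' _ _ (JLE.mul_left_self _ _) ha.1, hmul a ha.1 ha.2 b hb.1 hb.2⟩
  -- difference
  have hdiff : ∀ y : MonoidAlgebra K M, SupIn D' y → π (cut S y) - π y ∈ idl π hπ D hD := by
    intro y hy
    rw [← map_sub, mem_idl]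
    refine ⟨_, fun m hm => ?_, rfl⟩
    rw [coeff_sub, Finsupp.sub_apply]
    by_cases hm' : m ∈ D'
    · rw [cut_coeff_mem _ (by rw [hS]; exact ⟨hm', hm⟩), sub_self]
    · rw [cut_coeff_notMem _ (by rw [hS]; exact fun h => hm' h.1), hy m hm', sub_zero]
  have hsx : π.mapMatrix s - x ∈ (idl π hπ D hD).matrix ι := by
    rw [TwoSidedIdeal.mem_matrix]
    intro i j
    rw [Matrix.sub_apply, ← hxt2 i j, hs]
    exact hdiff _ (hxt1 i j)
  have htz : π.mapMatrix t - z ∈ (idl π hπ D hD).matrix ι := by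
    rw [TwoSidedIdeal.mem_matrix]
    intro i j
    rw [Matrix.sub_apply, ← hzt2 i j, ht]
    exact hdiff _ (hzt1 i j)
  -- an element supported in `S` with image in the ideal of `D` has image zero
  have hzero : ∀ g : Matrix ι ι (MonoidAlgebra K M), (∀ i j, SupIn S (g i j)) →
      π.mapMatrix g ∈ (idl π hπ D hD).matrix ι → π.mapMatrix g = 0 := by
    intro g hg hgD
    rw [TwoSidedIdeal.mem_matrix] at hgD
    ext i j
    obtain ⟨y, hy, hyg⟩ := (mem_idl π hπ).1 (hgD i j)
    show π (g i j) = 0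
    rw [hker]
    intro m hem
    by_cases hm : m ∈ S
    · have hm2 : m ∉ D := by rw [hS] at hm; exact hm.2
      have h3 : π (g i j - y) = 0 := by
        rw [map_sub, hyg]
        exact sub_self _
      have h4 := (hker _).1 h3 m hem
      rw [coeff_sub, Finsupp.sub_apply, hy m hm2, sub_zero] at h4
      exact h4
    · exact hg i j m hm
  have hcalc : ∀ p q p' q' : Matrix ι ι Q, p' - p ∈ (idl π hπ D hD).matrix ι →
      q' - q ∈ (idl π hπ D hD).matrix ι → p + q + p * q ∈ (idl π hπ D hD).matrix ι →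
      p' + q' + p' * q' ∈ (idl π hπ D hD).matrix ι := by
    intro p q p' q' h1 h2 h3
    have : p' + q' + p' * q' = (p' - p) + (q' - q) + (p' - p) * q' + p * (q' - q) +
        (p + q + p * q) := by noncomm_ring
    rw [this]
    refine TwoSidedIdeal.add_mem _ (TwoSidedIdeal.add_mem _ (TwoSidedIdeal.add_mem _
      (TwoSidedIdeal.add_mem _ h1 h2) (TwoSidedIdeal.mul_mem_right _ _ _ h1))
      (TwoSidedIdeal.mul_mem_left _ _ _ h2)) h3
  have hsup : ∀ p q : Matrix ι ι (MonoidAlgebra K M), (∀ i j, SupIn S (p i j)) →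
      (∀ i j, SupIn S (q i j)) → ∀ i j, SupIn S ((p + q + p * q) i j) := by
    intro p q hp hq i j
    rw [Matrix.add_apply, Matrix.add_apply, Matrix.mul_apply]
    exact ((hp i j).add (hq i j)).add (SupIn.sum _ _ fun k _ =>
      (hp i k).mul_closed hSmul (hq k j))
  have h1 : π.mapMatrix (s + t + s * t) = 0 := by
    apply hzero _ (hsup s t hsS htS)
    rw [map_add, map_add, map_mul]
    refine hcalc x z _ _ hsx htz ?_
    rw [hxza]; exact TwoSidedIdeal.zero_mem _
  have h2 : π.mapMatrix (t + s + t * s) = 0 := by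
    apply hzero _ (hsup t s htS hsS)
    rw [map_add, map_add, map_mul]
    refine hcalc z x _ _ htz hsx ?_
    rw [TwoSidedIdeal.mem_matrix]
    exact fun i j => hb _ (hzxb i j)
  refine ⟨1 + π.mapMatrix s, 1 + π.mapMatrix t, ?_, ?_, ?_, ?_⟩
  · calc (1 + π.mapMatrix s) * (1 + π.mapMatrix t)
        = 1 + (π.mapMatrix s + π.mapMatrix t + π.mapMatrix s * π.mapMatrix t) := by noncomm_ring
      _ = 1 + π.mapMatrix (s + t + s * t) := by rw [map_add, map_add, map_mul]
      _ = 1 := by rw [h1, add_zero]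
  · calc (1 + π.mapMatrix t) * (1 + π.mapMatrix s)
        = 1 + (π.mapMatrix t + π.mapMatrix s + π.mapMatrix t * π.mapMatrix s) := by noncomm_ring
      _ = 1 + π.mapMatrix (t + s + t * s) := by rw [map_add, map_add, map_mul]
      _ = 1 := by rw [h2, add_zero]
  · rw [add_sub_cancel_left, TwoSidedIdeal.mem_matrix]
    intro i j
    rw [mem_idl]
    refine ⟨s i j, (hsS i j).mono ?_, rfl⟩
    rw [hS]; exact Set.sdiff_subset
  · have : 1 + π.mapMatrix s - (1 + x) = π.mapMatrix s - x := by abel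
    rw [this]
    exact hsx

end Pool.Agent.H.MP_a22eb7_al.Lay
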