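import Pool.Agent.H.MP_a22eb7_al.helper44.RingW
import Pool.Agent.H.MP_a22eb7_al.helper44.Good

set_option autoImplicit false
set_option linter.unusedSectionVars false

namespace Pool.Agent.H.MP_a22eb7_al.Lay

open MonoidAlgebra

universe u w v

section Vanish

variable {M K : Type*} [Monoid M] [Ring K]

/-- An element supported in a set which meets `D` only below `e` and whose image lies in the ideal
of `D` has image zero. -/
theorem image_zero {Q : Type*} [Ring Q] (π : MonoidAlgebra K M →+* Q)
    (hπ : Function.Surjective π) {e : M} (hker : ∀ x, π x = 0 ↔ ∀ m, JLE e m → x.coeff m = 0)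
    {D S : Set M} {hD : IsLow D} (hS : ∀ m ∈ S, m ∈ D → ¬ JLE e m) {g : MonoidAlgebra K M}
    (hg : SupIn S g) (hgD : π g ∈ idl π hπ D hD) : π g = 0 := by
  obtain ⟨y, hy, hyg⟩ := (mem_idl π hπ).1 hgD
  rw [hker]
  intro m hem
  by_cases hm : m ∈ S
  · have hm2 : m ∉ D := fun h => hS m hm h hem
    have h3 : π (g - y) = 0 := by rw [map_sub, hyg, sub_self]
    have h4 := (hker _).1 h3 m hem
    rw [coeff_sub, Finsupp.sub_apply, hy m hm2, sub_zero] at h4
    exact h4
  · exact hg m hm

end Vanish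

section S1

variable {M K : Type*} [Monoid M] [Ring K]

/-- Step of type 1: products of two elements of `D' \ D` are not in `D`, unless they are not above
`e`. -/
theorem claim_step1 {Q : Type*} [Ring Q] (π : MonoidAlgebra K M →+* Q)
    (hπ : Function.Surjective π) {e : M} (hker : ∀ x, π x = 0 ↔ ∀ m, JLE e m → x.coeff m = 0)
    {D D' : Set M} (hD : IsLow D) (hD' : IsLow D')
    (hmul : ∀ a ∈ D', a ∉ D → ∀ b ∈ D', b ∉ D → a * b ∈ D → ¬ JLE e (a * b))
    (b : TwoSidedIdeal Q) (hb : ∀ q ∈ b, q ∈ idl π hπ D hD)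
    (hcl : Claim b (idl π hπ D hD)) : Claim b (idl π hπ D' hD') := by
  refine claim_step _ b (idl π hπ D hD) (idl π hπ D hD) ?_ (fun q _ h => h) hcl
  intro ι _ _ x Y hx hxY hYx
  apply Lift'.lift
  obtain ⟨z, hz⟩ : ∃ z, z = Y - 1 := ⟨_, rfl⟩
  have hYz : Y = 1 + z := by rw [hz]; abel
  rw [hYz] at hxY hYx
  have hzD : z ∈ (idl π hπ D' hD').matrix ι := by
    have : z = - (x * (1 + z)) := by
      have h1 : (1 + x) * (1 + z) = 1 + z + x * (1 + z) := by noncomm_ring
      rw [h1] at hxY
      calc z = (1 + z + x * (1 + z)) - 1 - x * (1 + z) := by abel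
        _ = - (x * (1 + z)) := by rw [hxY]; abel
    rw [this]
    exact TwoSidedIdeal.neg_mem _ (TwoSidedIdeal.mul_mem_right _ _ _ hx)
  have hxza : x + z + x * z = 0 := by
    have h1 : (1 + x) * (1 + z) = 1 + (x + z + x * z) := by noncomm_ring
    rw [h1] at hxY
    exact left_eq_add.1 hxY.symm
  have hzxb : z + x + z * x ∈ b.matrix ι := by
    have h1 : (1 + z) * (1 + x) - 1 = z + x + z * x := by noncomm_ring
    rwa [h1] at hYx
  rw [TwoSidedIdeal.mem_matrix] at hx hzD hzxb
  choose xt hxt1 hxt2 using fun i j => (mem_idl π hπ).1 (hx i j)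
  choose zt hzt1 hzt2 using fun i j => (mem_idl π hπ).1 (hzD i j)
  obtain ⟨S, hS⟩ : ∃ S : Set M, S = D' \ D := ⟨_, rfl⟩
  obtain ⟨S', hS'⟩ : ∃ S' : Set M, S' = S ∪ {m | ¬ JLE e m} := ⟨_, rfl⟩
  obtain ⟨s, hs⟩ : ∃ s : Matrix ι ι (MonoidAlgebra K M), s = Matrix.of fun i j => cut S (xt i j) :=
    ⟨_, rfl⟩
  obtain ⟨t, ht⟩ : ∃ t : Matrix ι ι (MonoidAlgebra K M), t = Matrix.of fun i j => cut S (zt i j) :=
    ⟨_, rfl⟩
  have hsS : ∀ i j, SupIn S (s i j) := by
    intro i j m hm
    rw [hs]
    exact cut_coeff_notMem _ hm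
  have htS : ∀ i j, SupIn S (t i j) := by
    intro i j m hm
    rw [ht]
    exact cut_coeff_notMem _ hm
  have hSS' : S ⊆ S' := by rw [hS']; exact Set.subset_union_left
  have hSmul : ∀ a ∈ S', ∀ b ∈ S', a * b ∈ S' := by
    intro a ha b hb
    by_cases hab : JLE e (a * b)
    · rw [hS'] at ha hb ⊢
      have ha1 : a ∈ S := ha.resolve_right (fun h => h (hab.trans (JLE.mul_left_self _ _)))
      have hb1 : b ∈ S := hb.resolve_right (fun h => h (hab.trans (JLE.mul_right_self _ _)))
      left
      rw [hS] at ha1 hb1 ⊢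
      exact ⟨hD' _ _ (JLE.mul_left_self _ _) ha1.1, fun h =>
        hmul a ha1.1 ha1.2 b hb1.1 hb1.2 h hab⟩
    · rw [hS']; exact Or.inr hab
  -- difference
  have hdiff : ∀ y : MonoidAlgebra K M, SupIn D' y → π (cut S y) - π y ∈ idl π hπ D hD := by
    intro y hy
    rw [← map_sub, mem_idl]
    refine ⟨_, fun m hm => ?_, rfl⟩
    rw [coeff_sub, Finsupp.sub_apply]
    by_cases hm' : m ∈ D'
    · rw [cut_coeff_mem _ (by rw [hS]; exact ⟨hm', hm⟩), sub_self]
    · rw [cut_coeff_notMem _ (by rw [hS]; exact fun h => hm' h.1), hy m hm', sub_zero]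
  have hsx : π.mapMatrix s - x ∈ (idl π hπ D hD).matrix ι := by
    rw [TwoSidedIdeal.mem_matrix]
    intro i j
    rw [Matrix.sub_apply, ← hxt2 i j, hs]
    exact hdiff _ (hxt1 i j)
  have htz : π.mapMatrix t - z ∈ (idl π hπ D hD).matrix ι := by
    rw [TwoSidedIdeal.mem_matrix]
    intro i j
    rw [Matrix.sub_apply, ← hzt2 i j, ht]
    exact hdiff _ (hzt1 i j)
  have hzero : ∀ g : Matrix ι ι (MonoidAlgebra K M), (∀ i j, SupIn S' (g i j)) →
      π.mapMatrix g ∈ (idl π hπ D hD).matrix ι → π.mapMatrix g = 0 := by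
    intro g hg hgD
    rw [TwoSidedIdeal.mem_matrix] at hgD
    ext i j
    refine image_zero π hπ hker ?_ (hg i j) (hgD i j)
    intro m hm hmD hem
    rw [hS'] at hm
    rcases hm with hm | hm
    · rw [hS] at hm; exact hm.2 hmD
    · exact hm hem
  have hcalc : ∀ p q p' q' : Matrix ι ι Q, p' - p ∈ (idl π hπ D hD).matrix ι →
      q' - q ∈ (idl π hπ D hD).matrix ι → p + q + p * q ∈ (idl π hπ D hD).matrix ι →
      p' + q' + p' * q' ∈ (idl π hπ D hD).matrix ι := by
    intro p q p' q' h1 h2 h3
    have : p' + q' + p' * q' = (p' - p) + (q' - q) + (p' - p) * q' + p * (q' - q) +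
        (p + q + p * q) := by noncomm_ring
    rw [this]
    refine TwoSidedIdeal.add_mem _ (TwoSidedIdeal.add_mem _ (TwoSidedIdeal.add_mem _
      (TwoSidedIdeal.add_mem _ h1 h2) (TwoSidedIdeal.mul_mem_right _ _ _ h1))
      (TwoSidedIdeal.mul_mem_left _ _ _ h2)) h3
  have hsup : ∀ p q : Matrix ι ι (MonoidAlgebra K M), (∀ i j, SupIn S (p i j)) →
      (∀ i j, SupIn S (q i j)) → ∀ i j, SupIn S' ((p + q + p * q) i j) := by
    intro p q hp hq i j
    rw [Matrix.add_apply, Matrix.add_apply, Matrix.mul_apply]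
    exact (((hp i j).mono hSS').add ((hq i j).mono hSS')).add (SupIn.sum _ _ fun k _ =>
      ((hp i k).mono hSS').mul_closed hSmul ((hq k j).mono hSS'))
  have h1 : π.mapMatrix (s + t + s * t) = 0 := by
    apply hzero _ (hsup s t hsS htS)
    rw [map_add, map_add, map_mul]
    refine hcalc x z _ _ hsx htz ?_
    rw [hxza]; exact TwoSidedIdeal.zero_mem _
  have h2 : π.mapMatrix (t + s + t * s) = 0 := by
    apply hzero _ (hsup t s htS hsS)
    rw [map_add, map_add, map_mul]
    refine hcalc z x _ _ htz hsx ?_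
    rw [TwoSidedIdeal.mem_matrix]
    exact fun i j => hb _ (hzxb i j)
  refine ⟨1 + π.mapMatrix s, 1 + π.mapMatrix t, ?_, ?_, ?_, ?_⟩
  · calc (1 + π.mapMatrix s) * (1 + π.mapMatrix t)
        = 1 + (π.mapMatrix s + π.mapMatrix t + π.mapMatrix s * π.mapMatrix t) := by noncomm_ring
      _ = 1 + π.mapMatrix (s + t + s * t) := by rw [map_add, map_add, map_mul]
      _ = 1 := by rw [h1, add_zero]
  · calc (1 + π.mapMatrix t) * (1 + π.mapMatrix s)
        = 1 + (π.mapMatrix t + π.mapMatrix s + π.mapMatrix t * π.mapMatrix s) := by noncomm_ring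
      _ = 1 + π.mapMatrix (t + s + t * s) := by rw [map_add, map_add, map_mul]
      _ = 1 := by rw [h2, add_zero]
  · rw [add_sub_cancel_left, TwoSidedIdeal.mem_matrix]
    intro i j
    rw [mem_idl]
    refine ⟨s i j, (hsS i j).mono ?_, rfl⟩
    rw [hS]; exact Set.sdiff_subset
  · have : 1 + π.mapMatrix s - (1 + x) = π.mapMatrix s - x := by abel
    rw [this]
    exact hsx

end S1

section S2

variable {M : Type u} [Monoid M] {K : Type w} [Ring K]

/-- The local monoid `h M h` without `D` (but with the elements not above `e`). -/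
def CT (h e : M) (D : Set M) : Type u :=
  {m : M // h * m = m ∧ m * h = m ∧ (m ∈ D → ¬ JLE e m)}

/-- its monoid structure -/
@[reducible] def ctMonoid {h e : M} {D : Set M} (hh : h * h = h) (hhD : h ∉ D)
    (hmul : ∀ a b, h * a = a → a * h = a → a ∉ D → h * b = b → b * h = b → b ∉ D →
      a * b ∈ D → ¬ JLE e (a * b)) : Monoid (CT h e D) where
  mul x y := ⟨x.1 * y.1, by rw [← mul_assoc, x.2.1], by rw [mul_assoc, y.2.2.1], by
    intro hD hem
    have h1 : x.1 ∉ D := fun h => x.2.2.2 h (hem.trans (JLE.mul_left_self _ _))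
    have h2 : y.1 ∉ D := fun h => y.2.2.2 h (hem.trans (JLE.mul_right_self _ _))
    exact hmul _ _ x.2.1 x.2.2.1 h1 y.2.1 y.2.2.1 h2 hD hem⟩
  mul_assoc x y z := Subtype.ext (mul_assoc x.1 y.1 z.1)
  one := ⟨h, hh, hh, fun h' => absurd h' hhD⟩
  one_mul x := Subtype.ext x.2.1
  mul_one x := Subtype.ext x.2.2.1

/-- Step of type 2: a corner. -/
theorem claim_step2 {Q : Type v} [Ring Q] (π : MonoidAlgebra K M →+* Q)
    (hπ : Function.Surjective π) {e : M} (hker : ∀ x, π x = 0 ↔ ∀ m, JLE e m → x.coeff m = 0)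
    {D : Set M} (hD : IsLow D) {h : M} (hh : h * h = h) (hhD : h ∉ D)
    (hmul : ∀ a b, h * a = a → a * h = a → a ∉ D → h * b = b → b * h = b → b ∉ D →
      a * b ∈ D → ¬ JLE e (a * b))
    (hD' : IsLow (D ∪ {m | JLE m h}))
    (b : TwoSidedIdeal Q) (hb : ∀ q ∈ b, q ∈ idl π hπ D hD)
    (hcl : Claim b (idl π hπ D hD)) : Claim b (idl π hπ (D ∪ {m | JLE m h}) hD') := by
  let _ : Monoid (CT h e D) := ctMonoid hh hhD hmul
  let j : CT h e D →ₙ* M := ⟨fun x => x.1, fun _ _ => rfl⟩
  let φ : MonoidAlgebra K (CT h e D) →ₙ+* Q :=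
    (π : MonoidAlgebra K M →ₙ+* Q).comp (mapDomainNonUnitalRingHom K j)
  have hφ : ∀ x, φ x = π (mapDomain j x) := fun _ => rfl
  have hφ1 : φ 1 = π (MonoidAlgebra.single h 1) := by
    rw [hφ, MonoidAlgebra.one_def, mapDomain_single]; rfl
  have hcor : IsCornerW φ (idl π hπ D hD) := by
    constructor
    · intro y
      obtain ⟨y, rfl⟩ := hπ y
      refine MonoidAlgebra.induction_linear y ?_ ?_ ?_
      · refine ⟨0, ?_⟩
        rw [map_zero, mul_zero, zero_mul, map_zero, sub_zero]
        exact TwoSidedIdeal.zero_mem _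
      · rintro y y' ⟨x, hx⟩ ⟨x', hx'⟩
        refine ⟨x + x', ?_⟩
        have : φ 1 * π (y + y') * φ 1 - φ (x + x') =
            (φ 1 * π y * φ 1 - φ x) + (φ 1 * π y' * φ 1 - φ x') := by
          rw [map_add, map_add]; noncomm_ring
        rw [this]
        exact TwoSidedIdeal.add_mem _ hx hx'
      · intro m c
        have e1 : φ 1 * π (MonoidAlgebra.single m c) * φ 1 =
            π (MonoidAlgebra.single (h * m * h) c) := by
          rw [hφ1, ← map_mul, ← map_mul, single_mul_single, single_mul_single, one_mul, mul_one]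
        rw [e1]
        by_cases hm : h * m * h ∈ D
        · refine ⟨0, ?_⟩
          rw [map_zero, sub_zero, mem_idl]
          exact ⟨_, SupIn.single hm c, rfl⟩
        · let m' : CT h e D := ⟨h * m * h, by rw [← mul_assoc, ← mul_assoc, hh], by
            rw [mul_assoc, hh], fun h' => absurd h' hm⟩
          refine ⟨MonoidAlgebra.single m' c, ?_⟩
          have e2 : φ (MonoidAlgebra.single m' c) = π (MonoidAlgebra.single (h * m * h) c) := by
            rw [hφ, mapDomain_single]; rfl
          rw [e2, sub_self]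
          exact TwoSidedIdeal.zero_mem _
    · intro x hx
      rw [hφ] at hx ⊢
      refine image_zero π hπ hker (S := Set.range j) ?_ ?_ hx
      · rintro _ ⟨m, rfl⟩ hmD
        exact m.2.2.2 hmD
      · intro m hm
        rw [mapDomain]
        exact Finsupp.mapDomain_of_notMem_range _ _ hm
  refine claim_step _ b (idl π hπ D hD) (idl π hπ D hD) ?_ (fun q _ h => h) hcl
  intro ι _ _ x Y hx hxY hYx
  refine lift_corner hcor ?_ ?_ hx hxY ?_
  · rw [hφ1, mem_idl]
    exact ⟨_, SupIn.single (D := D ∪ {m | JLE m h})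
      (show h ∈ D ∪ {m | JLE m h} from Or.inr (JLE.refl h)) 1, rfl⟩
  · intro q hq
    refine idl_induction π hπ hq (AddSubmonoid.zero_mem _)
      (fun x y h h' => AddSubmonoid.add_mem _ h h') ?_
    intro m hm c
    apply AddSubmonoid.subset_closure
    rcases hm with hm | ⟨p, r, hpr⟩
    · left
      rw [mem_idl]
      exact ⟨_, SupIn.single hm c, rfl⟩
    · refine Or.inr ⟨π (MonoidAlgebra.single p c), π (MonoidAlgebra.single r 1), ?_⟩
      rw [hφ1, ← map_mul, ← map_mul, single_mul_single, single_mul_single, mul_one, mul_one,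
        ← hpr]
  · rw [TwoSidedIdeal.mem_matrix] at hYx ⊢
    exact fun i j => hb _ (hYx i j)

end S2

section S3

variable {M K : Type*} [Monoid M] [Ring K]

/-- `a` lies in a subgroup. -/
def InGrp (a : M) : Prop := ∃ g b : M, g * g = g ∧ g * a = a ∧ a * g = a ∧ a * b = g ∧ b * a = g

/-- Step of type 3: a null layer. -/
theorem claim_step3 {Q : Type*} [Ring Q] (π : MonoidAlgebra K M →+* Q)
    (hπ : Function.Surjective π) {e : M} (hker : ∀ x, π x = 0 ↔ ∀ m, JLE e m → x.coeff m = 0)
    {D D' : Set M} (hD : IsLow D) (hD' : IsLow D')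
    (hmul : ∀ a ∈ D', a ∉ D → ∀ b ∈ D', b ∉ D → a * b ∈ D)
    (hpow : ∀ t ∈ D', t ∉ D → ∃ k, ¬ JLE e (t ^ k) ∨ InGrp (t ^ (k + 1)))
    (b : TwoSidedIdeal Q) 
    (hcl : Claim b (idl π hπ D hD)) : Claim b (idl π hπ D' hD') := by
  classical
  have hmul' : ∀ a ∈ D', ∀ b ∈ D', a * b ∈ D := by
    intro a ha b hb
    by_cases h1 : a ∈ D
    · exact hD _ _ (JLE.mul_left_self _ _) h1
    · by_cases h2 : b ∈ D
      · exact hD _ _ (JLE.mul_right_self _ _) h2
      · exact hmul a ha h1 b hb h2
  refine claim_step _ b (idl π hπ D hD) (idl π hπ D hD) ?_ (fun q _ h => h) hcl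
  intro ι _ _ x Y hx _ _
  refine (lift_null ?_ ?_ hx).lift
  · intro p hp q hq
    refine idl_induction π hπ (P := fun p => p * q ∈ idl π hπ D hD) hp ?_ ?_ ?_
    · rw [zero_mul]; exact TwoSidedIdeal.zero_mem _
    · intro x y h h'; rw [add_mul]; exact TwoSidedIdeal.add_mem _ h h'
    · intro m hm c
      refine idl_induction π hπ (P := fun q => π (MonoidAlgebra.single m c) * q ∈
        idl π hπ D hD) hq ?_ ?_ ?_
      · rw [mul_zero]; exact TwoSidedIdeal.zero_mem _
      · intro x y h h'; rw [mul_add]; exact TwoSidedIdeal.add_mem _ h h'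
      · intro m' hm' c'
        rw [← map_mul, single_mul_single, mem_idl]
        exact ⟨_, SupIn.single (hmul' m hm m' hm') _, rfl⟩
  · intro q hq
    refine idl_induction π hπ hq (AddSubmonoid.zero_mem _)
      (fun x y h h' => AddSubmonoid.add_mem _ h h') ?_
    intro t ht c
    apply AddSubmonoid.subset_closure
    refine ⟨by rw [mem_idl]; exact ⟨_, SupIn.single ht c, rfl⟩, ?_⟩
    by_cases htD : t ∈ D
    · refine ⟨0, TwoSidedIdeal.zero_mem _, IsNilpotent.zero, ?_⟩
      rw [zero_sub]
      refine TwoSidedIdeal.neg_mem _ ?_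
      rw [mem_idl]; exact ⟨_, SupIn.single htD c, rfl⟩
    · obtain ⟨k, hk | hk⟩ := hpow t ht htD
      · refine ⟨π (MonoidAlgebra.single t c), ?_, ⟨k, ?_⟩, ?_⟩
        · rw [mem_idl]; exact ⟨_, SupIn.single ht c, rfl⟩
        · rw [← map_pow, single_pow', hker]
          intro m hm
          rw [coeff_single, Finsupp.single_apply, if_neg]
          rintro rfl
          exact hk hm
        · rw [sub_self]; exact TwoSidedIdeal.zero_mem _
      · obtain ⟨ε, b', hε, hεa, haε, hab, hba⟩ := hk
        obtain ⟨a, ha⟩ : ∃ a, a = t ^ (k + 1) := ⟨_, rfl⟩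
        rw [← ha] at hεa haε hab hba
        have hta : t * a = a * t := by rw [ha, ← pow_succ, ← pow_succ']
        have k1 : ε * (t * ε) = t * ε := by
          calc ε * (t * ε) = ε * ((t * a) * b') := by rw [← hab]; simp only [mul_assoc]
            _ = (ε * a) * t * b' := by rw [hta]; simp only [mul_assoc]
            _ = t * a * b' := by rw [hεa, ← hta]
            _ = t * ε := by rw [mul_assoc, hab]
        have k2 : (ε * t) * ε = ε * t := by
          calc (ε * t) * ε = b' * (a * t) * ε := by rw [← hba]; simp only [mul_assoc]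
            _ = b' * t * (a * ε) := by rw [← hta]; simp only [mul_assoc]
            _ = b' * (t * a) := by rw [haε, mul_assoc]
            _ = ε * t := by rw [hta, ← mul_assoc, hba]
        have htε : t * ε = ε * t := by rw [← k1, ← mul_assoc, k2]
        have htεD : t * ε ∈ D := by
          refine hD _ _ ?_ (hmul' t ht t ht)
          refine ⟨1, t ^ k * b', ?_⟩
          rw [← hab, ha, pow_succ']
          simp only [mul_assoc, one_mul]
        have hcomm : Commute (MonoidAlgebra.single t c) (1 - MonoidAlgebra.single ε (1 : K)) := by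
          refine Commute.sub_right (Commute.one_right _) ?_
          show MonoidAlgebra.single t c * MonoidAlgebra.single ε 1 =
            MonoidAlgebra.single ε 1 * MonoidAlgebra.single t c
          rw [single_mul_single, single_mul_single, htε, mul_one, one_mul]
        have hidem : (1 - MonoidAlgebra.single ε (1 : K)) * (1 - MonoidAlgebra.single ε (1 : K)) =
            1 - MonoidAlgebra.single ε (1 : K) := by
          have : MonoidAlgebra.single ε (1 : K) * MonoidAlgebra.single ε (1 : K) =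
              MonoidAlgebra.single ε (1 : K) := by rw [single_mul_single, hε, one_mul]
          rw [mul_sub, sub_mul, sub_mul, this]
          noncomm_ring
        have hpow' : ∀ k : ℕ, (1 - MonoidAlgebra.single ε (1 : K)) ^ (k + 1) =
            1 - MonoidAlgebra.single ε (1 : K) := by
          intro k
          induction k with
          | zero => rw [zero_add, pow_one]
          | succ k ih => rw [pow_succ, ih, hidem]
        refine ⟨π (MonoidAlgebra.single t c * (1 - MonoidAlgebra.single ε 1)), ?_, ⟨k + 1, ?_⟩,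
          ?_⟩
        · rw [mem_idl]; exact ⟨_, (SupIn.single ht c).mul_right hD' _, rfl⟩
        · rw [← map_pow, hcomm.mul_pow, hpow', single_pow', ← ha, mul_sub, mul_one,
            single_mul_single, haε, mul_one, sub_self, map_zero]
        · rw [← map_sub, mem_idl]
          refine ⟨_, ?_, rfl⟩
          have : MonoidAlgebra.single t c * (1 - MonoidAlgebra.single ε 1) -
              MonoidAlgebra.single t c = - MonoidAlgebra.single (t * ε) c := by
            rw [mul_sub, mul_one, single_mul_single, mul_one]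
            abel
          rw [this]
          exact (SupIn.single htεD c).neg

end S3

end Pool.Agent.H.MP_a22eb7_al.Lay
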